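import Mathlib
import Pool.Agent.Lib.MP_2ab1ce_al.TR.Stm

/-!
# Project TR (MP_2ab1ce_al): piece Q, elementary properties of `Q`
-/

set_option autoImplicit false

namespace Pool.Agent.MP_2ab1ce_al.TR

open Finset MP2ab1ce

namespace P_Q

/-- the terms of the supremum -/
noncomputable def tm (P : Par) (c : ℕ → UnitAddCircle) (i k : ℕ) : ℝ :=
  (20 / 21 : ℝ) ^ k * q P (c (i + k))

theorem Q_eq (P : Par) (c : ℕ → UnitAddCircle) (i : ℕ) : Q P c i = ⨆ k : ℕ, tm P c i k := rfl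

theorem pow_le_one' (k : ℕ) : (20 / 21 : ℝ) ^ k ≤ 1 :=
  pow_le_one₀ (by norm_num) (by norm_num)

theorem tm_le_pow (hq : S_q) (P : Par) (c : ℕ → UnitAddCircle) (i k : ℕ) :
    tm P c i k ≤ (20 / 21 : ℝ) ^ k := by
  have h1 := (hq P).2.1 (c (i + k))
  have h2 : (0 : ℝ) ≤ (20 / 21 : ℝ) ^ k := by positivity
  calc tm P c i k = (20 / 21 : ℝ) ^ k * q P (c (i + k)) := rfl
    _ ≤ (20 / 21 : ℝ) ^ k * 1 := mul_le_mul_of_nonneg_left h1 h2
    _ = _ := mul_one _

theorem tm_nonneg (hq : S_q) (P : Par) (c : ℕ → UnitAddCircle) (i k : ℕ) : 0 ≤ tm P c i k :=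
  mul_nonneg (by positivity) ((hq P).1 _)

theorem bdd (hq : S_q) (P : Par) (c : ℕ → UnitAddCircle) (i : ℕ) :
    BddAbove (Set.range fun k : ℕ => tm P c i k) := by
  refine ⟨1, ?_⟩
  rintro _ ⟨k, rfl⟩
  exact (tm_le_pow hq P c i k).trans (pow_le_one' k)

theorem le_Q (hq : S_q) (P : Par) (c : ℕ → UnitAddCircle) (i k : ℕ) : tm P c i k ≤ Q P c i :=
  le_ciSup (bdd hq P c i) k

theorem attained (hq : S_q) (P : Par) (c : ℕ → UnitAddCircle) (i : ℕ) (h : 0 < Q P c i) :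
    ∃ k, Q P c i = tm P c i k := by
  obtain ⟨k0, hk0⟩ := exists_pow_lt_of_lt_one (half_pos h) (by norm_num : (20 / 21 : ℝ) < 1)
  obtain ⟨k, -, hk⟩ := Finset.exists_max_image (range (k0 + 1)) (fun k => tm P c i k)
    ⟨0, by simp⟩
  refine ⟨k, le_antisymm ?_ (le_Q hq P c i k)⟩
  have h1 : Q P c i ≤ max (tm P c i k) (Q P c i / 2) := by
    conv_lhs => rw [Q_eq]
    refine ciSup_le fun j => ?_
    by_cases hj : j < k0 + 1
    · exact (hk j (Finset.mem_range.2 hj)).trans (le_max_left _ _)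
    · refine ((tm_le_pow hq P c i j).trans ?_).trans (le_max_right _ _)
      refine le_trans ?_ hk0.le
      exact pow_le_pow_of_le_one (by norm_num) (by norm_num) (by omega)
  rcases le_max_iff.1 h1 with h2 | h2
  · exact h2
  · exfalso
    linarith

theorem step (hq : S_q) (P : Par) (c : ℕ → UnitAddCircle) (i : ℕ) :
    20 / 21 * Q P c (i + 1) ≤ Q P c i := by
  have h1 : Q P c (i + 1) ≤ 21 / 20 * Q P c i := by
    rw [Q_eq P c (i + 1)]
    refine ciSup_le fun k => ?_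
    have h2 := le_Q hq P c i (k + 1)
    have h3 : tm P c i (k + 1) = 20 / 21 * tm P c (i + 1) k := by
      unfold tm
      have h4 : i + (k + 1) = i + 1 + k := by ring
      rw [h4, pow_succ]
      ring
    rw [h3] at h2
    linarith
  linarith

theorem norm_le (P : Par) (x y : UnitAddCircle) (n : ℤ) (hn : |n| ≤ (P.R : ℤ)) :
    ‖x - n • y‖ ≤ ((P.R : ℝ) + 1) * max ‖x‖ ‖y‖ := by
  have h1 : ‖n • y‖ ≤ ‖n‖ * ‖y‖ := norm_zsmul_le n y
  have h2 : ‖n‖ ≤ (P.R : ℝ) := by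
    rw [Int.norm_eq_abs]
    exact_mod_cast hn
  have h3 : ‖n • y‖ ≤ P.R * max ‖x‖ ‖y‖ :=
    h1.trans (mul_le_mul h2 (le_max_right _ _) (norm_nonneg _) (Nat.cast_nonneg _))
  calc ‖x - n • y‖ ≤ ‖x‖ + ‖n • y‖ := norm_sub_le _ _
    _ ≤ max ‖x‖ ‖y‖ + P.R * max ‖x‖ ‖y‖ := add_le_add (le_max_left _ _) h3
    _ = _ := by ring

/-- comparison of the values of `q` -/
theorem q_cmp (hq : S_q) (P : Par) (x y : UnitAddCircle)
    (h : ‖y‖ ≤ ((P.R : ℝ) + 1) * ‖x‖) : (((P.R : ℝ) + 1) ^ P.s)⁻¹ * q P y ≤ q P x := by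
  have hR : (0 : ℝ) < (P.R : ℝ) + 1 := by positivity
  have hK : 0 ≤ P.K := by linarith [P.hK]
  have h1 := (hq P).2.2.2.2.2 x y (((P.R : ℝ) + 1)⁻¹) (inv_pos.2 hR)
    (inv_le_one_of_one_le₀ (by linarith [Nat.cast_nonneg (α := ℝ) P.R])) (by
      have h2 : min (P.K * ‖y‖) 1 ≤ ((P.R : ℝ) + 1) * (P.K * ‖x‖) := by
        refine (min_le_left _ _).trans ?_
        calc P.K * ‖y‖ ≤ P.K * (((P.R : ℝ) + 1) * ‖x‖) := mul_le_mul_of_nonneg_left h hK
          _ = _ := by ring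
      calc ((P.R : ℝ) + 1)⁻¹ * min (P.K * ‖y‖) 1
          ≤ ((P.R : ℝ) + 1)⁻¹ * (((P.R : ℝ) + 1) * (P.K * ‖x‖)) :=
            mul_le_mul_of_nonneg_left h2 (inv_pos.2 hR).le
        _ = P.K * ‖x‖ := by rw [← mul_assoc, inv_mul_cancel₀ hR.ne', one_mul])
  rwa [Real.inv_rpow hR.le] at h1

end P_Q

open P_Q in
theorem p_Q (hq : S_q) : S_Q := by
  intro P c i
  refine ⟨?_, ?_, le_Q hq P c i, attained hq P c i, step hq P c i, ?_⟩
  · exact (tm_nonneg hq P c i 0).trans (le_Q hq P c i 0)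
  · rw [Q_eq]
    exact ciSup_le fun k => (tm_le_pow hq P c i k).trans (pow_le_one' k)
  intro ε σ n hσ hn
  set e : ℕ → UnitAddCircle := E ε σ n c with he
  set Λ : ℝ := ((P.R : ℝ) + 1) ^ P.s with hΛ
  have hR : (1 : ℝ) ≤ (P.R : ℝ) + 1 := by linarith [Nat.cast_nonneg (α := ℝ) P.R]
  have hΛ1 : 1 ≤ Λ := Real.one_le_rpow hR P.hs.le
  have hΛ0 : 0 < Λ := lt_of_lt_of_le one_pos hΛ1
  have hpos : 0 < (20 / 21 : ℝ) ^ 3 * Λ⁻¹ := by positivity
  -- the main estimate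
  have main : ∀ k τ : ℕ, τ ≤ 3 → Λ⁻¹ * q P (c (i + k)) ≤ q P (e (i + (k + τ))) →
      (20 / 21 : ℝ) ^ 3 * Λ⁻¹ * tm P c i k ≤ Q P e i := by
    intro k τ hτ h
    have h1 : (20 / 21 : ℝ) ^ 3 ≤ (20 / 21 : ℝ) ^ τ :=
      pow_le_pow_of_le_one (by norm_num) (by norm_num) hτ
    have h0 : 0 ≤ q P (e (i + (k + τ))) := (hq P).1 _
    calc (20 / 21 : ℝ) ^ 3 * Λ⁻¹ * tm P c i k
        = (20 / 21 : ℝ) ^ 3 * ((20 / 21 : ℝ) ^ k * (Λ⁻¹ * q P (c (i + k)))) := by
          unfold tm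
          ring
      _ ≤ (20 / 21 : ℝ) ^ 3 * ((20 / 21 : ℝ) ^ k * q P (e (i + (k + τ)))) := by
          apply mul_le_mul_of_nonneg_left _ (by positivity)
          exact mul_le_mul_of_nonneg_left h (by positivity)
      _ ≤ (20 / 21 : ℝ) ^ τ * ((20 / 21 : ℝ) ^ k * q P (e (i + (k + τ)))) :=
          mul_le_mul_of_nonneg_right h1 (mul_nonneg (by positivity) h0)
      _ = tm P e i (k + τ) := by
          unfold tm
          rw [pow_add]
          ring
      _ ≤ Q P e i := le_Q hq P e i _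
  have key : Q P c i ≤ Q P e i / ((20 / 21 : ℝ) ^ 3 * Λ⁻¹) := by
    rw [Q_eq P c i]
    refine ciSup_le fun k => ?_
    rw [le_div_iff₀ hpos, mul_comm]
    by_cases hj : (i + k) % 2 = ε
    · have h1 : e (i + k) = c (i + k) + n • c (i + k + σ) := by
        rw [he]
        unfold E
        rw [if_pos hj]
      have h2 : e (i + k + σ) = c (i + k + σ) := by
        rw [he]
        unfold E
        rw [if_neg (by omega)]
      have h3 : c (i + k) = e (i + k) - n • e (i + k + σ) := by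
        rw [h1, h2, add_sub_cancel_right]
      have h4 := norm_le P (e (i + k)) (e (i + k + σ)) n hn
      rw [← h3] at h4
      rcases le_total ‖e (i + k + σ)‖ ‖e (i + k)‖ with h5 | h5
      · rw [max_eq_left h5] at h4
        exact main k 0 (by norm_num) (q_cmp hq P _ _ h4)
      · rw [max_eq_right h5] at h4
        refine main k σ (by omega) ?_
        have h6 : i + (k + σ) = i + k + σ := by ring
        rw [h6]
        exact q_cmp hq P _ _ h4
    · have h1 : e (i + k) = c (i + k) := by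
        rw [he]
        unfold E
        rw [if_neg hj]
      refine main k 0 (by norm_num) ?_
      rw [add_zero, h1]
      have h0 : 0 ≤ q P (c (i + k)) := (hq P).1 _
      calc Λ⁻¹ * q P (c (i + k)) ≤ 1 * q P (c (i + k)) :=
            mul_le_mul_of_nonneg_right (inv_le_one_of_one_le₀ hΛ1) h0
        _ = _ := one_mul _
  rw [le_div_iff₀ hpos, mul_comm] at key
  exact key

end Pool.Agent.MP_2ab1ce_al.TR
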