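import Mathlib
import Pool.Agent.Lib.MP_2ab1ce_al.TR.Stm

/-!
# Project TR, piece a1
-/

namespace Pool.Agent.MP_2ab1ce_al.TR

open Finset MP2ab1ce

namespace P_a1

theorem card_Icc' (R : ℕ) : ((Icc (-(R : ℤ)) (R : ℤ)).card : ℝ) = 2 * R + 1 := by
  rw [Int.card_Icc]
  have h : ((R : ℤ) + 1 - -(R : ℤ)).toNat = 2 * R + 1 := by omega
  rw [h]
  push_cast
  ring

/-- averages with few bad terms -/
theorem avg_le (P : Par) (g : ℤ → ℝ) (bad : ℤ → Prop) [DecidablePred bad] (A B b : ℝ)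
    (hA : 0 ≤ A) (hB : 0 ≤ B)
    (h1 : ∀ n ∈ Icc (-(P.R : ℤ)) (P.R : ℤ), ¬ bad n → g n ≤ A)
    (h2 : ∀ n ∈ Icc (-(P.R : ℤ)) (P.R : ℤ), bad n → g n ≤ B)
    (h3 : (((Icc (-(P.R : ℤ)) (P.R : ℤ)).filter bad).card : ℝ) ≤ b * (2 * (P.R : ℝ) + 1)) :
    avg P g ≤ A + b * B := by
  have hR : (0 : ℝ) < 2 * (P.R : ℝ) + 1 := by positivity
  unfold avg
  rw [div_le_iff₀ hR]
  calc ∑ n ∈ Icc (-(P.R : ℤ)) (P.R : ℤ), g n
      ≤ ∑ n ∈ Icc (-(P.R : ℤ)) (P.R : ℤ), (A + if bad n then B else 0) := by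
        apply Finset.sum_le_sum
        intro n hn
        by_cases hb : bad n
        · rw [if_pos hb]
          have := h2 n hn hb
          linarith
        · rw [if_neg hb, add_zero]
          exact h1 n hn hb
    _ = (2 * (P.R : ℝ) + 1) * A + (((Icc (-(P.R : ℤ)) (P.R : ℤ)).filter bad).card : ℝ) * B := by
        rw [Finset.sum_add_distrib, Finset.sum_const, nsmul_eq_mul, card_Icc',
          ← Finset.sum_filter, Finset.sum_const, nsmul_eq_mul]
    _ ≤ (2 * (P.R : ℝ) + 1) * A + b * (2 * (P.R : ℝ) + 1) * B := by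
        have := mul_le_mul_of_nonneg_right h3 hB
        linarith
    _ = (A + b * B) * (2 * (P.R : ℝ) + 1) := by ring

end P_a1

open P_a1

theorem p_a1 (hq : S_q) (hbad : S_bad) : S_a1 := by
  classical
  intro P u v σ hσ hu hv
  obtain ⟨q0, q1, qz, qK, qlt, qm⟩ := hq P
  have hK := P.hK
  have hK0 : (0 : ℝ) < P.K := by linarith
  have hs := P.hs
  have hqu : 0 < q P u := lt_of_le_of_ne (q0 u) (fun h => hu ((qz u).1 h.symm))
  have hqi : 0 < (q P u)⁻¹ := inv_pos.2 hqu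
  have hun : 0 < ‖u‖ := norm_pos_iff.2 hu
  by_cases hv0 : v = 0
  · subst hv0
    have h := avg_le P (fun n : ℤ => (max (q P (u + n • (0 : UnitAddCircle)))
      ((20 / 21 : ℝ) ^ σ * q P 0))⁻¹) (fun _ => False) ((1 + 2 / 10000) * (q P u)⁻¹) 0 0
      (by positivity) le_rfl (by
        intro n _ _
        have e1 : q P (0 : UnitAddCircle) = 0 := (qz 0).2 rfl
        simp only [smul_zero, add_zero, e1, mul_zero]
        rw [max_eq_left hqu.le]
        nlinarith) (by
        intro n _ h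
        exact h.elim) (by simp)
    simpa using h
  · have hvn : 0 < ‖v‖ := norm_pos_iff.2 hv0
    have hqv : 0 < q P v := lt_of_le_of_ne (q0 v) (fun h => hv0 ((qz v).1 h.symm))
    obtain ⟨y, hy⟩ : ∃ y, y = min ‖u‖ (1 / P.K) / P.K := ⟨_, rfl⟩
    have hy0 : 0 ≤ y := by
      rw [hy]; positivity
    have hKy : P.K * y = min ‖u‖ (1 / P.K) := by
      rw [hy]; field_simp
    have hKy2 : P.K * y = 1 / P.K * min (P.K * ‖u‖) 1 := by
      rw [hKy, mul_min_of_nonneg _ _ (by positivity : (0 : ℝ) ≤ 1 / P.K)]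
      congr 1
      · field_simp
      · ring
    have hyu : y ≤ ‖u‖ / P.K := by
      rw [hy]
      exact div_le_div_of_nonneg_right (min_le_left _ _) hK0.le
    have hyK : y ≤ 1 / P.K ^ 2 := by
      rw [hy]
      calc min ‖u‖ (1 / P.K) / P.K ≤ (1 / P.K) / P.K :=
            div_le_div_of_nonneg_right (min_le_right _ _) hK0.le
        _ = 1 / P.K ^ 2 := by rw [div_div, sq]
    have hR1 : (1 : ℝ) ≤ P.R := by
      have := P.hR
      linarith
    have hR0 : (0 : ℝ) < P.R := by linarith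
    -- consequence of a bad term
    have hbadn : ∀ n ∈ Icc (-(P.R : ℤ)) (P.R : ℤ), ‖u + n • v‖ ≤ y → ‖u‖ ≤ 2 * P.R * ‖v‖ := by
      intro n hn hb
      rw [Finset.mem_Icc] at hn
      have e1 : ‖n • v‖ ≤ P.R * ‖v‖ := by
        refine (norm_zsmul_le n v).trans ?_
        apply mul_le_mul_of_nonneg_right _ hvn.le
        rw [Int.norm_eq_abs, abs_le]
        constructor
        · have : ((-(P.R : ℤ) : ℤ) : ℝ) ≤ (n : ℝ) := by exact_mod_cast hn.1
          push_cast at this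
          exact this
        · exact_mod_cast hn.2
      have e2 : ‖u‖ ≤ ‖u + n • v‖ + ‖n • v‖ := by
        have := norm_sub_le (u + n • v) (n • v)
        rwa [add_sub_cancel_right] at this
      have e3 : ‖u‖ ≤ ‖u‖ / P.K + P.R * ‖v‖ := by linarith
      have e4 : ‖u‖ / P.K ≤ ‖u‖ / 2 :=
        div_le_div_of_nonneg_left hun.le (by norm_num) (by linarith)
      linarith
    have hcard : (((Icc (-(P.R : ℤ)) (P.R : ℤ)).filter (fun n : ℤ => ‖u + n • v‖ ≤ y)).card : ℝ) ≤
        8 / P.K * (2 * (P.R : ℝ) + 1) := by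
      by_cases hex : ∃ n ∈ Icc (-(P.R : ℤ)) (P.R : ℤ), ‖u + n • v‖ ≤ y
      · obtain ⟨n, hn, hb⟩ := hex
        have e1 := hbadn n hn hb
        apply (hbad P v u y).1 hv0 hv.le hy0 hyK
        calc P.K * y ≤ ‖u‖ := by rw [hKy]; exact min_le_left _ _
          _ ≤ 2 * P.R * ‖v‖ := e1
          _ ≤ (2 * (P.R : ℝ) + 1) * ‖v‖ := by nlinarith
      · push Not at hex
        have e1 : (Icc (-(P.R : ℤ)) (P.R : ℤ)).filter (fun n : ℤ => ‖u + n • v‖ ≤ y) = ∅ := by
          apply Finset.filter_eq_empty_iff.2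
          intro n hn
          exact not_le.2 (hex n hn)
        rw [e1]
        simp only [Finset.card_empty, Nat.cast_zero]
        positivity
    have hmain := avg_le P (fun n : ℤ => (max (q P (u + n • v)) ((20 / 21 : ℝ) ^ σ * q P v))⁻¹)
      (fun n : ℤ => ‖u + n • v‖ ≤ y) ((1 + 1 / 10000) * (q P u)⁻¹)
      (2 * (2 * (P.R : ℝ)) ^ P.s * (q P u)⁻¹) (8 / P.K) (by positivity) (by positivity) (by
        intro n _ hb
        have e1 : 1 / P.K * min (P.K * ‖u‖) 1 ≤ P.K * ‖u + n • v‖ := by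
          rw [← hKy2]
          exact mul_le_mul_of_nonneg_left (not_le.1 hb).le hK0.le
        have e2 := qm (u + n • v) u (1 / P.K) (by positivity) (by
          rw [div_le_one hK0]; linarith) e1
        have e3 : (1 / P.K) ^ P.s = (P.K ^ P.s)⁻¹ := by
          rw [one_div, Real.inv_rpow hK0.le]
        rw [e3] at e2
        have e4 : 0 < P.K ^ P.s := Real.rpow_pos_of_pos hK0 _
        have e5 : q P u ≤ P.K ^ P.s * max (q P (u + n • v)) ((20 / 21 : ℝ) ^ σ * q P v) := by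
          have : q P u ≤ P.K ^ P.s * q P (u + n • v) := by
            calc q P u = P.K ^ P.s * ((P.K ^ P.s)⁻¹ * q P u) := by
                  field_simp
              _ ≤ _ := mul_le_mul_of_nonneg_left e2 e4.le
          exact this.trans (mul_le_mul_of_nonneg_left (le_max_left _ _) e4.le)
        have e6 : 0 < max (q P (u + n • v)) ((20 / 21 : ℝ) ^ σ * q P v) :=
          lt_of_lt_of_le (by positivity) (le_max_right _ _)
        show (max (q P (u + n • v)) ((20 / 21 : ℝ) ^ σ * q P v))⁻¹ ≤ _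
        generalize max (q P (u + n • v)) ((20 / 21 : ℝ) ^ σ * q P v) = M at e5 e6 ⊢
        rw [← div_eq_mul_inv, le_div_iff₀ hqu, inv_mul_le_iff₀ e6]
        calc q P u ≤ P.K ^ P.s * M := e5
          _ ≤ (1 + 1 / 10000) * M := mul_le_mul_of_nonneg_right P.hKs e6.le
          _ = M * (1 + 1 / 10000) := mul_comm _ _) (by
        intro n hn hb
        have e1 := hbadn n hn hb
        have e2 := qm v u (1 / (2 * P.R)) (by positivity) (by
          rw [div_le_one (by positivity)]; linarith) (by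
          calc 1 / (2 * (P.R : ℝ)) * min (P.K * ‖u‖) 1 ≤ 1 / (2 * (P.R : ℝ)) * (P.K * ‖u‖) :=
                mul_le_mul_of_nonneg_left (min_le_left _ _) (by positivity)
            _ ≤ 1 / (2 * (P.R : ℝ)) * (P.K * (2 * P.R * ‖v‖)) := by gcongr
            _ = P.K * ‖v‖ := by field_simp)
        have e3 : (1 / (2 * (P.R : ℝ))) ^ P.s = ((2 * (P.R : ℝ)) ^ P.s)⁻¹ := by
          rw [one_div, Real.inv_rpow (by positivity)]
        rw [e3] at e2
        have e4 : 0 < (2 * (P.R : ℝ)) ^ P.s := Real.rpow_pos_of_pos (by positivity) _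
        have e5 : q P u ≤ (2 * (P.R : ℝ)) ^ P.s * q P v := by
          calc q P u = (2 * (P.R : ℝ)) ^ P.s * (((2 * (P.R : ℝ)) ^ P.s)⁻¹ * q P u) := by
                field_simp
            _ ≤ _ := mul_le_mul_of_nonneg_left e2 e4.le
        have e7 : (1 / 2 : ℝ) ≤ (20 / 21 : ℝ) ^ σ := by
          rcases hσ with rfl | rfl <;> norm_num
        have e8 : 1 / 2 * q P v ≤ max (q P (u + n • v)) ((20 / 21 : ℝ) ^ σ * q P v) :=
          (mul_le_mul_of_nonneg_right e7 hqv.le).trans (le_max_right _ _)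
        have e6 : 0 < max (q P (u + n • v)) ((20 / 21 : ℝ) ^ σ * q P v) :=
          lt_of_lt_of_le (by positivity) (le_max_right _ _)
        show (max (q P (u + n • v)) ((20 / 21 : ℝ) ^ σ * q P v))⁻¹ ≤ _
        generalize max (q P (u + n • v)) ((20 / 21 : ℝ) ^ σ * q P v) = M at e6 e8 ⊢
        rw [← div_eq_mul_inv, le_div_iff₀ hqu, inv_mul_le_iff₀ e6]
        calc q P u ≤ (2 * (P.R : ℝ)) ^ P.s * q P v := e5
          _ ≤ (2 * (P.R : ℝ)) ^ P.s * (2 * M) :=
              mul_le_mul_of_nonneg_left (by linarith) e4.le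
          _ = M * (2 * (2 * (P.R : ℝ)) ^ P.s) := by ring) hcard
    refine hmain.trans ?_
    have e9 := mul_le_mul_of_nonneg_right P.hR8 hqi.le
    calc (1 + 1 / 10000) * (q P u)⁻¹ + 8 / P.K * (2 * (2 * (P.R : ℝ)) ^ P.s * (q P u)⁻¹)
        = (1 + 1 / 10000) * (q P u)⁻¹ + 8 / P.K * (2 * (2 * (P.R : ℝ)) ^ P.s) * (q P u)⁻¹ := by ring
      _ ≤ (1 + 1 / 10000) * (q P u)⁻¹ + 1 / 10000 * (q P u)⁻¹ := by linarith
      _ = (1 + 2 / 10000) * (q P u)⁻¹ := by ring

end Pool.Agent.MP_2ab1ce_al.TR
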