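import Mathlib
import Pool.Agent.Lib.MP_2ab1ce_al.TR.Stm

/-!
# Project TR (MP_2ab1ce_al): piece a2
-/

set_option autoImplicit false

namespace Pool.Agent.MP_2ab1ce_al.TR

open Finset MP2ab1ce

namespace P_a2

theorem card_I (R : ℕ) : ((Icc (-(R : ℤ)) (R : ℤ)).card : ℝ) = 2 * (R : ℝ) + 1 := by
  rw [Int.card_Icc]
  have h : ((R : ℤ) + 1 - -(R : ℤ)).toNat = 2 * R + 1 := by omega
  rw [h]
  push_cast
  ring

theorem sum_two (I : Finset ℤ) (c : ℤ → Prop) [DecidablePred c] (X Y : ℝ) :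
    ∑ n ∈ I, (if c n then X else Y) = (I.card : ℝ) * Y + ((I.filter c).card : ℝ) * (X - Y) := by
  have h1 : ∀ n ∈ I, (if c n then X else Y) = Y + (if c n then X - Y else 0) := by
    intro n _
    split_ifs
    · ring
    · ring
  rw [Finset.sum_congr rfl h1, Finset.sum_add_distrib, Finset.sum_const, ← Finset.sum_filter,
    Finset.sum_const, nsmul_eq_mul, nsmul_eq_mul]

theorem fin_ineq (R b x Q : ℝ) (hb : b ≤ R + 1) (hR : 999999 ≤ R) (hx1 : 21 / 20 ≤ x)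
    (hx2 : x ≤ 12 / 10) (hQ : 0 < Q) :
    (2 * R + 1) * ((1 + 1 / 10000) * Q) + b * (x * Q - (1 + 1 / 10000) * Q) ≤
      (1 / 2 * x + 1 / 2 + 1 / 5000) * Q * (2 * R + 1) := by
  have h1 : b * (x - (1 + 1 / 10000)) ≤ (R + 1) * (x - (1 + 1 / 10000)) :=
    mul_le_mul_of_nonneg_right hb (by linarith)
  have h2 : (2 * R + 1) * (1 + 1 / 10000) + b * (x - (1 + 1 / 10000)) ≤
      (1 / 2 * x + 1 / 2 + 1 / 5000) * (2 * R + 1) := by
    nlinarith
  have h3 := mul_le_mul_of_nonneg_right h2 hQ.le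
  nlinarith

end P_a2

theorem p_a2 (hq : S_q) (hbad : S_bad) : S_a2 := by
  intro P u v σ hσ hu hv
  obtain ⟨q0, q1, qz, -, -, qmul⟩ := hq P
  have hK := P.hK
  have hK0 : 0 < P.K := by linarith
  have hu0 : 0 < ‖u‖ := norm_pos_iff.2 hu
  have hqu : 0 < q P u := lt_of_le_of_ne (q0 u) (fun h => hu ((qz u).1 h.symm))
  have hqi : 0 < (q P u)⁻¹ := inv_pos.2 hqu
  have hqu1 : 1 ≤ (q P u)⁻¹ := (one_le_inv₀ hqu).2 (q1 u)
  have hKi : 0 < 1 / P.K := by positivity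
  have hKi1 : 1 / P.K ≤ 1 := by
    rw [div_le_one hK0]
    linarith
  set y : ℝ := min ‖u‖ (1 / P.K) / P.K with hy
  have hKy : P.K * y = 1 / P.K * min (P.K * ‖u‖) 1 := by
    rw [hy, mul_div_cancel₀ _ hK0.ne', mul_min_of_nonneg _ _ hKi.le, mul_one, ← mul_assoc,
      one_div, inv_mul_cancel₀ hK0.ne', one_mul]
  have hvn : 1 / P.K ≤ ‖v‖ := by
    rw [div_le_iff₀ hK0, mul_comm]
    exact hv
  have hyle : y ≤ 1 / P.K / P.K := by
    rw [hy]
    exact div_le_div_of_nonneg_right (min_le_right _ _) hK0.le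
  have h2y : 2 * y ≤ ‖v‖ := by
    have h1 : 1 / P.K / P.K ≤ 1 / P.K * (1 / 2) := by
      rw [div_eq_mul_one_div (1 / P.K) P.K]
      apply mul_le_mul_of_nonneg_left _ hKi.le
      rw [div_le_iff₀ hK0]
      linarith
    linarith
  have hb : ((Icc (-(P.R : ℤ)) (P.R : ℤ)).filter (fun n : ℤ => ‖u + n • v‖ < y)).card ≤
      P.R + 1 := (hbad P v u y).2 h2y
  have hx0 : (0 : ℝ) < (20 / 21) ^ σ := by positivity
  have hxinv : ((20 / 21 : ℝ) ^ σ)⁻¹ = (21 / 20) ^ σ := by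
    rw [← inv_pow]
    norm_num
  have ht : ∀ n : ℤ, (max (q P (u + n • v)) ((20 / 21 : ℝ) ^ σ))⁻¹ ≤
      (if ‖u + n • v‖ < y then (21 / 20 : ℝ) ^ σ * (q P u)⁻¹
        else (1 + 1 / 10000) * (q P u)⁻¹) := by
    intro n
    split_ifs with hn
    · have h1 : (max (q P (u + n • v)) ((20 / 21 : ℝ) ^ σ))⁻¹ ≤ ((20 / 21 : ℝ) ^ σ)⁻¹ :=
        inv_anti₀ hx0 (le_max_right _ _)
      rw [hxinv] at h1
      refine h1.trans ?_
      have h2 : (0 : ℝ) ≤ (21 / 20) ^ σ := by positivity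
      nlinarith
    · have hn' : y ≤ ‖u + n • v‖ := not_lt.1 hn
      have h1 : 1 / P.K * min (P.K * ‖u‖) 1 ≤ P.K * ‖u + n • v‖ := by
        rw [← hKy]
        exact mul_le_mul_of_nonneg_left hn' hK0.le
      have h2 := qmul (u + n • v) u (1 / P.K) hKi hKi1 h1
      have h3 : (1 / P.K) ^ P.s * q P u ≤ max (q P (u + n • v)) ((20 / 21 : ℝ) ^ σ) :=
        h2.trans (le_max_left _ _)
      have h4 : 0 < (1 / P.K) ^ P.s := Real.rpow_pos_of_pos hKi _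
      have h5 := inv_anti₀ (mul_pos h4 hqu) h3
      refine h5.trans ?_
      rw [mul_inv]
      apply mul_le_mul_of_nonneg_right _ hqi.le
      rw [one_div, Real.inv_rpow hK0.le, inv_inv]
      exact P.hKs
  have hR := P.hR
  have hR2 : (999999 : ℝ) ≤ P.R := by linarith
  have hN : (0 : ℝ) < 2 * (P.R : ℝ) + 1 := by linarith
  have hx1 : (21 / 20 : ℝ) ≤ (21 / 20) ^ σ := by
    rcases hσ with rfl | rfl <;> norm_num
  have hx2 : (21 / 20 : ℝ) ^ σ ≤ 12 / 10 := by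
    rcases hσ with rfl | rfl <;> norm_num
  have hb' : (((Icc (-(P.R : ℤ)) (P.R : ℤ)).filter
      (fun n : ℤ => ‖u + n • v‖ < y)).card : ℝ) ≤ (P.R : ℝ) + 1 := by
    exact_mod_cast hb
  unfold avg
  rw [div_le_iff₀ hN]
  refine (Finset.sum_le_sum (fun n _ => ht n)).trans ?_
  rw [P_a2.sum_two, P_a2.card_I]
  exact P_a2.fin_ineq P.R _ _ _ hb' hR2 hx1 hx2 hqi

end Pool.Agent.MP_2ab1ce_al.TR
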