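import Mathlib
import Pool.Agent.Lib.MP_2ab1ce_al.TR.Stm

/-!
# Project TR (MP_2ab1ce_al), piece b1
-/

set_option autoImplicit false

namespace Pool.Agent.MP_2ab1ce_al.TR

open Finset MP2ab1ce

namespace P_b1

private theorem card_Icc (R : ℕ) :
    ((Icc (-(R : ℤ)) (R : ℤ)).card : ℝ) = 2 * (R : ℝ) + 1 := by
  rw [Int.card_Icc]
  have h : ((R : ℤ) + 1 - -(R : ℤ)).toNat = 2 * R + 1 := by omega
  rw [h]
  push_cast
  ring

end P_b1

theorem p_b1 (hq : S_q) (hbad : S_bad) : S_b1 := by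
  intro P u w σ hσ hu
  obtain ⟨h0, -, hz, -, -, hlast⟩ := hq P
  have hK0 : 0 < P.K := lt_of_lt_of_le (by norm_num) P.hK
  have hKge : (1000000 : ℝ) ≤ P.K := P.hK
  have hR := P.hR
  have hRge : (999999 : ℝ) ≤ (P.R : ℝ) := by linarith
  have hqu : 0 < q P u := lt_of_le_of_ne (h0 u) (fun h => hu ((hz u).1 h.symm))
  have hI : 0 < (q P u)⁻¹ := inv_pos.2 hqu
  -- the power
  set c : ℝ := (20 / 21 : ℝ) ^ σ with hc
  have hc0 : 0 < c := by positivity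
  have hc1 : c ≤ 20 / 21 := by
    rcases hσ with h | h
    · rw [hc, h]; norm_num
    · rw [hc, h]; norm_num
  have hcd : (21 / 20 : ℝ) ^ σ = c⁻¹ := by
    rw [hc, ← inv_pow]
    norm_num
  -- (1/2)^s
  have hs2 : (1 : ℝ) ≤ (1 + 1 / 10000) * (1 / 2 : ℝ) ^ P.s := by
    have h1 : (2 : ℝ) ^ P.s ≤ P.K ^ P.s :=
      Real.rpow_le_rpow (by norm_num) (by linarith) P.hs.le
    have h2 : (2 : ℝ) ^ P.s ≤ 1 + 1 / 10000 := h1.trans P.hKs
    have h3 : (2 : ℝ) ^ P.s * (1 / 2 : ℝ) ^ P.s = 1 := by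
      rw [← Real.mul_rpow (by norm_num) (by norm_num)]
      norm_num
    have h4 : 0 ≤ (1 / 2 : ℝ) ^ P.s := Real.rpow_nonneg (by norm_num) _
    calc (1 : ℝ) = (2 : ℝ) ^ P.s * (1 / 2 : ℝ) ^ P.s := h3.symm
      _ ≤ (1 + 1 / 10000) * (1 / 2 : ℝ) ^ P.s := mul_le_mul_of_nonneg_right h2 h4
  set I : ℝ := (q P u)⁻¹ with hIdef
  set A : ℝ := c * (1 + 1 / 10000) * I with hA
  have hAI : A ≤ I := by
    have : c * (1 + 1 / 10000) ≤ 1 := by nlinarith
    calc A = c * (1 + 1 / 10000) * I := rfl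
      _ ≤ 1 * I := mul_le_mul_of_nonneg_right this hI.le
      _ = I := one_mul I
  -- term bounds
  have hall : ∀ n : ℤ, (max (q P u) ((21 / 20 : ℝ) ^ σ * q P (w + n • u)))⁻¹ ≤ I := by
    intro n
    exact inv_anti₀ hqu (le_max_left _ _)
  have hgood : ∀ n : ℤ, ‖u‖ / 2 ≤ ‖w + n • u‖ →
      (max (q P u) ((21 / 20 : ℝ) ^ σ * q P (w + n • u)))⁻¹ ≤ A := by
    intro n hn
    have h1 : (1 / 2 : ℝ) * min (P.K * ‖u‖) 1 ≤ P.K * ‖w + n • u‖ := by
      have h2 : min (P.K * ‖u‖) 1 ≤ P.K * ‖u‖ := min_le_left _ _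
      have h3 : P.K * (‖u‖ / 2) ≤ P.K * ‖w + n • u‖ := mul_le_mul_of_nonneg_left hn hK0.le
      linarith
    have h2 : (1 / 2 : ℝ) ^ P.s * q P u ≤ q P (w + n • u) :=
      hlast (w + n • u) u (1 / 2) (by norm_num) (by norm_num) h1
    have h3 : q P u ≤ (1 + 1 / 10000) * q P (w + n • u) := by
      calc q P u = 1 * q P u := (one_mul _).symm
        _ ≤ (1 + 1 / 10000) * (1 / 2 : ℝ) ^ P.s * q P u :=
            mul_le_mul_of_nonneg_right hs2 hqu.le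
        _ = (1 + 1 / 10000) * ((1 / 2 : ℝ) ^ P.s * q P u) := by ring
        _ ≤ (1 + 1 / 10000) * q P (w + n • u) :=
            mul_le_mul_of_nonneg_left h2 (by norm_num)
    have h4 : A⁻¹ ≤ max (q P u) ((21 / 20 : ℝ) ^ σ * q P (w + n • u)) := by
      refine le_trans ?_ (le_max_right _ _)
      rw [hcd, hA, hIdef, mul_inv, inv_inv, mul_inv]
      have h5 : (1 + 1 / 10000 : ℝ)⁻¹ * q P u ≤ q P (w + n • u) := by
        rw [inv_mul_le_iff₀ (by norm_num)]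
        exact h3
      calc c⁻¹ * (1 + 1 / 10000 : ℝ)⁻¹ * q P u = c⁻¹ * ((1 + 1 / 10000 : ℝ)⁻¹ * q P u) := by ring
        _ ≤ c⁻¹ * q P (w + n • u) := mul_le_mul_of_nonneg_left h5 (inv_pos.2 hc0).le
    have hA0 : 0 < A := by positivity
    exact inv_le_of_inv_le₀ hA0 h4
  -- the sum
  have hb := (hbad P u w (‖u‖ / 2)).2 (by linarith)
  have hsum : ∑ n ∈ Icc (-(P.R : ℤ)) (P.R : ℤ),
      (max (q P u) ((21 / 20 : ℝ) ^ σ * q P (w + n • u)))⁻¹ ≤
      (2 * (P.R : ℝ) + 1) * A + ((P.R : ℝ) + 1) * (I - A) := by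
    calc ∑ n ∈ Icc (-(P.R : ℤ)) (P.R : ℤ),
          (max (q P u) ((21 / 20 : ℝ) ^ σ * q P (w + n • u)))⁻¹
        ≤ ∑ n ∈ Icc (-(P.R : ℤ)) (P.R : ℤ),
          (A + if ‖w + n • u‖ < ‖u‖ / 2 then (I - A) else 0) := by
          refine Finset.sum_le_sum fun n _ => ?_
          by_cases hn : ‖w + n • u‖ < ‖u‖ / 2
          · rw [if_pos hn]
            have := hall n
            linarith
          · rw [if_neg hn, add_zero]
            exact hgood n (not_lt.1 hn)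
      _ = (2 * (P.R : ℝ) + 1) * A +
          (((Icc (-(P.R : ℤ)) (P.R : ℤ)).filter (fun n : ℤ => ‖w + n • u‖ < ‖u‖ / 2)).card : ℝ) *
            (I - A) := by
          rw [Finset.sum_add_distrib, Finset.sum_const, ← Finset.sum_filter, Finset.sum_const,
            nsmul_eq_mul, nsmul_eq_mul, P_b1.card_Icc]
      _ ≤ (2 * (P.R : ℝ) + 1) * A + ((P.R : ℝ) + 1) * (I - A) := by
          have h1 : (((Icc (-(P.R : ℤ)) (P.R : ℤ)).filter
              (fun n : ℤ => ‖w + n • u‖ < ‖u‖ / 2)).card : ℝ) ≤ (P.R : ℝ) + 1 := by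
            exact_mod_cast hb
          have h2 : 0 ≤ I - A := by linarith
          have h3 := mul_le_mul_of_nonneg_right h1 h2
          linarith
  unfold avg
  have hpos : 0 < 2 * (P.R : ℝ) + 1 := by linarith
  rw [div_le_iff₀ hpos]
  refine hsum.trans ?_
  have hfin : (2 * (P.R : ℝ) + 1) * (c * (1 + 1 / 10000)) +
      ((P.R : ℝ) + 1) * (1 - c * (1 + 1 / 10000)) ≤
      (1 / 2 + 1 / 2 * c + 1 / 5000) * (2 * (P.R : ℝ) + 1) := by
    have h1 : c * (P.R : ℝ) ≤ (P.R : ℝ) := by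
      have : c * (P.R : ℝ) ≤ 1 * (P.R : ℝ) :=
        mul_le_mul_of_nonneg_right (by linarith) (by linarith)
      linarith
    nlinarith
  calc (2 * (P.R : ℝ) + 1) * A + ((P.R : ℝ) + 1) * (I - A)
      = ((2 * (P.R : ℝ) + 1) * (c * (1 + 1 / 10000)) +
        ((P.R : ℝ) + 1) * (1 - c * (1 + 1 / 10000))) * I := by
        rw [hA]; ring
    _ ≤ ((1 / 2 + 1 / 2 * c + 1 / 5000) * (2 * (P.R : ℝ) + 1)) * I :=
        mul_le_mul_of_nonneg_right hfin hI.le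
    _ = (1 / 2 + 1 / 2 * c + 1 / 5000) * I * (2 * (P.R : ℝ) + 1) := by ring

end Pool.Agent.MP_2ab1ce_al.TR
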