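import Mathlib
import Pool.Agent.Lib.MP_2ab1ce_al.TR.Stm

/-!
# Project TR (MP_2ab1ce_al): piece b23
-/

namespace Pool.Agent.MP_2ab1ce_al.TR.P_b23

open Finset MP2ab1ce Pool.Agent.MP_2ab1ce_al.TR

/-- The averaging estimate with few bad terms. -/
theorem avg_le (P : Par) (g : ℤ → ℝ) (B : Finset ℤ) (M m : ℝ) (hM : 0 ≤ M) (hm : 0 ≤ m)
    (hB : (B.card : ℝ) ≤ 8 / P.K * (2 * (P.R : ℝ) + 1))
    (hb : ∀ n, g n ≤ M) (hg : ∀ n ∈ Icc (-(P.R : ℤ)) (P.R : ℤ), n ∉ B → g n ≤ m) :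
    avg P g ≤ m + 8 / P.K * M := by
  have hR : (0 : ℝ) < 2 * (P.R : ℝ) + 1 := by positivity
  have hcard : ((Icc (-(P.R : ℤ)) (P.R : ℤ)).card : ℝ) = 2 * (P.R : ℝ) + 1 := by
    rw [Int.card_Icc]
    have : ((P.R : ℤ) + 1 - -(P.R : ℤ)).toNat = 2 * P.R + 1 := by omega
    rw [this]; push_cast; ring
  have h1 : ∑ n ∈ Icc (-(P.R : ℤ)) (P.R : ℤ), g n ≤
      ∑ n ∈ Icc (-(P.R : ℤ)) (P.R : ℤ), (m + if n ∈ B then M else 0) := by
    refine Finset.sum_le_sum (fun n hn => ?_)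
    by_cases hnB : n ∈ B
    · rw [if_pos hnB]; linarith [hb n]
    · rw [if_neg hnB]; linarith [hg n hn hnB]
  have h2 : ∑ n ∈ Icc (-(P.R : ℤ)) (P.R : ℤ), (if n ∈ B then M else 0) ≤ B.card * M := by
    rw [← Finset.sum_filter, Finset.sum_const, nsmul_eq_mul]
    refine mul_le_mul_of_nonneg_right ?_ hM
    exact_mod_cast Finset.card_le_card (fun n hn => (Finset.mem_filter.mp hn).2)
  rw [avg, div_le_iff₀ hR]
  rw [Finset.sum_add_distrib, Finset.sum_const, nsmul_eq_mul, hcard] at h1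
  have h3 : (B.card : ℝ) * M ≤ 8 / P.K * (2 * (P.R : ℝ) + 1) * M :=
    mul_le_mul_of_nonneg_right hB hM
  nlinarith [h1, h2, h3]

/-- The common part: few bad `n`, and a lower bound for the good `n`. -/
theorem common (hq : S_q) (hbad : S_bad) (P : Par) (u w : UnitAddCircle) (hu : u ≠ 0)
    (hlt : q P u < 1) :
    ∃ B : Finset ℤ, (B.card : ℝ) ≤ 8 / P.K * (2 * (P.R : ℝ) + 1) ∧
      ∀ n ∈ Icc (-(P.R : ℤ)) (P.R : ℤ), n ∉ B →
        (1 + 1 / 10000 : ℝ)⁻¹ ≤ q P (w + n • u) ∨ 400 * q P u ≤ q P (w + n • u) := by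
  obtain ⟨_, _, _, _, hsm, _⟩ := hq P
  obtain ⟨hKu, hqu⟩ := hsm u hlt
  have hK := P.hK
  have hK0 : (0 : ℝ) < P.K := by linarith
  have hR0 : (0 : ℝ) < 2 * (P.R : ℝ) + 1 := by positivity
  have hu0 : 0 < ‖u‖ := norm_pos_iff.mpr hu
  rcases le_or_gt (1 / P.K) ((2 * (P.R : ℝ) + 1) * ‖u‖) with hA | hB
  · refine ⟨(Icc (-(P.R : ℤ)) (P.R : ℤ)).filter (fun n : ℤ => ‖w + n • u‖ ≤ 1 / P.K ^ 2),
      (hbad P u w (1 / P.K ^ 2)).1 hu hKu.le (by positivity) le_rfl ?_, ?_⟩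
    · have : P.K * (1 / P.K ^ 2) = 1 / P.K := by field_simp
      rw [this]; exact hA
    · intro n hn hnB
      left
      have hy : 1 / P.K ^ 2 < ‖w + n • u‖ := by
        by_contra hcon
        exact hnB (Finset.mem_filter.mpr ⟨hn, not_lt.mp hcon⟩)
      have hKy : 1 / P.K ≤ P.K * ‖w + n • u‖ := by
        have h1 : P.K * (1 / P.K ^ 2) = 1 / P.K := by field_simp
        rw [← h1]
        exact mul_le_mul_of_nonneg_left hy.le hK0.le
      have hK1 : 1 / P.K ≤ 1 := by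
        rw [div_le_one hK0]; linarith
      have h2 : (1 / P.K) ^ P.s ≤ q P (w + n • u) :=
        Real.rpow_le_rpow (by positivity) (le_min hKy hK1) P.hs.le
      refine le_trans ?_ h2
      rw [one_div P.K, Real.inv_rpow hK0.le]
      exact inv_anti₀ (Real.rpow_pos_of_pos hK0 _) P.hKs
  · refine ⟨(Icc (-(P.R : ℤ)) (P.R : ℤ)).filter
        (fun n : ℤ => ‖w + n • u‖ ≤ (2 * (P.R : ℝ) + 1) * ‖u‖ / P.K),
      (hbad P u w ((2 * (P.R : ℝ) + 1) * ‖u‖ / P.K)).1 hu hKu.le (by positivity) ?_ ?_, ?_⟩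
    · rw [div_le_div_iff₀ hK0 (by positivity)]
      have h1 : (2 * (P.R : ℝ) + 1) * ‖u‖ * P.K ≤ 1 := by
        rw [lt_div_iff₀ hK0] at hB; exact hB.le
      calc (2 * (P.R : ℝ) + 1) * ‖u‖ * P.K ^ 2
          = ((2 * (P.R : ℝ) + 1) * ‖u‖ * P.K) * P.K := by ring
        _ ≤ 1 * P.K := mul_le_mul_of_nonneg_right h1 hK0.le
    · have : P.K * ((2 * (P.R : ℝ) + 1) * ‖u‖ / P.K) = (2 * (P.R : ℝ) + 1) * ‖u‖ := by
        field_simp
      rw [this]
    · intro n hn hnB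
      right
      have hy : (2 * (P.R : ℝ) + 1) * ‖u‖ / P.K < ‖w + n • u‖ := by
        by_contra hcon
        exact hnB (Finset.mem_filter.mpr ⟨hn, not_lt.mp hcon⟩)
      have hKy : (2 * (P.R : ℝ) + 1) * ‖u‖ ≤ P.K * ‖w + n • u‖ := by
        rw [div_lt_iff₀ hK0] at hy; linarith
      have hK1 : (2 * (P.R : ℝ) + 1) * ‖u‖ ≤ 1 := by
        have : 1 / P.K ≤ 1 := by rw [div_le_one hK0]; linarith
        linarith
      have h2 : ((2 * (P.R : ℝ) + 1) * ‖u‖) ^ P.s ≤ q P (w + n • u) :=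
        Real.rpow_le_rpow (by positivity) (le_min hKy hK1) P.hs.le
      refine le_trans ?_ h2
      have h3 : (2 * (P.R : ℝ) + 1) * ‖u‖ = ((2 * (P.R : ℝ) + 1) / P.K) * (P.K * ‖u‖) := by
        field_simp
      rw [h3, Real.mul_rpow (by positivity) (by positivity), hqu]
      exact mul_le_mul_of_nonneg_right P.hR4 (Real.rpow_nonneg (by positivity) _)

end Pool.Agent.MP_2ab1ce_al.TR.P_b23

namespace Pool.Agent.MP_2ab1ce_al.TR

open Finset MP2ab1ce

/-- PIECE b23. -/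
theorem p_b23 (hq : S_q) (hbad : S_bad) : S_b23 := by
  intro P u w hu
  obtain ⟨h0, h1, hz, _, _, _⟩ := hq P
  have hqu : 0 < q P u := lt_of_le_of_ne (h0 u) (fun h => hu ((hz u).mp h.symm))
  have hK := P.hK
  have hK0 : (0 : ℝ) < P.K := by linarith
  have h8K : 8 / P.K ≤ 8 / 1000000 := div_le_div_of_nonneg_left (by norm_num) (by norm_num) hK
  have h8K0 : 0 ≤ 8 / P.K := by positivity
  have hX : 0 < (q P u)⁻¹ := inv_pos.mpr hqu
  constructor
  · intro hsmall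
    have hlt : q P u < 1 := lt_of_le_of_lt hsmall (by norm_num)
    obtain ⟨B, hB, hgood⟩ := P_b23.common hq hbad P u w hu hlt
    have hXl : (21 / 20 : ℝ) ^ 5 ≤ (q P u)⁻¹ := by
      rw [le_inv_comm₀ (by norm_num) hqu]
      refine hsmall.trans (le_of_eq ?_)
      norm_num
    have hav := P_b23.avg_le P
      (fun n => (max (q P u) ((21 / 20 : ℝ) * q P (w + n • u)))⁻¹) B (q P u)⁻¹
      (3 / 4 * (q P u)⁻¹) hX.le (by positivity) hB
      (fun n => inv_anti₀ hqu (le_max_left _ _)) (fun n hn hnB => ?_)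
    · refine hav.trans ?_
      nlinarith [mul_le_mul_of_nonneg_right h8K hX.le]
    · rcases hgood n hn hnB with hc | hc
      · have hpos : 0 < q P (w + n • u) := lt_of_lt_of_le (by norm_num) hc
        have h2 : (max (q P u) ((21 / 20 : ℝ) * q P (w + n • u)))⁻¹ ≤
            ((21 / 20 : ℝ) * (1 + 1 / 10000 : ℝ)⁻¹)⁻¹ :=
          inv_anti₀ (by norm_num)
            ((mul_le_mul_of_nonneg_left hc (by norm_num)).trans (le_max_right _ _))
        refine h2.trans ?_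
        norm_num at hXl ⊢
        linarith
      · have h2 : (max (q P u) ((21 / 20 : ℝ) * q P (w + n • u)))⁻¹ ≤
            (400 * q P u)⁻¹ := by
          refine inv_anti₀ (by positivity) ?_
          refine le_trans ?_ (le_max_right _ _)
          have := h0 (w + n • u)
          linarith
        refine h2.trans ?_
        rw [mul_inv]
        nlinarith
  · intro hsmall
    have hlt : q P u < 1 := lt_of_le_of_lt hsmall (by norm_num)
    obtain ⟨B, hB, hgood⟩ := P_b23.common hq hbad P u w hu hlt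
    have hXl : (400 : ℝ) ≤ (q P u)⁻¹ := by
      rw [le_inv_comm₀ (by norm_num) hqu]
      refine hsmall.trans (le_of_eq ?_)
      norm_num
    have hav := P_b23.avg_le P
      (fun n => (max (q P (w + n • u)) ((20 / 21 : ℝ) * q P u))⁻¹) B (21 / 20 * (q P u)⁻¹)
      ((1 + 1 / 10000) / 400 * (q P u)⁻¹) (by positivity) (by positivity) hB
      (fun n => ?_) (fun n hn hnB => ?_)
    · refine hav.trans ?_
      nlinarith [mul_le_mul_of_nonneg_right h8K hX.le]
    · have h2 : (max (q P (w + n • u)) ((20 / 21 : ℝ) * q P u))⁻¹ ≤ ((20 / 21 : ℝ) * q P u)⁻¹ :=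
        inv_anti₀ (by positivity) (le_max_right _ _)
      refine h2.trans (le_of_eq ?_)
      rw [mul_inv]; norm_num
    · rcases hgood n hn hnB with hc | hc
      · have h2 : (max (q P (w + n • u)) ((20 / 21 : ℝ) * q P u))⁻¹ ≤
            ((1 + 1 / 10000 : ℝ)⁻¹)⁻¹ :=
          inv_anti₀ (by norm_num) (hc.trans (le_max_left _ _))
        refine h2.trans ?_
        rw [inv_inv]
        nlinarith
      · have h2 : (max (q P (w + n • u)) ((20 / 21 : ℝ) * q P u))⁻¹ ≤ (400 * q P u)⁻¹ :=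
          inv_anti₀ (by positivity) (hc.trans (le_max_left _ _))
        refine h2.trans ?_
        rw [mul_inv]
        nlinarith

end Pool.Agent.MP_2ab1ce_al.TR
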