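import Mathlib
import Pool.Agent.Lib.MP_2ab1ce_al.TR.Stm

/-!
# Project TR (MP_2ab1ce_al): piece bad
-/

set_option autoImplicit false

namespace Pool.Agent.MP_2ab1ce_al.TR

open Finset MP2ab1ce

namespace P_bad

theorem part1 (hcnt : S_cnt) (P : Par) (u w : UnitAddCircle) (y : ℝ) (hu : u ≠ 0)
    (hKu : P.K * ‖u‖ ≤ 1) (hy0 : 0 ≤ y) (hy1 : y ≤ 1 / P.K ^ 2)
    (hKy : P.K * y ≤ (2 * (P.R : ℝ) + 1) * ‖u‖) :
    (((Icc (-(P.R : ℤ)) (P.R : ℤ)).filter (fun n : ℤ => ‖w + n • u‖ ≤ y)).card : ℝ) ≤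
      8 / P.K * (2 * (P.R : ℝ) + 1) := by
  have hK := P.hK
  have hK0 : 0 < P.K := by linarith
  have hR := P.hR
  have hν : 0 < ‖u‖ := norm_pos_iff.2 hu
  have hR0 : (0 : ℝ) ≤ P.R := Nat.cast_nonneg _
  have hy1' : y * P.K ^ 2 ≤ 1 := by
    rw [le_div_iff₀ (by positivity)] at hy1
    exact hy1
  have hK2 : (2 : ℝ) ≤ P.K ^ 2 := by nlinarith
  have hy2 : y ≤ 1 / 2 := by nlinarith
  refine le_trans (hcnt w u P.R y hu hy0 hy2) ?_
  have e : (2 * (P.R : ℝ) * ‖u‖ + 2) * (2 * y / ‖u‖ + 1) =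
      4 * P.R * y + 2 * P.R * ‖u‖ + 4 * (y / ‖u‖) + 2 := by
    field_simp
    ring
  rw [e]
  set M : ℝ := 2 * (P.R : ℝ) + 1 with hM
  have hM0 : 0 < M := by positivity
  have h1 : 4 * (P.R : ℝ) * y ≤ 2 * (M / P.K) := by
    have h11 : y ≤ 1 / P.K := by
      rw [le_div_iff₀ hK0]
      nlinarith
    have h12 : 4 * (P.R : ℝ) ≤ 2 * M := by rw [hM]; linarith
    calc 4 * (P.R : ℝ) * y ≤ 2 * M * y := mul_le_mul_of_nonneg_right h12 hy0
      _ ≤ 2 * M * (1 / P.K) := mul_le_mul_of_nonneg_left h11 (by positivity)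
      _ = 2 * (M / P.K) := by ring
  have h2 : 2 * (P.R : ℝ) * ‖u‖ ≤ M / P.K := by
    have h21 : ‖u‖ ≤ 1 / P.K := by
      rw [le_div_iff₀ hK0]
      linarith
    have h22 : 2 * (P.R : ℝ) ≤ M := by rw [hM]; linarith
    calc 2 * (P.R : ℝ) * ‖u‖ ≤ M * ‖u‖ := mul_le_mul_of_nonneg_right h22 hν.le
      _ ≤ M * (1 / P.K) := mul_le_mul_of_nonneg_left h21 hM0.le
      _ = M / P.K := by ring
  have h3 : y / ‖u‖ ≤ M / P.K := by
    rw [div_le_div_iff₀ hν hK0]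
    linarith
  have h4 : 2 ≤ M / P.K := by
    rw [le_div_iff₀ hK0]
    exact hR
  have h5 : 8 / P.K * M = 8 * (M / P.K) := by ring
  rw [h5]
  linarith

theorem part2 (P : Par) (u w : UnitAddCircle) (y : ℝ) (h : 2 * y ≤ ‖u‖) :
    ((Icc (-(P.R : ℤ)) (P.R : ℤ)).filter (fun n : ℤ => ‖w + n • u‖ < y)).card ≤ P.R + 1 := by
  classical
  set A : Finset ℤ := (Icc (-(P.R : ℤ)) (P.R : ℤ)).filter (fun n : ℤ => ‖w + n • u‖ < y) with hA
  let B : Finset ℤ := A.map (addRightEmbedding 1)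
  have hdis : Disjoint A B := by
    rw [Finset.disjoint_left]
    intro n hn hnB
    obtain ⟨m, hm, hmn⟩ := Finset.mem_map.1 hnB
    have hmn' : m + 1 = n := hmn
    subst hmn'
    have h1 : ‖w + (m + 1) • u‖ < y := (Finset.mem_filter.1 hn).2
    have h2 : ‖w + m • u‖ < y := (Finset.mem_filter.1 hm).2
    have h3 : u = (w + (m + 1) • u) - (w + m • u) := by
      rw [add_smul, one_smul]; abel
    have h4 : ‖u‖ ≤ ‖w + (m + 1) • u‖ + ‖w + m • u‖ := by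
      conv_lhs => rw [h3]
      exact norm_sub_le _ _
    linarith
  have hsub : A ∪ B ⊆ Icc (-(P.R : ℤ)) ((P.R : ℤ) + 1) := by
    intro n hn
    rcases Finset.mem_union.1 hn with h1 | h1
    · have h2 := Finset.mem_Icc.1 (Finset.mem_filter.1 h1).1
      exact Finset.mem_Icc.2 ⟨h2.1, by linarith [h2.2]⟩
    · obtain ⟨m, hm, hmn⟩ := Finset.mem_map.1 h1
      have hmn' : m + 1 = n := hmn
      have h2 := Finset.mem_Icc.1 (Finset.mem_filter.1 hm).1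
      exact Finset.mem_Icc.2 ⟨by linarith [h2.1], by linarith [h2.2]⟩
  have hcard := Finset.card_le_card hsub
  rw [Finset.card_union_of_disjoint hdis, Finset.card_map, Int.card_Icc] at hcard
  omega

end P_bad

theorem p_bad (hcnt : S_cnt) : S_bad := by
  intro P u w y
  exact ⟨fun h1 h2 h3 h4 h5 => P_bad.part1 hcnt P u w y h1 h2 h3 h4 h5,
    fun h => P_bad.part2 P u w y h⟩

end Pool.Agent.MP_2ab1ce_al.TR
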