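import Mathlib
import Pool.Agent.Lib.MP_2ab1ce_al.TR.Stm

/-!
# Project TR (MP_2ab1ce_al), piece cnt: counting `n` with `u + n v` close to `0`
-/

set_option autoImplicit false

namespace Pool.Agent.MP_2ab1ce_al.TR

open Finset MP2ab1ce

namespace P_cnt

/-- a finite set of integers in a real interval -/
theorem card_le (A : Finset ℤ) (a b : ℝ) (hab : a ≤ b) (h : ∀ n ∈ A, a ≤ (n : ℝ) ∧ (n : ℝ) ≤ b) :
    (A.card : ℝ) ≤ b - a + 1 := by
  have h1 : A ⊆ Icc ⌈a⌉ ⌊b⌋ := by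
    intro n hn
    rw [mem_Icc]
    exact ⟨Int.ceil_le.2 (h n hn).1, Int.le_floor.2 (h n hn).2⟩
  have h2 := card_le_card h1
  rw [Int.card_Icc] at h2
  have h3 : (A.card : ℝ) ≤ ((⌊b⌋ + 1 - ⌈a⌉).toNat : ℝ) := by exact_mod_cast h2
  refine h3.trans ?_
  rcases le_total 0 (⌊b⌋ + 1 - ⌈a⌉) with h0 | h0
  · have h4 : (((⌊b⌋ + 1 - ⌈a⌉).toNat : ℤ) : ℝ) = ((⌊b⌋ + 1 - ⌈a⌉ : ℤ) : ℝ) := by
      rw [Int.toNat_of_nonneg h0]
    have h5 : ((⌊b⌋ + 1 - ⌈a⌉).toNat : ℝ) = (⌊b⌋ : ℝ) + 1 - (⌈a⌉ : ℝ) := by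
      rw [← Int.cast_natCast, h4]
      push_cast
      ring
    rw [h5]
    linarith [Int.floor_le b, Int.le_ceil a]
  · rw [Int.toNat_of_nonpos h0]
    simp only [Nat.cast_zero]
    linarith

end P_cnt

theorem p_cnt : S_cnt := by
  intro u v R y hv hy0 hy1
  obtain ⟨μ, rfl⟩ := QuotientAddGroup.mk_surjective u
  obtain ⟨x, hx⟩ := QuotientAddGroup.mk_surjective v
  set ν' : ℝ := x - round x with hν'
  have hxv : ((x : ℝ) : UnitAddCircle) = v := hx
  have hv' : ((ν' : ℝ) : UnitAddCircle) = v := by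
    rw [← hxv, hν']
    have h1 : ((round x : ℝ) : UnitAddCircle) = 0 := by
      rw [AddCircle.coe_eq_zero_iff]
      exact ⟨round x, by simp⟩
    rw [AddCircle.coe_sub, h1, sub_zero]
  have hnorm : ‖v‖ = |ν'| := by
    rw [← hxv, UnitAddCircle.norm_eq]
  set ν : ℝ := ‖v‖ with hν
  have hνpos : 0 < ν := norm_pos_iff.2 hv
  have hν0 : ν' ≠ 0 := by
    intro h0
    rw [hnorm, h0, abs_zero] at hνpos
    exact lt_irrefl _ hνpos
  set A := (Icc (-(R : ℤ)) (R : ℤ)).filter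
    (fun n : ℤ => ‖((μ : ℝ) : UnitAddCircle) + n • v‖ ≤ y) with hA
  let f : ℤ → ℤ := fun n => round (μ + n * ν')
  have hmem : ∀ n ∈ A, |(n : ℝ)| ≤ R ∧ |μ + n * ν' - f n| ≤ y := by
    intro n hn
    rw [hA, mem_filter, mem_Icc] at hn
    obtain ⟨⟨h1, h2⟩, h3⟩ := hn
    refine ⟨?_, ?_⟩
    · rw [abs_le]
      constructor
      · exact_mod_cast h1
      · exact_mod_cast h2
    · have h4 : ((μ : ℝ) : UnitAddCircle) + n • v = ((μ + n * ν' : ℝ) : UnitAddCircle) := by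
        rw [AddCircle.coe_add, ← zsmul_eq_mul, AddCircle.coe_zsmul, hv']
      rw [h4, UnitAddCircle.norm_eq] at h3
      exact h3
  have hfib : ∀ m ∈ A.image f, (A.filter (fun n => f n = m)).card ≤ ⌊2 * y / ν + 1⌋₊ := by
    intro m _
    apply Nat.le_floor
    have h1 := P_cnt.card_le (A.filter (fun n => f n = m)) ((m - μ) / ν' - y / ν)
      ((m - μ) / ν' + y / ν) (by
        have : 0 ≤ y / ν := by positivity
        linarith) (by
        intro n hn
        rw [mem_filter] at hn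
        have h2 := (hmem n hn.1).2
        rw [hn.2] at h2
        have h3 : |(n : ℝ) - (m - μ) / ν'| ≤ y / ν := by
          have h4 : (n : ℝ) - (m - μ) / ν' = (μ + n * ν' - m) / ν' := by
            field_simp
            ring
          rw [h4, abs_div, hnorm]
          exact div_le_div_of_nonneg_right h2 (abs_nonneg _)
        rw [abs_le] at h3
        constructor <;> linarith [h3.1, h3.2])
    refine h1.trans (le_of_eq ?_)
    ring
  have himg : ((A.image f).card : ℝ) ≤ 2 * R * ν + 2 := by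
    have hR : (0 : ℝ) ≤ R := Nat.cast_nonneg R
    have h1 := P_cnt.card_le (A.image f) (μ - R * ν - y) (μ + R * ν + y) (by
        have : 0 ≤ R * ν := by positivity
        linarith) (by
        intro m hm
        rw [mem_image] at hm
        obtain ⟨n, hn, rfl⟩ := hm
        obtain ⟨h2, h3⟩ := hmem n hn
        have h4 : |(n : ℝ) * ν'| ≤ R * ν := by
          rw [abs_mul, hnorm]
          exact mul_le_mul_of_nonneg_right h2 (abs_nonneg _)
        rw [abs_le] at h3 h4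
        constructor <;> linarith [h3.1, h3.2, h4.1, h4.2])
    linarith
  have h1 : A.card ≤ ⌊2 * y / ν + 1⌋₊ * (A.image f).card :=
    card_le_mul_card_image A _ hfib
  have h2 : (A.card : ℝ) ≤ (⌊2 * y / ν + 1⌋₊ : ℝ) * (A.image f).card := by exact_mod_cast h1
  have h3 : (⌊2 * y / ν + 1⌋₊ : ℝ) ≤ 2 * y / ν + 1 := Nat.floor_le (by positivity)
  calc (A.card : ℝ) ≤ (⌊2 * y / ν + 1⌋₊ : ℝ) * (A.image f).card := h2
    _ ≤ (2 * y / ν + 1) * (2 * R * ν + 2) :=
        mul_le_mul h3 himg (by positivity) (by positivity)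
    _ = (2 * R * ν + 2) * (2 * y / ν + 1) := by ring

end Pool.Agent.MP_2ab1ce_al.TR
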