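import Mathlib
import Pool.Agent.Lib.MP_2ab1ce_al.TR.Stm

/-!
# Project TR (MP_2ab1ce_al): piece `dig`, growth along a digraph
-/

set_option autoImplicit false

namespace Pool.Agent.MP_2ab1ce_al.TR.P_dig

open Finset

open Classical in
/-- the vertices reached from `x` in at most `m + 1` steps without returning to `x` -/
private noncomputable def P {n : ℕ} (E : Fin n → Fin n → Prop) (x : Fin n) : ℕ → Finset (Fin n)
  | 0 => univ.filter fun y => E x y
  | m + 1 => P E x m ∪ univ.filter fun t => t ≠ x ∧ ∃ s ∈ P E x m, E s t

variable {n : ℕ} {E : Fin n → Fin n → Prop} {x : Fin n}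

private theorem mem_zero {y : Fin n} : y ∈ P E x 0 ↔ E x y := by
  classical
  unfold P
  rw [mem_filter]
  exact ⟨fun h => h.2, fun h => ⟨mem_univ _, h⟩⟩

private theorem mem_succ {m : ℕ} {y : Fin n} :
    y ∈ P E x (m + 1) ↔ y ∈ P E x m ∨ (y ≠ x ∧ ∃ s ∈ P E x m, E s y) := by
  classical
  conv_lhs => unfold P
  rw [mem_union, mem_filter]
  simp

private theorem subset_succ (m : ℕ) : P E x m ⊆ P E x (m + 1) :=
  fun _ hy => mem_succ.mpr (Or.inl hy)

private theorem subset_of_le {m m' : ℕ} (h : m ≤ m') : P E x m ⊆ P E x m' := by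
  induction h with
  | refl => exact Subset.rfl
  | step _ ih => exact ih.trans (subset_succ _)

private theorem notMem (hE : ∀ x y, E x y → x ≠ y) (m : ℕ) : x ∉ P E x m := by
  induction m with
  | zero =>
    intro h
    exact hE x x (mem_zero.mp h) rfl
  | succ m ih =>
    intro h
    rcases mem_succ.mp h with h | h
    · exact ih h
    · exact h.1 rfl

private theorem stable {m : ℕ} (h : P E x m = P E x (m + 1)) (k : ℕ) :
    P E x (m + k) = P E x (m + k + 1) := by
  induction k with
  | zero => exact h
  | succ k ih =>
    ext y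
    constructor
    · intro hy
      exact subset_succ _ hy
    · intro hy
      rcases mem_succ.mp hy with hy | ⟨h1, s, hs, hsy⟩
      · exact hy
      · have hs' : s ∈ P E x (m + k) := by
          rw [ih]
          exact hs
        exact mem_succ.mpr (Or.inr ⟨h1, s, hs', hsy⟩)

private theorem closed (hE : ∀ x y, E x y → x ≠ y) : P E x n = P E x (n + 1) := by
  by_contra hcon
  have h1 : ∀ m ≤ n, P E x m ≠ P E x (m + 1) := by
    intro m hm h
    obtain ⟨k, rfl⟩ := Nat.exists_eq_add_of_le hm
    exact hcon (stable h k)
  have h2 : ∀ m ≤ n, m ≤ (P E x m).card := by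
    intro m
    induction m with
    | zero => intro _; exact Nat.zero_le _
    | succ m ih =>
      intro hm
      have h3 := ih (by omega)
      have h4 : (P E x m).card < (P E x (m + 1)).card :=
        card_lt_card ((subset_succ m).ssubset_of_ne (h1 m (by omega)))
      omega
  have h5 : P E x n = univ := by
    rw [← card_eq_iff_eq_univ, Fintype.card_fin]
    refine le_antisymm ?_ (h2 n le_rfl)
    have := card_le_univ (P E x n)
    rwa [Fintype.card_fin] at this
  exact notMem hE n (by rw [h5]; exact mem_univ x)

end Pool.Agent.MP_2ab1ce_al.TR.P_dig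

namespace Pool.Agent.MP_2ab1ce_al.TR

theorem p_dig : S_dig := by
  intro n E W hE h0 hW hstep x y hxy hpath
  have hW' : ∀ m, ∀ y ∈ P_dig.P E x m, W m x y := by
    intro m
    induction m with
    | zero =>
      intro y hy
      exact h0 x y (P_dig.mem_zero.mp hy)
    | succ m ih =>
      intro y hy
      rcases P_dig.mem_succ.mp hy with hy | ⟨h1, s, hs, hsy⟩
      · exact hW m x y (ih y hy)
      · refine hstep m x s y ?_ (hE s y hsy) (Ne.symm h1) (ih s hs) hsy
        intro h
        rw [← h] at hs
        exact P_dig.notMem hE m hs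
  have hreach : ∀ z, Relation.ReflTransGen E x z → z = x ∨ z ∈ P_dig.P E x n := by
    intro z hz
    induction hz with
    | refl => exact Or.inl rfl
    | @tail b c _ hbc ih =>
      by_cases hc : c = x
      · exact Or.inl hc
      · right
        rcases ih with h | h
        · rw [h] at hbc
          exact P_dig.subset_of_le (Nat.zero_le n) (P_dig.mem_zero.mpr hbc)
        · rw [P_dig.closed hE]
          exact P_dig.mem_succ.mpr (Or.inr ⟨hc, b, h, hbc⟩)
  rcases hreach y hpath with h | h
  · exact absurd h.symm hxy
  · exact hW' n y h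

end Pool.Agent.MP_2ab1ce_al.TR
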