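import Mathlib
import Pool.Agent.Lib.MP_2ab1ce_al.TR.Stm

/-!
# Project TR (MP_2ab1ce_al), piece el: elementary matrices in a frame
-/

namespace Pool.Agent.MP_2ab1ce_al.TR

open Finset MP2ab1ce

namespace P_el

open Matrix

variable {n p : ℕ} [Fact p.Prime] (h : GL (Fin n) (ZMod p))

theorem inv_mul_self' : ((h⁻¹ : GL (Fin n) (ZMod p)) : Matrix (Fin n) (Fin n) (ZMod p)) *
    (h : Matrix (Fin n) (Fin n) (ZMod p)) = 1 := by
  rw [← Units.val_mul, inv_mul_cancel, Units.val_one]

theorem mul_inv_self' : (h : Matrix (Fin n) (Fin n) (ZMod p)) *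
    ((h⁻¹ : GL (Fin n) (ZMod p)) : Matrix (Fin n) (Fin n) (ZMod p)) = 1 := by
  rw [← Units.val_mul, mul_inv_cancel, Units.val_one]

theorem fv_apply (y : Fin n) (x : Fin n → ZMod p) :
    fv h y x = (((h⁻¹ : GL (Fin n) (ZMod p)) : Matrix (Fin n) (Fin n) (ZMod p)) *ᵥ x) y := rfl

theorem fv_bv (x y : Fin n) : fv h y (bv h x) = if y = x then 1 else 0 := by
  rw [fv_apply, bv, Matrix.mulVec_mulVec, inv_mul_self', Matrix.one_mulVec, Pi.single_apply]

theorem el_mulVec (x y : Fin n) (hxy : x ≠ y) (a : ZMod p) (v : Fin n → ZMod p) :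
    ((el h x y a : SpecialLinearGroup (Fin n) (ZMod p)) : Matrix (Fin n) (Fin n) (ZMod p)) *ᵥ v =
      v + fv h y v • (a • bv h x) := by
  have h0 : fv h y (a • bv h x) = 0 := by
    rw [map_smul, fv_bv, if_neg (Ne.symm hxy), smul_zero]
  exact TT_spec (a • bv h x) (fv h y) h0 v

end P_el

open Matrix P_el in
theorem p_el : S_el := by
  intro n p _ h
  have hρ : Function.Injective (rho n (ZMod p)) := rho_injective n (ZMod p)
  have hT : ∀ (u : Fin n → ZMod p) (φ : Module.Dual (ZMod p) (Fin n → ZMod p)), φ u = 0 →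
    ∀ x, rho n (ZMod p) (TT u φ) x = x + φ x • u := fun u φ h x => TT_spec u φ h x
  refine ⟨fun x y => fv_bv h x y, ?_, ?_⟩
  · intro x y hxy a
    apply Matrix.toLin'.injective
    refine LinearMap.ext fun v => ?_
    rw [Matrix.toLin'_apply, Matrix.toLin'_apply, el_mulVec h x y hxy a v]
    simp only [transvection]
    rw [Matrix.mul_add, Matrix.add_mul, Matrix.mul_one, mul_inv_self', Matrix.add_mulVec,
      Matrix.one_mulVec]
    congr 1
    rw [← Matrix.mulVec_mulVec, ← Matrix.mulVec_mulVec, fv_apply]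
    have h1 : ∀ w : Fin n → ZMod p, (Matrix.single x y a) *ᵥ w =
        (w y * a) • (Pi.single x 1 : Fin n → ZMod p) := by
      intro w
      ext r
      rw [Matrix.single_mulVec, Pi.smul_apply, Pi.single_apply, Function.update_apply]
      by_cases hr : r = x
      · simp [hr, mul_comm]
      · simp [hr]
    rw [h1, Matrix.mulVec_smul, smul_smul]
    rfl
  · intro r s t hrs hst hrt l m
    have e1 : fv h s (l • bv h r) = 0 := by
      rw [map_smul, fv_bv, if_neg (Ne.symm hrs), smul_zero]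
    have e2 : fv h t (l • bv h r) = 0 := by
      rw [map_smul, fv_bv, if_neg (Ne.symm hrt), smul_zero]
    have e3 : fv h t (m • bv h s) = 0 := by
      rw [map_smul, fv_bv, if_neg (Ne.symm hst), smul_zero]
    have e := T_comm' (rho n (ZMod p)) hρ TT hT (l • bv h r) (m • bv h s) (fv h t) (fv h s)
      e1 e2 e3
    have e4 : fv h s (m • bv h s) = m := by
      rw [map_smul, fv_bv, if_pos rfl, smul_eq_mul, mul_one]
    rw [e4, smul_smul, mul_comm m l] at e
    exact e

end Pool.Agent.MP_2ab1ce_al.TR
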