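import Mathlib
import Pool.Agent.Lib.MP_2ab1ce_al.TR.Stm

namespace Pool.Agent.MP_2ab1ce_al.TR

open Finset MP2ab1ce Matrix

namespace P_fin

variable {G : Type} [Group G] [Fintype G] [DecidableEq G] (v : EuclideanSpace ℂ G)

omit [DecidableEq G] in
theorem kappa_one : ‖piG (1 : G) v - v‖ = 0 := by
  simp only [piG_one]
  simp

omit [DecidableEq G] in
theorem kappa_mul (g h : G) : ‖piG (g * h) v - v‖ ≤ ‖piG g v - v‖ + ‖piG h v - v‖ := by
  simp only [piG_mul]
  have e : (piG g * piG h) v - v = piG g (piG h v - v) + (piG g v - v) := by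
    rw [map_sub, LinearIsometryEquiv.coe_mul, Function.comp_apply]
    abel
  rw [e]
  refine (norm_add_le _ _).trans ?_
  rw [LinearIsometryEquiv.norm_map, add_comm]

omit [DecidableEq G] in
theorem kappa_inv (g : G) : ‖piG g⁻¹ v - v‖ = ‖piG g v - v‖ := by
  have e : piG g (piG g⁻¹ v - v) = -(piG g v - v) := by
    rw [map_sub, ← Function.comp_apply (f := piG g) (g := piG g⁻¹),
      ← LinearIsometryEquiv.coe_mul, ← piG_mul, mul_inv_cancel, piG_one]
    simp
  rw [← LinearIsometryEquiv.norm_map (piG g) (piG g⁻¹ v - v), e, norm_neg]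

omit [DecidableEq G] in
theorem kappa_comm (x y : G) : ‖piG (x * y * x⁻¹ * y⁻¹) v - v‖ ≤
    2 * ‖piG x v - v‖ + 2 * ‖piG y v - v‖ := by
  have h1 := kappa_mul v (x * y * x⁻¹) y⁻¹
  have h2 := kappa_mul v (x * y) x⁻¹
  have h3 := kappa_mul v x y
  rw [kappa_inv] at h1 h2
  linarith

end P_fin

open P_fin in
theorem p_fin (hrel : S_rel) (hel : S_el) (hgrp : S_grp) (hdig : S_dig) : S_fin := by
  classical
  intro n
  obtain ⟨C, hC, hRC⟩ := hrel
  set A : ℝ := 3 * n * ((5 * n + 2) * ((20 * n + 8) ^ n * (1 + 34 * C * 4 ^ n))) + 1 with hA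
  have hA1 : 1 ≤ A := by
    rw [hA]
    have : (0 : ℝ) ≤ 3 * n * ((5 * n + 2) * ((20 * n + 8) ^ n * (1 + 34 * C * 4 ^ n))) := by
      positivity
    linarith
  have hA0 : 0 < A := by linarith
  refine ⟨1 / (8 * A ^ 2), by positivity, ?_⟩
  intro N p _ hN S hSinv hS h E a hE I hI hconn Y hY
  have hN0 : (0 : ℝ) < N := by exact_mod_cast hN
  have hN1 : (1 : ℝ) ≤ N := by exact_mod_cast hN
  set δ : ℝ := 1 / (2 * A * N) with hδdef
  have hδ : 0 < δ := by rw [hδdef]; positivity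
  have hδ2 : 1 / (8 * A ^ 2) / (N : ℝ) ^ 2 = δ ^ 2 / 2 := by
    rw [hδdef]
    field_simp
    norm_num
  rw [hδ2]
  change _ ≤ ((edgeBoundary S Y).card : ℝ)
  rcases Y.eq_empty_or_nonempty with rfl | hne
  · simp
  have hYpos : (0 : ℝ) < Y.card := by exact_mod_cast hne.card_pos
  by_contra hcon
  push Not at hcon
  -- the unit vector
  have hnorm : ‖indv Y‖ ^ 2 = Y.card := norm_indv Y
  have hn0 : 0 < ‖indv Y‖ := by
    rcases (norm_nonneg (indv Y)).lt_or_eq with h | h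
    · exact h
    · rw [← h] at hnorm
      norm_num at hnorm
      rw [← hnorm] at hYpos
      norm_num at hYpos
  set r : ℝ := ‖indv Y‖⁻¹ with hr
  have hr0 : 0 < r := inv_pos.2 hn0
  set v : EuclideanSpace ℂ (SpecialLinearGroup (Fin n) (ZMod p)) :=
    (r : ℂ) • indv Y with hv
  have hv1 : ‖v‖ = 1 := by
    rw [hv, norm_smul, Complex.norm_real, Real.norm_eq_abs, abs_of_pos hr0, hr]
    exact inv_mul_cancel₀ hn0.ne'
  have hmove : ∀ g, ‖piG g v - v‖ = r * ‖piG g (indv Y) - indv Y‖ := by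
    intro g
    rw [hv, map_smul, ← smul_sub, norm_smul, Complex.norm_real, Real.norm_eq_abs,
      abs_of_pos hr0]
  have hr2 : r ^ 2 * Y.card = 1 := by
    rw [← hnorm, ← mul_pow, hr, inv_mul_cancel₀ hn0.ne', one_pow]
  have hvS : ∀ s ∈ S, ‖piG s v - v‖ ≤ δ := by
    intro s hs
    rw [hmove]
    apply abs_le_of_sq_le_sq' _ hδ.le |>.2
    have h1 := near_inv S hSinv Y s hs
    calc (r * ‖piG s (indv Y) - indv Y‖) ^ 2 = r ^ 2 * ‖piG s (indv Y) - indv Y‖ ^ 2 := by ring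
      _ ≤ r ^ 2 * (2 * (edgeBoundary S Y).card) := mul_le_mul_of_nonneg_left h1 (by positivity)
      _ ≤ r ^ 2 * (2 * (δ ^ 2 / 2 * Y.card)) :=
        mul_le_mul_of_nonneg_left (by linarith) (by positivity)
      _ = δ ^ 2 * (r ^ 2 * Y.card) := by ring
      _ = δ ^ 2 := by rw [hr2, mul_one]
  obtain ⟨g, hg⟩ := exists_far Y hY
  have hg1 : 1 ≤ ‖piG g v - v‖ := by
    rw [hmove]
    have h1 : 1 ≤ (r * ‖piG g (indv Y) - indv Y‖) ^ 2 := by
      calc (1 : ℝ) = r ^ 2 * Y.card := hr2.symm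
        _ ≤ r ^ 2 * ‖piG g (indv Y) - indv Y‖ ^ 2 :=
          mul_le_mul_of_nonneg_left hg (by positivity)
        _ = _ := by ring
    by_contra hlt1
    push Not at hlt1
    have h0 : 0 ≤ r * ‖piG g (indv Y) - indv Y‖ := by positivity
    nlinarith
  -- the elementary matrices of the digraph
  obtain ⟨-, hmat, hcom⟩ := hel n p h
  set κ : SpecialLinearGroup (Fin n) (ZMod p) → ℝ := fun g => ‖piG g v - v‖ with hκ
  have κ1 : κ 1 = 0 := kappa_one v
  have κmul : ∀ g h, κ (g * h) ≤ κ g + κ h := kappa_mul v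
  have hedge : ∀ x y, E x y → κ (el h x y (a x y)) ≤ N * δ := by
    intro x y hxy
    obtain ⟨hne', -, l, hl1, hl2, hl3⟩ := hE x y hxy
    have e : el h x y (a x y) = l.prod := by
      apply Subtype.ext
      rw [hmat x y hne' (a x y)]
      exact hl3.symm
    rw [e]
    have h1 := word_bound κ κmul κ1 (S : Set (SpecialLinearGroup (Fin n) (ZMod p))) δ
      (fun s hs => hvS s (by simpa using hs)) l (fun x hx => by simpa using hl2 x hx)
    refine h1.trans (mul_le_mul_of_nonneg_right (by exact_mod_cast hl1) hδ.le)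
  have hNδ : 0 ≤ (N : ℝ) * δ := by positivity
  have hW : ∀ x ∈ I, ∀ y ∈ I, x ≠ y → ∃ l : ZMod p, l ≠ 0 ∧ κ (el h x y l) ≤ 4 ^ n * (N * δ) := by
    intro x hx y hy hxy
    refine hdig n E (fun m x y => ∃ l : ZMod p, l ≠ 0 ∧ κ (el h x y l) ≤ 4 ^ m * (N * δ))
      (fun x y hxy => (hE x y hxy).1) ?_ ?_ ?_ x y hxy (hconn x hx y hy)
    · intro x y hxy
      refine ⟨a x y, (hE x y hxy).2.1, ?_⟩
      rw [pow_zero, one_mul]
      exact hedge x y hxy
    · rintro m x y ⟨l, hl0, hl⟩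
      refine ⟨l, hl0, hl.trans ?_⟩
      apply mul_le_mul_of_nonneg_right _ hNδ
      exact pow_le_pow_right₀ (by norm_num) (Nat.le_succ m)
    · rintro m x y z hxy hyz hxz ⟨l, hl0, hl⟩ hEyz
      refine ⟨l * a y z, mul_ne_zero hl0 (hE y z hEyz).2.1, ?_⟩
      rw [hcom x y z hxy hyz hxz l (a y z)]
      have h1 := kappa_comm v (el h x y l) (el h y z (a y z))
      have h2 := hedge y z hEyz
      have h3 : (1 : ℝ) ≤ 4 ^ m := one_le_pow₀ (by norm_num)
      have h4 : (N : ℝ) * δ ≤ 4 ^ m * (N * δ) := le_mul_of_one_le_left hNδ h3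
      have h5 : (4 : ℝ) ^ (m + 1) * (N * δ) = 4 * (4 ^ m * (N * δ)) := by ring
      have h6 : κ (el h x y l * el h y z (a y z) * (el h x y l)⁻¹ * (el h y z (a y z))⁻¹) ≤
        2 * κ (el h x y l) + 2 * κ (el h y z (a y z)) := h1
      rw [h5]
      linarith
  obtain ⟨i, hi, j, hj, k, hk, hij, hik, hjk⟩ := Finset.two_lt_card.1 (show 2 < I.card by omega)
  obtain ⟨l1, hl1, b1⟩ := hW i hi j hj hij
  obtain ⟨l2, hl2, b2⟩ := hW j hj k hk hjk
  obtain ⟨l3, hl3, b3⟩ := hW k hk i hi hik.symm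
  have hfin := hgrp C hC hRC n p S hSinv hS h i j k hij hik hjk l1 l2 l3 hl1 hl2 hl3 v hv1 δ
    (4 ^ n * (N * δ)) hδ.le (by positivity) hvS b1 b2 b3 g
  have hlast : 3 * (n : ℝ) * ((5 * n + 2) * ((20 * n + 8) ^ n * (δ + 34 * C * (4 ^ n * (N * δ)))))
      ≤ 1 / 2 := by
    have hδN : δ ≤ N * δ := le_mul_of_one_le_left hδ.le hN1
    have h1 : δ + 34 * C * (4 ^ n * (N * δ)) ≤ (1 + 34 * C * 4 ^ n) * (N * δ) := by
      have : (1 + 34 * C * 4 ^ n) * (N * δ) = N * δ + 34 * C * (4 ^ n * (N * δ)) := by ring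
      rw [this]
      linarith
    calc 3 * (n : ℝ) * ((5 * n + 2) * ((20 * n + 8) ^ n * (δ + 34 * C * (4 ^ n * (N * δ)))))
        ≤ 3 * (n : ℝ) * ((5 * n + 2) * ((20 * n + 8) ^ n * ((1 + 34 * C * 4 ^ n) * (N * δ)))) := by
          gcongr
      _ = (A - 1) * (N * δ) := by rw [hA]; ring
      _ ≤ A * (N * δ) := by nlinarith
      _ = 1 / 2 := by
        rw [hδdef]
        field_simp
  have : (1 : ℝ) ≤ 1 / 2 := hg1.trans (hfin.trans hlast)
  norm_num at this

end Pool.Agent.MP_2ab1ce_al.TR
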