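import Mathlib
import Pool.Agent.Lib.MP_2ab1ce_al.TR.Stm

/-!
# Project TR (MP_2ab1ce_al): the piece `fp`
-/

set_option autoImplicit false

namespace Pool.Agent.MP_2ab1ce_al.TR

open Finset MP2ab1ce

namespace P_fp

theorem smul_eq (p : ℕ) [Fact p.Prime] (n : ℤ) (x : ZMod p) :
    n • (ZMod.toAddCircle x : UnitAddCircle) = ZMod.toAddCircle ((n : ZMod p) * x) := by
  rw [← map_zsmul, zsmul_eq_mul]

theorem cz_even (p : ℕ) [Fact p.Prime] (t : ZMod p) (ζ : ZMod p × ZMod p) (i : ℕ)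
    (hi : i % 2 = 0) : cz p t ζ i = ZMod.toAddCircle (t ^ (i / 2) * ζ.2) := by
  unfold cz
  rw [if_pos hi]

theorem cz_odd (p : ℕ) [Fact p.Prime] (t : ZMod p) (ζ : ZMod p × ZMod p) (i : ℕ)
    (hi : i % 2 = 1) : cz p t ζ i = ZMod.toAddCircle (t ^ (i / 2) * ζ.1) := by
  unfold cz
  rw [if_neg (by omega)]

theorem shB (p : ℕ) [Fact p.Prime] (t m : ZMod p) (ζ : ZMod p × ZMod p) (n : ℤ) (σ : ℕ)
    (hσ : σ % 2 = 1) (hm : ∀ i : ℕ, i % 2 = 0 → t ^ ((i + σ) / 2) = t ^ (i / 2) * m) :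
    cz p t (shearB ((n : ZMod p) * m) ζ) = E 0 σ n (cz p t ζ) := by
  funext i
  unfold E
  by_cases hi : i % 2 = 0
  · rw [if_pos hi, cz_even p t _ i hi, cz_even p t ζ i hi, cz_odd p t ζ (i + σ) (by omega),
      smul_eq, ← map_add, hm i hi]
    congr 1
    show t ^ (i / 2) * (ζ.2 + (n : ZMod p) * m * ζ.1) = _
    ring
  · rw [if_neg hi, cz_odd p t _ i (by omega), cz_odd p t ζ i (by omega)]
    rfl

theorem shA (p : ℕ) [Fact p.Prime] (t m : ZMod p) (ζ : ZMod p × ZMod p) (n : ℤ) (σ : ℕ)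
    (hσ : σ % 2 = 1) (hm : ∀ i : ℕ, i % 2 = 1 → t ^ ((i + σ) / 2) = t ^ (i / 2) * m) :
    cz p t (shearA ((n : ZMod p) * m) ζ) = E 1 σ n (cz p t ζ) := by
  funext i
  unfold E
  by_cases hi : i % 2 = 1
  · rw [if_pos hi, cz_odd p t _ i hi, cz_odd p t ζ i hi, cz_even p t ζ (i + σ) (by omega),
      smul_eq, ← map_add, hm i hi]
    congr 1
    show t ^ (i / 2) * (ζ.1 + (n : ZMod p) * m * ζ.2) = _
    ring
  · rw [if_neg hi, cz_even p t _ i (by omega), cz_even p t ζ i (by omega)]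
    rfl

end P_fp

open P_fp in
theorem p_fp (hq : S_q) (hQ : S_Q) : S_fp := by
  intro p _ t ζ
  refine ⟨?_, ?_, ?_, ?_, ?_⟩
  · intro P ht hζ
    classical
    obtain ⟨hq0, _, hqz, _⟩ := hq P
    obtain ⟨x0, hx0, hmin⟩ := exists_min_image (univ.filter (fun x : ZMod p => x ≠ 0))
      (fun x => q P (ZMod.toAddCircle x)) ⟨1, by simp⟩
    rw [mem_filter] at hx0
    have hδ : 0 < q P (ZMod.toAddCircle x0) := by
      apply lt_of_le_of_ne (hq0 _)
      intro h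
      have h1 := (hqz _).1 h.symm
      rw [ZMod.toAddCircle_eq_zero] at h1
      exact hx0.2 h1
    refine ⟨20 / 21 * q P (ZMod.toAddCircle x0), by positivity, fun i => ?_⟩
    have key : ∃ k, k ≤ 1 ∧ ∃ x : ZMod p, x ≠ 0 ∧ cz p t ζ (i + k) = ZMod.toAddCircle x := by
      have hpow : ∀ n, t ^ n ≠ 0 := fun n => pow_ne_zero n ht
      by_cases h2 : ζ.2 = 0
      · have h1 : ζ.1 ≠ 0 := fun h => hζ (Prod.ext h h2)
        rcases Nat.mod_two_eq_zero_or_one i with hi | hi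
        · exact ⟨1, le_refl _, _, mul_ne_zero (hpow _) h1, cz_odd p t ζ (i + 1) (by omega)⟩
        · exact ⟨0, by omega, _, mul_ne_zero (hpow _) h1, cz_odd p t ζ (i + 0) (by omega)⟩
      · rcases Nat.mod_two_eq_zero_or_one i with hi | hi
        · exact ⟨0, by omega, _, mul_ne_zero (hpow _) h2, cz_even p t ζ (i + 0) (by omega)⟩
        · exact ⟨1, le_refl _, _, mul_ne_zero (hpow _) h2, cz_even p t ζ (i + 1) (by omega)⟩
    obtain ⟨k, hk, x, hx, hcz⟩ := key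
    have h1 := (hQ P (cz p t ζ) i).2.2.1 k
    rw [hcz] at h1
    have h2 : q P (ZMod.toAddCircle x0) ≤ q P (ZMod.toAddCircle x) :=
      hmin x (mem_filter.2 ⟨mem_univ _, hx⟩)
    have h3 : (20 / 21 : ℝ) ≤ (20 / 21 : ℝ) ^ k := by
      interval_cases k <;> norm_num
    calc 20 / 21 * q P (ZMod.toAddCircle x0) ≤ (20 / 21 : ℝ) ^ k * q P (ZMod.toAddCircle x) :=
        mul_le_mul h3 h2 (hq0 _) (by positivity)
      _ ≤ _ := h1
  · intro n
    apply shB p t 1 ζ n 1 (by norm_num)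
    intro i hi
    rw [mul_one]
    congr 1
    omega
  · intro n
    apply shB p t t ζ n 3 (by norm_num)
    intro i hi
    rw [← pow_succ]
    congr 1
    omega
  · intro n
    apply shA p t t ζ n 1 (by norm_num)
    intro i hi
    rw [← pow_succ]
    congr 1
    omega
  · intro n
    apply shA p t (t ^ 2) ζ n 3 (by norm_num)
    intro i hi
    rw [← pow_add]
    congr 1
    omega

end Pool.Agent.MP_2ab1ce_al.TR
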