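import Mathlib
import Pool.Agent.Lib.MP_2ab1ce_al.TR.Stm

namespace Pool.Agent.MP_2ab1ce_al.TR

open Finset MP2ab1ce Matrix Module

namespace P_grp

variable {G : Type} [Group G] [Fintype G] [DecidableEq G] (v : EuclideanSpace ℂ G)

theorem kappa_one : ‖piG (1 : G) v - v‖ = 0 := by
  simp only [piG_one]
  simp

theorem kappa_mul (g h : G) : ‖piG (g * h) v - v‖ ≤ ‖piG g v - v‖ + ‖piG h v - v‖ := by
  simp only [piG_mul]
  have e : (piG g * piG h) v - v = piG g (piG h v - v) + (piG g v - v) := by
    rw [map_sub, LinearIsometryEquiv.coe_mul, Function.comp_apply]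
    abel
  rw [e]
  refine (norm_add_le _ _).trans ?_
  rw [LinearIsometryEquiv.norm_map, add_comm]

theorem kappa_inv (g : G) : ‖piG g⁻¹ v - v‖ = ‖piG g v - v‖ := by
  have e : piG g (piG g⁻¹ v - v) = -(piG g v - v) := by
    rw [map_sub, ← Function.comp_apply (f := piG g) (g := piG g⁻¹),
      ← LinearIsometryEquiv.coe_mul, ← piG_mul, mul_inv_cancel, piG_one]
    simp
  rw [← LinearIsometryEquiv.norm_map (piG g) (piG g⁻¹ v - v), e, norm_neg]

theorem kappa_comm (x y : G) : ‖piG (x * y * x⁻¹ * y⁻¹) v - v‖ ≤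
    2 * ‖piG x v - v‖ + 2 * ‖piG y v - v‖ := by
  have h1 := kappa_mul v (x * y * x⁻¹) y⁻¹
  have h2 := kappa_mul v (x * y) x⁻¹
  have h3 := kappa_mul v x y
  rw [kappa_inv] at h1 h2
  linarith

end P_grp

open P_grp in
theorem p_grp (hel : S_el) : S_grp := by
  classical
  intro C hC hRel n p _ S hSinv hS h i j k hij hik hjk a b c ha hb hc v hv δ d hδ hd hvS
    h1 h2 h3 g
  obtain ⟨ψb, -, hcom⟩ := hel n p h
  set κ : SpecialLinearGroup (Fin n) (ZMod p) → ℝ := fun g => ‖piG g v - v‖ with hκ
  have κ1 : κ 1 = 0 := kappa_one v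
  have κmul : ∀ g h, κ (g * h) ≤ κ g + κ h := kappa_mul v
  have κinv : ∀ g, κ g⁻¹ = κ g := kappa_inv v
  have hcomm : ∀ r s t : Fin n, r ≠ s → s ≠ t → r ≠ t → ∀ l m : ZMod p,
      κ (el h r t (l * m)) ≤ 2 * κ (el h r s l) + 2 * κ (el h s t m) := by
    intro r s t hrs hst hrt l m
    rw [hcom r s t hrs hst hrt l m]
    exact kappa_comm v _ _
  have k1 : κ (el h i j a) ≤ d := h1
  have k2 : κ (el h j k b) ≤ d := h2
  have k3 : κ (el h k i c) ≤ d := h3
  have c1 : κ (el h i k (a * b)) ≤ 4 * d := by
    have := hcomm i j k hij hjk hik a b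
    linarith
  have c2 : κ (el h k j (c * a)) ≤ 4 * d := by
    have := hcomm k i j hik.symm hij hjk.symm c a
    linarith
  have c3 : κ (el h j i (b * c)) ≤ 4 * d := by
    have := hcomm j k i hjk hik.symm hij.symm b c
    linarith
  have c4 : κ (el h i j (a * b * (c * a))) ≤ 16 * d := by
    have := hcomm i k j hik hjk.symm hij (a * b) (c * a)
    linarith
  have c5 : κ (el h j k (b * c * (a * b))) ≤ 16 * d := by
    have := hcomm j i k hij.symm hik hjk (b * c) (a * b)
    linarith
  have c6 : κ (el h j i (b * c * (a * b) * c)) ≤ 34 * d := by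
    have := hcomm j k i hjk hik.symm hij.symm (b * c * (a * b)) c
    linarith
  set t : ZMod p := a * b * c with ht
  have ht0 : t ≠ 0 := by
    rw [ht]
    exact mul_ne_zero (mul_ne_zero ha hb) hc
  set ρ := rho n (ZMod p) with hρdef
  have hρ : Function.Injective ρ := rho_injective n (ZMod p)
  have hT : ∀ (u : Fin n → ZMod p) (φ : Dual (ZMod p) (Fin n → ZMod p)), φ u = 0 →
    ∀ x, ρ (TT u φ) x = x + φ x • u := fun u φ h x => TT_spec u φ h x
  -- the plane
  set U : ZMod p × ZMod p →
      (EuclideanSpace ℂ (SpecialLinearGroup (Fin n) (ZMod p)) ≃ₗᵢ[ℂ]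
        EuclideanSpace ℂ (SpecialLinearGroup (Fin n) (ZMod p))) :=
    fun z => piG (TT ((z.1 * (a * b)) • bv h i + (z.2 * b) • bv h j) (fv h k)) with hU
  have hk0 : ∀ x y : ZMod p, fv h k (x • bv h i + y • bv h j) = 0 := by
    intro x y
    rw [map_add, map_smul, map_smul, ψb, ψb, if_neg hik.symm, if_neg hjk.symm]
    simp
  have hUadd : ∀ z z', U (z + z') = U z * U z' := by
    intro z z'
    simp only [hU]
    rw [← piG_mul, ← T_add ρ hρ TT hT _ _ _ (hk0 _ _) (hk0 _ _)]
    congr 2
    simp only [Prod.fst_add, Prod.snd_add, add_mul, add_smul]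
    abel
  -- conjugation by `e_ij(x)` and `e_ji(x)`
  have hconjA : ∀ x y : ZMod p, y * (a * b) = b * x → ∀ z w,
      U (z.1 + y * z.2, z.2) (piG (el h i j x) w) = piG (el h i j x) (U z w) := by
    intro x y hxy z w
    have := T_inter ρ hρ TT hT (el h i j x)
      ((z.1 * (a * b)) • bv h i + (z.2 * b) • bv h j)
      (((z.1 + y * z.2) * (a * b)) • bv h i + (z.2 * b) • bv h j)
      (x • bv h i) (fv h k) (fv h j)
      (by rw [map_smul, ψb, if_neg hij.symm, smul_zero])
      (by rw [map_smul, ψb, if_neg hik.symm, smul_zero]) rfl (hk0 _ _) (by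
        rw [map_add, map_smul, map_smul, ψb, ψb, if_neg hij.symm, if_pos rfl, smul_zero,
          zero_add, smul_eq_mul, mul_one, smul_smul]
        have e : (z.1 + y * z.2) * (a * b) = z.1 * (a * b) + z.2 * b * x := by
          linear_combination z.2 * hxy
        rw [e, add_smul]
        abel)
    simp only [hU]
    rw [← Function.comp_apply (f := piG _) (g := piG _), ← LinearIsometryEquiv.coe_mul,
      ← piG_mul, this, piG_mul, LinearIsometryEquiv.coe_mul, Function.comp_apply]
  have hconjB : ∀ x y : ZMod p, y * b = a * b * x → ∀ z w,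
      U (z.1, z.2 + y * z.1) (piG (el h j i x) w) = piG (el h j i x) (U z w) := by
    intro x y hxy z w
    have := T_inter ρ hρ TT hT (el h j i x)
      ((z.1 * (a * b)) • bv h i + (z.2 * b) • bv h j)
      ((z.1 * (a * b)) • bv h i + ((z.2 + y * z.1) * b) • bv h j)
      (x • bv h j) (fv h k) (fv h i)
      (by rw [map_smul, ψb, if_neg hij, smul_zero])
      (by rw [map_smul, ψb, if_neg hjk.symm, smul_zero]) rfl (hk0 _ _) (by
        rw [map_add, map_smul, map_smul, ψb, ψb, if_neg hij, if_pos rfl, smul_zero,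
          add_zero, smul_eq_mul, mul_one, smul_smul]
        have e : (z.2 + y * z.1) * b = z.2 * b + z.1 * (a * b) * x := by
          linear_combination z.1 * hxy
        rw [e, add_smul]
        abel)
    simp only [hU]
    rw [← Function.comp_apply (f := piG _) (g := piG _), ← LinearIsometryEquiv.coe_mul,
      ← piG_mul, this, piG_mul, LinearIsometryEquiv.coe_mul, Function.comp_apply]
  have hU10 : ‖U (1, 0) v - v‖ ≤ 34 * d := by
    have e : U (1, 0) = piG (el h i k (a * b)) := by
      simp only [hU, el]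
      congr 2
      simp
    rw [e]
    have : κ (el h i k (a * b)) ≤ 34 * d := by linarith
    exact this
  have hU01 : ‖U (0, 1) v - v‖ ≤ 34 * d := by
    have e : U (0, 1) = piG (el h j k b) := by
      simp only [hU, el]
      congr 2
      simp
    rw [e]
    have : κ (el h j k b) ≤ 34 * d := by linarith
    exact this
  have hrel := hRel p t ht0 _ U hUadd (piG (el h i j a)) (piG (el h i j (a * b * (c * a))))
    (piG (el h j i (b * c))) (piG (el h j i (b * c * (a * b) * c)))
    (hconjA a 1 (by ring)) (hconjA (a * b * (c * a)) t (by rw [ht]; ring))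
    (hconjB (b * c) t (by rw [ht]; ring)) (hconjB (b * c * (a * b) * c) (t ^ 2) (by rw [ht]; ring))
    v hv (34 * d) (by positivity) (by linarith) (by
      have : κ (el h i j (a * b * (c * a))) ≤ 34 * d := by linarith
      exact this) (by
      have : κ (el h j i (b * c)) ≤ 34 * d := by linarith
      exact this) c6 hU10 hU01
  -- bounded generation
  set A0map : (ZMod p × ZMod p) →ₗ[ZMod p] (Fin n → ZMod p) :=
    (LinearMap.toSpanSingleton (ZMod p) _ (bv h i)).coprod
      (LinearMap.toSpanSingleton (ZMod p) _ (bv h j)) with hA0map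
  have hA0app : ∀ z, A0map z = z.1 • bv h i + z.2 • bv h j := by
    intro z
    rw [hA0map]
    simp
  have hA0inj : Function.Injective A0map := by
    rw [injective_iff_map_eq_zero]
    intro z hz
    rw [hA0app] at hz
    have h1 := congrArg (fv h i) hz
    have h2 := congrArg (fv h j) hz
    rw [map_add, map_smul, map_smul, ψb, ψb, if_neg hij, if_pos rfl, map_zero] at h1
    rw [map_add, map_smul, map_smul, ψb, ψb, if_neg hij.symm, if_pos rfl, map_zero] at h2
    apply Prod.ext
    · simpa using h1
    · simpa using h2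
  have hfr : finrank (ZMod p) (Fin n → ZMod p) = n := Module.finrank_fin_fun (ZMod p)
  have hCd : 0 ≤ 34 * C * d := by positivity
  have hfin := bounded_gen ρ hρ TT hT κ κmul κinv κ1 (det_rho n (ZMod p))
    (S : Set (SpecialLinearGroup (Fin n) (ZMod p)))
    (fun s hs => by simpa using hSinv s (by simpa using hs)) hS (δ + 34 * C * d) (by positivity)
    (by
      intro s hs
      have h1 := hvS s (by simpa using hs)
      change ‖piG s v - v‖ ≤ _
      linarith)
    (fv h k)
    (by
      intro h0
      have := congrArg (fun f : Dual (ZMod p) (Fin n → ZMod p) => f (bv h k)) h0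
      simp only [ψb, if_pos, LinearMap.zero_apply] at this
      exact one_ne_zero this)
    (LinearMap.range A0map)
    (by
      rintro _ ⟨z, rfl⟩
      rw [LinearMap.mem_ker, hA0app]
      exact hk0 _ _)
    (by
      rw [LinearMap.finrank_range_of_inj hA0inj]
      simp)
    (by
      rintro _ ⟨z, rfl⟩
      rw [hA0app]
      have h1 := hrel (z.1 * (a * b)⁻¹, z.2 * b⁻¹)
      have hab : a * b ≠ 0 := mul_ne_zero ha hb
      simp only [hU] at h1
      rw [mul_assoc, inv_mul_cancel₀ hab, mul_one, mul_assoc, inv_mul_cancel₀ hb, mul_one] at h1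
      change ‖piG (TT (z.1 • bv h i + z.2 • bv h j) (fv h k)) v - v‖ ≤ _
      linarith)
    g
  rw [hfr] at hfin
  exact hfin

end Pool.Agent.MP_2ab1ce_al.TR
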