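import Mathlib
import Pool.Agent.Lib.MP_2ab1ce_al.TR.Stm

/-!
# Project TR (MP_2ab1ce_al): piece lya, the drift inequality
-/

set_option autoImplicit false

namespace Pool.Agent.MP_2ab1ce_al.TR.P_lya

open Finset MP2ab1ce Pool.Agent.MP_2ab1ce_al.TR

theorem den_pos (P : Par) : (0 : ℝ) < 2 * (P.R : ℝ) + 1 := by
  positivity

theorem summ (P : Par) (d : ℕ → UnitAddCircle) (hd : Pos P d) :
    Summable (fun i : ℕ => (1 / 2 : ℝ) ^ i * (Q P d i)⁻¹) := by
  obtain ⟨δ, hδ, h⟩ := hd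
  refine Summable.of_nonneg_of_le (fun i => ?_) (fun i => ?_)
    ((summable_geometric_of_lt_one (by norm_num : (0 : ℝ) ≤ 1 / 2) (by norm_num)).mul_right δ⁻¹)
  · have : 0 ≤ Q P d i := hδ.le.trans (h i)
    positivity
  · exact mul_le_mul_of_nonneg_left (inv_anti₀ hδ (h i)) (by positivity)

theorem posE (hQ : S_Q) (P : Par) (c : ℕ → UnitAddCircle) (hc : Pos P c) (ε σ : ℕ) (n : ℤ)
    (hσ : σ = 1 ∨ σ = 3) (hn : |n| ≤ (P.R : ℤ)) : Pos P (E ε σ n c) := by
  obtain ⟨δ, hδ, h⟩ := hc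
  have hR : (0 : ℝ) < (((P.R : ℝ) + 1) ^ P.s)⁻¹ := by positivity
  refine ⟨(20 / 21 : ℝ) ^ 3 * (((P.R : ℝ) + 1) ^ P.s)⁻¹ * δ, by positivity, fun i => ?_⟩
  refine le_trans ?_ ((hQ P c i).2.2.2.2.2 ε σ n hσ hn)
  exact mul_le_mul_of_nonneg_left (h i) (by positivity)

theorem hsG (hQ : S_Q) (P : Par) (c : ℕ → UnitAddCircle) (hc : Pos P c) (ε σ : ℕ)
    (hσ : σ = 1 ∨ σ = 3) :
    HasSum (fun i : ℕ => (1 / 2 : ℝ) ^ i * G P c i ε σ) (avg P (fun n => Hf P (E ε σ n c))) := by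
  have h1 : HasSum (fun i : ℕ => (∑ n ∈ Icc (-(P.R : ℤ)) (P.R : ℤ),
      (1 / 2 : ℝ) ^ i * (Q P (E ε σ n c) i)⁻¹) / (2 * (P.R : ℝ) + 1))
      (avg P (fun n => Hf P (E ε σ n c))) := by
    refine (hasSum_sum fun n hn => ?_).div_const _
    have hn' := Finset.mem_Icc.1 hn
    exact (summ P _ (posE hQ P c hc ε σ n hσ (abs_le.2 hn'))).hasSum
  have h2 : (fun i : ℕ => (∑ n ∈ Icc (-(P.R : ℤ)) (P.R : ℤ),
      (1 / 2 : ℝ) ^ i * (Q P (E ε σ n c) i)⁻¹) / (2 * (P.R : ℝ) + 1)) =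
      fun i : ℕ => (1 / 2 : ℝ) ^ i * G P c i ε σ := by
    funext i
    unfold G avg
    rw [← Finset.mul_sum, mul_div_assoc]
  rw [h2] at h1
  exact h1

theorem G_nonneg (hQ : S_Q) (P : Par) (c : ℕ → UnitAddCircle) (i ε σ : ℕ) :
    0 ≤ G P c i ε σ := by
  unfold G avg
  refine div_nonneg (Finset.sum_nonneg fun n _ => ?_) (den_pos P).le
  exact inv_nonneg.2 (hQ P _ i).1

end Pool.Agent.MP_2ab1ce_al.TR.P_lya

namespace Pool.Agent.MP_2ab1ce_al.TR

open Finset MP2ab1ce P_lya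

theorem p_lya (hQ : S_Q) (htri : S_tri) (hsum : S_sum) : S_lya := by
  intro P c hc
  have hS : HasSum (fun i : ℕ => (1 / 2 : ℝ) ^ i * F P c i)
      (avg P (fun n => Hf P (E 0 1 n c)) + avg P (fun n => Hf P (E 0 3 n c)) +
      avg P (fun n => Hf P (E 1 1 n c)) + avg P (fun n => Hf P (E 1 3 n c))) := by
    have h := (((hsG hQ P c hc 0 1 (Or.inl rfl)).add (hsG hQ P c hc 0 3 (Or.inr rfl))).add
      (hsG hQ P c hc 1 1 (Or.inl rfl))).add (hsG hQ P c hc 1 3 (Or.inr rfl))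
    have e : (fun i : ℕ => (1 / 2 : ℝ) ^ i * F P c i) =
        fun i : ℕ => (1 / 2 : ℝ) ^ i * G P c i 0 1 + (1 / 2 : ℝ) ^ i * G P c i 0 3 +
          (1 / 2 : ℝ) ^ i * G P c i 1 1 + (1 / 2 : ℝ) ^ i * G P c i 1 3 := by
      funext i
      unfold F
      ring
    rw [e]
    exact h
  rw [← hS.tsum_eq]
  have hpos : ∀ i, 0 < Q P c i := by
    obtain ⟨δ, hδ, h⟩ := hc
    exact fun i => hδ.trans_le (h i)
  have h2 : ∀ i : ℕ, (0 : ℝ) < (1 / 2 : ℝ) ^ i := fun i => by positivity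
  have h := hsum (fun i => (1 / 2 : ℝ) ^ i * (Q P c i)⁻¹) (fun i => (1 / 2 : ℝ) ^ i * F P c i)
    (fun i => mul_pos (h2 i) (inv_pos.2 (hpos i))) (summ P c hc)
    (fun i => by
      refine mul_nonneg (h2 i).le ?_
      unfold F
      have g1 := G_nonneg hQ P c i 0 1
      have g2 := G_nonneg hQ P c i 0 3
      have g3 := G_nonneg hQ P c i 1 1
      have g4 := G_nonneg hQ P c i 1 3
      linarith)
    (fun i => by
      have h3 := mul_le_mul_of_nonneg_left (htri P c hc i).1 (h2 i).le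
      have e : (1 / 2 : ℝ) ^ i * (6 * (Q P c i)⁻¹) = 6 * ((1 / 2 : ℝ) ^ i * (Q P c i)⁻¹) := by ring
      rw [e] at h3
      exact h3)
    (fun i => by
      have h3 := (hQ P c i).2.2.2.2.1
      have h4 : (0 : ℝ) < 20 / 21 * Q P c (i + 1) := mul_pos (by norm_num) (hpos (i + 1))
      have h5 := mul_le_mul_of_nonneg_left (inv_anti₀ h4 h3) (h2 i).le
      have e : (1 / 2 : ℝ) ^ i * (20 / 21 * Q P c (i + 1))⁻¹ =
          21 / 10 * ((1 / 2 : ℝ) ^ (i + 1) * (Q P c (i + 1))⁻¹) := by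
        rw [mul_inv, pow_succ]
        ring
      rw [e] at h5
      exact h5)
    (fun i => by
      by_cases h6 : Q P c i < 1 / 1000
      · right
        rcases (htri P c hc i).2 h6 with h7 | ⟨h7, h8⟩ | ⟨h7, h8⟩
        · left
          have h9 := mul_le_mul_of_nonneg_left h7 (h2 i).le
          have e : (1 / 2 : ℝ) ^ i * ((4 - 1 / 100) * (Q P c i)⁻¹) =
              (4 - 1 / 100) * ((1 / 2 : ℝ) ^ i * (Q P c i)⁻¹) := by ring
          rw [e] at h9
          exact h9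
        · right
          left
          constructor
          · have h9 := mul_le_mul_of_nonneg_left h7 (h2 i).le
            have e : (1 / 2 : ℝ) ^ i * ((4 + 1 / 2500) * (Q P c i)⁻¹) =
                (4 + 1 / 2500) * ((1 / 2 : ℝ) ^ i * (Q P c i)⁻¹) := by ring
            rw [e] at h9
            exact h9
          · have h4 : (0 : ℝ) < 4 * Q P c (i + 1) := mul_pos (by norm_num) (hpos (i + 1))
            have h5 := mul_le_mul_of_nonneg_left (inv_anti₀ h4 h8.le) (h2 i).le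
            have e : (1 / 2 : ℝ) ^ i * (4 * Q P c (i + 1))⁻¹ =
                1 / 2 * ((1 / 2 : ℝ) ^ (i + 1) * (Q P c (i + 1))⁻¹) := by
              rw [mul_inv, pow_succ]
              ring
            rw [e] at h5
            exact h5
        · right
          right
          constructor
          · have h9 := mul_le_mul_of_nonneg_left h7 (h2 i).le
            have e : (1 / 2 : ℝ) ^ i * ((4 + 1 / 2500) * (Q P c i)⁻¹) =
                (4 + 1 / 2500) * ((1 / 2 : ℝ) ^ i * (Q P c i)⁻¹) := by ring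
            rw [e] at h9
            exact h9
          · have h9 := mul_le_mul_of_nonneg_left h8 (h2 (i + 1)).le
            have e : (1 / 2 : ℝ) ^ (i + 1) * ((4 - 1 / 100) * (Q P c (i + 1))⁻¹) =
                (4 - 1 / 100) * ((1 / 2 : ℝ) ^ (i + 1) * (Q P c (i + 1))⁻¹) := by ring
            rw [e] at h9
            exact h9
      · left
        have h7 : (1 / 1000 : ℝ) ≤ Q P c i := not_lt.1 h6
        have h8 : (Q P c i)⁻¹ ≤ 1000 := by
          have h9 := inv_anti₀ (by norm_num : (0 : ℝ) < 1 / 1000) h7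
          norm_num at h9
          exact h9
        have h9 := mul_le_mul_of_nonneg_left h8 (h2 i).le
        rw [mul_comm ((1 / 2 : ℝ) ^ i) 1000] at h9
        exact h9)
  exact h

end Pool.Agent.MP_2ab1ce_al.TR
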