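import Mathlib
import Pool.Agent.Lib.MP_2ab1ce_al.TR.Stm

/-!
# Project TR (MP_2ab1ce_al), piece mov: the spectral masses are almost invariant under the shears
-/

namespace Pool.Agent.MP_2ab1ce_al.TR

open Finset MP2ab1ce

namespace P_mov

section gen

variable {H : Type} [NormedAddCommGroup H] [InnerProductSpace ℂ H]

theorem mul_app (g h : H ≃ₗᵢ[ℂ] H) (w : H) : (g * h) w = g (h w) := rfl

theorem inv_app (g : H ≃ₗᵢ[ℂ] H) (w : H) : g (g⁻¹ w) = w := by
  rw [← mul_app, mul_inv_cancel]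
  rfl

theorem inv_app' (g : H ≃ₗᵢ[ℂ] H) (w : H) : g⁻¹ (g w) = w := by
  rw [← mul_app, inv_mul_cancel]
  rfl

theorem inv_move (a : H ≃ₗᵢ[ℂ] H) (v : H) : ‖a⁻¹ v - v‖ = ‖a v - v‖ := by
  rw [← LinearIsometryEquiv.norm_map a (a⁻¹ v - v), map_sub, inv_app, norm_sub_rev]

theorem zpow_move (a : H ≃ₗᵢ[ℂ] H) (v : H) (δ : ℝ) (h : ‖a v - v‖ ≤ δ) (n : ℤ) :
    ‖(a ^ n) v - v‖ ≤ |(n : ℝ)| * δ := by
  induction n using Int.induction_on with
  | zero =>
    rw [zpow_zero]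
    have : (1 : H ≃ₗᵢ[ℂ] H) v = v := rfl
    rw [this]
    simp
  | succ k ih =>
    have e1 : (a ^ ((k : ℤ) + 1)) v - v = (a ^ (k : ℤ)) (a v - v) + ((a ^ (k : ℤ)) v - v) := by
      rw [zpow_add_one, mul_app, map_sub]
      abel
    have e2 : |(((k : ℤ) + 1 : ℤ) : ℝ)| = |((k : ℤ) : ℝ)| + 1 := by
      push_cast
      rw [abs_of_nonneg (by positivity), abs_of_nonneg (by positivity)]
    rw [e1, e2, add_mul, one_mul, add_comm (|((k : ℤ) : ℝ)| * δ)]
    refine (norm_add_le _ _).trans (add_le_add ?_ ih)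
    rw [LinearIsometryEquiv.norm_map]
    exact h
  | pred k ih =>
    have e1 : (a ^ (-(k : ℤ) - 1)) v - v = (a ^ (-(k : ℤ))) (a⁻¹ v - v) +
        ((a ^ (-(k : ℤ))) v - v) := by
      rw [zpow_sub_one, mul_app, map_sub]
      abel
    have e2 : |((-(k : ℤ) - 1 : ℤ) : ℝ)| = |((-(k : ℤ) : ℤ) : ℝ)| + 1 := by
      push_cast
      have hk : (0 : ℝ) ≤ k := by positivity
      rw [abs_neg, abs_of_nonneg hk, abs_of_nonpos (by linarith)]
      ring
    rw [e1, e2, add_mul, one_mul, add_comm (|((-(k : ℤ) : ℤ) : ℝ)| * δ)]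
    refine (norm_add_le _ _).trans (add_le_add ?_ ih)
    rw [LinearIsometryEquiv.norm_map, inv_move]
    exact h

end gen

section main

variable {p : ℕ} [Fact p.Prime] {H : Type} [NormedAddCommGroup H] [InnerProductSpace ℂ H]
  (U : ZMod p × ZMod p → (H ≃ₗᵢ[ℂ] H))

theorem twA (m : ZMod p) (a : H ≃ₗᵢ[ℂ] H)
    (ha : ∀ z w, U (z.1 + m * z.2, z.2) (a w) = a (U z w)) (n : ℤ) :
    ∀ z w, U (z.1 + ((n : ZMod p) * m) * z.2, z.2) ((a ^ n) w) = (a ^ n) (U z w) := by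
  have hinv : ∀ z w, U (z.1 - m * z.2, z.2) (a⁻¹ w) = a⁻¹ (U z w) := by
    intro z w
    have h1 := ha (z.1 - m * z.2, z.2) (a⁻¹ w)
    simp only [sub_add_cancel] at h1
    rw [inv_app] at h1
    rw [h1, inv_app']
  induction n using Int.induction_on with
  | zero =>
    intro z w
    simp only [zpow_zero, Int.cast_zero, zero_mul, add_zero]
    rfl
  | succ k ih =>
    intro z w
    rw [zpow_add_one, mul_app, mul_app, ← ha, ← ih]
    congr 2
    push_cast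
    ring_nf
  | pred k ih =>
    intro z w
    rw [zpow_sub_one, mul_app, mul_app, ← hinv, ← ih]
    congr 2
    push_cast
    ring_nf

theorem twB (m : ZMod p) (b : H ≃ₗᵢ[ℂ] H)
    (hb : ∀ z w, U (z.1, z.2 + m * z.1) (b w) = b (U z w)) (n : ℤ) :
    ∀ z w, U (z.1, z.2 + ((n : ZMod p) * m) * z.1) ((b ^ n) w) = (b ^ n) (U z w) := by
  have hinv : ∀ z w, U (z.1, z.2 - m * z.1) (b⁻¹ w) = b⁻¹ (U z w) := by
    intro z w
    have h1 := hb (z.1, z.2 - m * z.1) (b⁻¹ w)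
    simp only [sub_add_cancel] at h1
    rw [inv_app] at h1
    rw [h1, inv_app']
  induction n using Int.induction_on with
  | zero =>
    intro z w
    simp only [zpow_zero, Int.cast_zero, zero_mul, add_zero]
    rfl
  | succ k ih =>
    intro z w
    rw [zpow_add_one, mul_app, mul_app, ← hb, ← ih]
    congr 2
    push_cast
    ring_nf
  | pred k ih =>
    intro z w
    rw [zpow_sub_one, mul_app, mul_app, ← hinv, ← ih]
    congr 2
    push_cast
    ring_nf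

/-- the common part of the two estimates. -/
theorem core (σ : ZMod p × ZMod p → ZMod p × ZMod p) (g : H ≃ₗᵢ[ℂ] H) (v : H) (c : ℝ)
    (hg : ‖g v - v‖ ≤ c) (hσ : ∀ ζ, specP U ζ (g v) = g (specP U (σ ζ) v)) :
    ∑ ζ, (‖specP U (σ ζ) v‖ - ‖specP U ζ v‖) ^ 2 ≤ c ^ 2 := by
  have h1 : ∀ ζ, (‖specP U (σ ζ) v‖ - ‖specP U ζ v‖) ^ 2 ≤ ‖specP U ζ (g v - v)‖ ^ 2 := by
    intro ζ
    have e1 : ‖specP U (σ ζ) v‖ = ‖specP U ζ (g v)‖ := by
      rw [hσ, LinearIsometryEquiv.norm_map]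
    rw [e1, specP_sub]
    have := abs_norm_sub_norm_le (specP U ζ (g v)) (specP U ζ v)
    exact sq_le_sq' (by linarith [neg_abs_le (‖specP U ζ (g v)‖ - ‖specP U ζ v‖)])
      (by linarith [le_abs_self (‖specP U ζ (g v)‖ - ‖specP U ζ v‖)])
  refine (Finset.sum_le_sum (fun ζ _ => h1 ζ)).trans ?_
  rw [parseval]
  exact pow_le_pow_left₀ (norm_nonneg _) hg 2

end main

end P_mov

theorem p_mov : S_mov := by
  intro p _ m H _ _ U a v δ hv n
  constructor
  · intro ha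
    refine P_mov.core U (shearB ((n : ZMod p) * m)) (a ^ n) v _ (P_mov.zpow_move a v δ hv n) ?_
    intro ζ
    exact specP_a U ((n : ZMod p) * m) (a ^ n) (P_mov.twA U m a ha n) ζ v
  · intro hb
    refine P_mov.core U (shearA ((n : ZMod p) * m)) (a ^ n) v _ (P_mov.zpow_move a v δ hv n) ?_
    intro ζ
    exact specP_b U ((n : ZMod p) * m) (a ^ n) (P_mov.twB U m a hb n) ζ v

end Pool.Agent.MP_2ab1ce_al.TR
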