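import Mathlib
import Pool.Agent.Lib.MP_2ab1ce_al.TR.Stm

/-!
# Project TR (MP_2ab1ce_al), piece nz: bounded values of the Lyapunov function
-/

namespace Pool.Agent.MP_2ab1ce_al.TR

open Finset MP2ab1ce

namespace P_nz

theorem inv_le (P : Par) (c : ℕ → UnitAddCircle) (hc : Pos P c) (hQ : S_Q) :
    (Q P c 0)⁻¹ ≤ Hf P c := by
  obtain ⟨δ, hδ, hc⟩ := hc
  have h0 : ∀ i, 0 ≤ (1 / 2 : ℝ) ^ i * (Q P c i)⁻¹ := fun i =>
    mul_nonneg (by positivity) (inv_nonneg.2 (hQ P c i).1)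
  have hs : Summable (fun i : ℕ => (1 / 2 : ℝ) ^ i * (Q P c i)⁻¹) := by
    refine Summable.of_nonneg_of_le h0 (fun i => ?_)
      ((summable_geometric_of_lt_one (by norm_num) (by norm_num : (1 / 2 : ℝ) < 1)).mul_right δ⁻¹)
    exact mul_le_mul_of_nonneg_left (inv_anti₀ hδ (hc i)) (by positivity)
  have h1 := hs.le_tsum 0 (fun j _ => h0 j)
  rw [pow_zero, one_mul] at h1
  exact h1

theorem norm_ge (P : Par) (x : UnitAddCircle) (b : ℝ) (hb : 0 < b) (h : b < q P x) :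
    b ^ (P.s)⁻¹ / P.K ≤ ‖x‖ := by
  have hK : 0 < P.K := lt_of_lt_of_le (by norm_num) P.hK
  have hm : 0 ≤ min (P.K * ‖x‖) 1 := le_min (mul_nonneg hK.le (norm_nonneg _)) zero_le_one
  have h1 : b ^ (P.s)⁻¹ < ((min (P.K * ‖x‖) 1) ^ P.s) ^ (P.s)⁻¹ :=
    Real.rpow_lt_rpow hb.le h (inv_pos.2 P.hs)
  rw [Real.rpow_rpow_inv hm P.hs.ne'] at h1
  rw [div_le_iff₀ hK, mul_comm]
  exact h1.le.trans (min_le_left _ _)

end P_nz

open P_nz in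
theorem p_nz (hq : S_q) (hQ : S_Q) : S_nz := by
  intro P B
  have hB : 0 < max B 1 := lt_of_lt_of_le zero_lt_one (le_max_right _ _)
  have hK : 0 < P.K := lt_of_lt_of_le (by norm_num) P.hK
  obtain ⟨L, hL⟩ := exists_pow_lt_of_lt_one (inv_pos.2 hB) (by norm_num : (20 / 21 : ℝ) < 1)
  refine ⟨L, ((max B 1)⁻¹) ^ (P.s)⁻¹ / P.K,
    div_pos (Real.rpow_pos_of_pos (inv_pos.2 hB) _) hK, fun c hc hH => ?_⟩
  have h1 : (Q P c 0)⁻¹ < max B 1 :=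
    lt_of_le_of_lt (inv_le P c hc hQ) (lt_of_lt_of_le hH (le_max_left _ _))
  have h2 : 0 < Q P c 0 := by
    obtain ⟨δ, hδ, hc⟩ := hc
    exact lt_of_lt_of_le hδ (hc 0)
  have h3 : (max B 1)⁻¹ < Q P c 0 := inv_lt_of_inv_lt₀ h2 h1
  obtain ⟨k, hk⟩ := (hQ P c 0).2.2.2.1 h2
  rw [zero_add] at hk
  have h4 : (20 / 21 : ℝ) ^ k ≤ 1 := pow_le_one₀ (by norm_num) (by norm_num)
  have h5 : 0 ≤ (20 / 21 : ℝ) ^ k := by positivity
  have h6 := (hq P).1 (c k)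
  have h7 := (hq P).2.1 (c k)
  have h8 : (max B 1)⁻¹ < (20 / 21 : ℝ) ^ k := by
    rw [hk] at h3
    exact lt_of_lt_of_le h3 (mul_le_of_le_one_right h5 h7)
  have h9 : (max B 1)⁻¹ < q P (c k) := by
    rw [hk] at h3
    exact lt_of_lt_of_le h3 (mul_le_of_le_one_left h6 h4)
  refine ⟨k, ?_, norm_ge P (c k) _ (inv_pos.2 hB) h9⟩
  by_contra hkL
  have h10 : (20 / 21 : ℝ) ^ k ≤ (20 / 21 : ℝ) ^ L :=
    pow_le_pow_of_le_one (by norm_num) (by norm_num) (not_lt.1 hkL)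
  exact absurd (h8.trans_le h10) (not_lt.2 hL.le)

end Pool.Agent.MP_2ab1ce_al.TR
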