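import Mathlib
import Pool.Agent.Lib.MP_2ab1ce_al.TR.Stm

/-!
# Project TR, piece op1: the operations that do not help
-/

set_option autoImplicit false

namespace Pool.Agent.MP_2ab1ce_al.TR.P_op1

open Finset Pool.Agent.MP_2ab1ce_al.TR

theorem avg_mono (P : Par) {g g' : ℤ → ℝ} (h : ∀ n, g n ≤ g' n) : avg P g ≤ avg P g' := by
  unfold avg
  have h0 : (0 : ℝ) < 2 * (P.R : ℝ) + 1 := by positivity
  exact div_le_div_of_nonneg_right (Finset.sum_le_sum fun n _ => h n) h0.le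

theorem avg_const (P : Par) (x : ℝ) : avg P (fun _ => x) = x := by
  unfold avg
  rw [Finset.sum_const, Int.card_Icc, nsmul_eq_mul]
  have h1 : ((P.R : ℤ) + 1 - -(P.R : ℤ)).toNat = 2 * P.R + 1 := by omega
  have h0 : (0 : ℝ) < 2 * (P.R : ℝ) + 1 := by positivity
  rw [h1]
  push_cast
  field_simp

theorem avg_mul (P : Par) (x : ℝ) (g : ℤ → ℝ) : avg P (fun n => x * g n) = x * avg P g := by
  unfold avg
  rw [← Finset.mul_sum, mul_div_assoc]

theorem key (P : Par) (c : ℕ → UnitAddCircle) (i k ε σ : ℕ) (B : ℝ) (x : ℤ → ℝ)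
    (hQ : Q P c i = (20 / 21 : ℝ) ^ k * q P (c (i + k))) (hx : ∀ n, 0 < x n)
    (hle : ∀ n, (20 / 21 : ℝ) ^ k * x n ≤ Q P (E ε σ n c) i)
    (hav : avg P (fun n => (x n)⁻¹) ≤ B * (q P (c (i + k)))⁻¹) :
    G P c i ε σ ≤ B * (Q P c i)⁻¹ := by
  unfold G
  have h1 : avg P (fun n => (Q P (E ε σ n c) i)⁻¹) ≤
      avg P (fun n => ((20 / 21 : ℝ) ^ k)⁻¹ * (x n)⁻¹) := avg_mono P fun n => by
    rw [← mul_inv]
    exact inv_anti₀ (mul_pos (by positivity) (hx n)) (hle n)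
  rw [avg_mul] at h1
  refine h1.trans ?_
  rw [hQ, mul_inv]
  calc _ ≤ ((20 / 21 : ℝ) ^ k)⁻¹ * (B * (q P (c (i + k)))⁻¹) :=
        mul_le_mul_of_nonneg_left hav (by positivity)
    _ = _ := by ring

theorem low (hQ : S_Q) (P : Par) (c : ℕ → UnitAddCircle) (i k ε σ : ℕ) (n : ℤ)
    (hσ : σ = 1 ∨ σ = 3) (hε : ε = (i + k) % 2) :
    (20 / 21 : ℝ) ^ k * max (q P (c (i + k) + n • c (i + k + σ)))
      ((20 / 21 : ℝ) ^ σ * q P (c (i + k + σ))) ≤ Q P (E ε σ n c) i := by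
  have h3 := (hQ P (E ε σ n c) i).2.2.1
  rw [mul_max_of_nonneg _ _ (by positivity)]
  refine max_le ?_ ?_
  · have h := h3 k
    rwa [E, if_pos hε.symm] at h
  · have h := h3 (k + σ)
    have hne : ¬ (i + (k + σ)) % 2 = ε := by omega
    rw [E, if_neg hne, pow_add, mul_assoc, ← add_assoc] at h
    exact h

theorem pos (hq : S_q) (P : Par) (u v : UnitAddCircle) (σ : ℕ) (n : ℤ) (hu : u ≠ 0) :
    0 < max (q P (u + n • v)) ((20 / 21 : ℝ) ^ σ * q P v) := by
  obtain ⟨h0, h1, h2, -⟩ := hq P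
  by_cases hv : v = 0
  · refine lt_max_of_lt_left ?_
    rw [hv, smul_zero, add_zero]
    exact lt_of_le_of_ne (h0 u) (fun h => hu ((h2 u).1 h.symm))
  · refine lt_max_of_lt_right (mul_pos (by positivity) ?_)
    exact lt_of_le_of_ne (h0 v) (fun h => hv ((h2 v).1 h.symm))

end Pool.Agent.MP_2ab1ce_al.TR.P_op1

namespace Pool.Agent.MP_2ab1ce_al.TR

open Finset P_op1

theorem p_op1 (hq : S_q) (hQ : S_Q) (ha1 : S_a1) (ha2 : S_a2) : S_op1 := by
  intro P c i k ε hpos hk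
  have h0 := (hq P).1
  have h1 := (hq P).2.1
  have h2 := (hq P).2.2.1
  have h4 := (hq P).2.2.2.1
  have hqp : 0 < q P (c (i + k)) := by
    rw [hk] at hpos
    exact pos_of_mul_pos_right hpos (by positivity)
  have hu : c (i + k) ≠ 0 := fun h => hqp.ne' ((h2 _).2 h)
  have hQi : 0 < (Q P c i)⁻¹ := inv_pos.2 hpos
  have hone : q P (c (i + k)) ≤ 1 := h1 _
  have two : ∀ σ, σ = 1 ∨ σ = 3 → ε = (i + k) % 2 → P.K * ‖c (i + k + σ)‖ < 1 →
      G P c i ε σ ≤ (1 + 2 / 10000) * (Q P c i)⁻¹ := by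
    intro σ hσ hε hK
    exact key P c i k ε σ _ _ hk (fun n => pos hq P _ (c (i + k + σ)) σ n hu)
      (fun n => low hQ P c i k ε σ n hσ hε) (ha1 P _ _ σ hσ hu hK)
  refine ⟨?_, two, ?_, ?_⟩
  · intro σ hε
    unfold G
    refine (avg_mono P (g' := fun _ => (Q P c i)⁻¹) fun n => ?_).trans (avg_const P _).le
    refine inv_anti₀ hpos ?_
    have h := (hQ P (E ε σ n c) i).2.2.1 k
    rw [E, if_neg (Ne.symm hε)] at h
    rw [hk]
    exact h
  · intro σ hσ hε
    by_cases hK : P.K * ‖c (i + k + σ)‖ < 1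
    · refine (two σ hσ hε hK).trans (mul_le_mul_of_nonneg_right ?_ hQi.le)
      rcases hσ with rfl | rfl <;> norm_num
    · push Not at hK
      refine key P c i k ε σ _
        (fun n => max (q P (c (i + k) + n • c (i + k + σ))) ((20 / 21 : ℝ) ^ σ)) hk
        (fun n => lt_max_of_lt_right (by positivity)) (fun n => ?_) (ha2 P _ _ σ hσ hu hK)
      have h := low hQ P c i k ε σ n hσ hε
      rwa [h4 _ hK, mul_one] at h
  · intro hε hK1
    by_cases hK : P.K * ‖c (i + k + 3)‖ < 1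
    · refine (two 3 (Or.inr rfl) hε hK).trans (mul_le_mul_of_nonneg_right ?_ hQi.le)
      norm_num
    · push Not at hK
      have h5 := ha2 P (c (i + k)) (c (i + k + 3)) 1 (Or.inl rfl) hu hK
      rw [pow_one, pow_one] at h5
      refine key P c i k ε 3 _
        (fun n => max (q P (c (i + k) + n • c (i + k + 3))) (20 / 21 : ℝ)) hk
        (fun n => lt_max_of_lt_right (by positivity)) (fun n => ?_) h5
      have h3 := (hQ P (E ε 3 n c) i).2.2.1
      rw [mul_max_of_nonneg _ _ (by positivity)]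
      refine max_le ?_ ?_
      · have h := h3 k
        rwa [E, if_pos hε.symm] at h
      · have h := h3 (k + 1)
        have hne : ¬ (i + (k + 1)) % 2 = ε := by omega
        rw [E, if_neg hne, ← add_assoc, h4 _ hK1, mul_one, pow_succ] at h
        exact h

end Pool.Agent.MP_2ab1ce_al.TR
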