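import Mathlib
import Pool.Agent.Lib.MP_2ab1ce_al.TR.Stm

/-!
# Project TR (MP_2ab1ce_al), piece op2: the operations that help
-/

set_option autoImplicit false

namespace Pool.Agent.MP_2ab1ce_al.TR

namespace P_op2

open Finset

theorem avg_le (P : Par) (f g : ℤ → ℝ) (C : ℝ) (h : ∀ n, f n ≤ C * g n) :
    avg P f ≤ C * avg P g := by
  unfold avg
  have h0 : (0 : ℝ) < 2 * (P.R : ℝ) + 1 := by positivity
  rw [← mul_div_assoc, Finset.mul_sum]
  exact div_le_div_of_nonneg_right (Finset.sum_le_sum fun n _ => h n) h0.le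

theorem key (P : Par) (c : ℕ → UnitAddCircle) (i ε σ : ℕ) (a B : ℝ) (f : ℤ → ℝ) (ha : 0 < a)
    (hf : ∀ n, 0 < f n) (h : ∀ n, a * f n ≤ Q P (E ε σ n c) i)
    (hB : avg P (fun n => (f n)⁻¹) ≤ B) : G P c i ε σ ≤ a⁻¹ * B := by
  unfold G
  refine (avg_le P _ (fun n => (f n)⁻¹) a⁻¹ fun n => ?_).trans
    (mul_le_mul_of_nonneg_left hB (inv_nonneg.2 ha.le))
  rw [← mul_inv]
  exact inv_anti₀ (mul_pos ha (hf n)) (h n)

theorem pow_sub_eq (k σ : ℕ) (h : σ ≤ k) :
    (20 / 21 : ℝ) ^ (k - σ) = (20 / 21 : ℝ) ^ k * (21 / 20 : ℝ) ^ σ := by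
  obtain ⟨m, rfl⟩ := Nat.exists_eq_add_of_le h
  rw [Nat.add_sub_cancel_left, pow_add, mul_comm ((20 / 21 : ℝ) ^ σ), mul_assoc, ← mul_pow]
  norm_num

/-- the lower bound for `Q` after a helping operation -/
theorem low1 (P : Par) (hQ : S_Q) (c : ℕ → UnitAddCircle) (i k ε σ : ℕ) (hε : ε < 2)
    (hp : ε ≠ (i + k) % 2) (hσ : σ = 1 ∨ σ = 3) (hk : σ ≤ k) (n : ℤ) :
    (20 / 21 : ℝ) ^ k * max (q P (c (i + k))) ((21 / 20 : ℝ) ^ σ *
      q P (c (i + (k - σ)) + n • c (i + k))) ≤ Q P (E ε σ n c) i := by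
  obtain ⟨-, -, h, -⟩ := hQ P (E ε σ n c) i
  have h1 := h k
  have h2 := h (k - σ)
  have e1 : E ε σ n c (i + k) = c (i + k) := by
    unfold E
    rw [if_neg]
    exact fun h => hp h.symm
  have e2 : E ε σ n c (i + (k - σ)) = c (i + (k - σ)) + n • c (i + k) := by
    unfold E
    have e3 : (i + (k - σ)) % 2 = ε := by
      rcases hσ with rfl | rfl <;> omega
    have e4 : i + (k - σ) + σ = i + k := by omega
    rw [if_pos e3, e4]
  rw [e1] at h1
  rw [e2, pow_sub_eq k σ hk, mul_assoc] at h2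
  rw [mul_max_of_nonneg _ _ (by positivity)]
  exact max_le h1 h2

theorem low2 (P : Par) (hQ : S_Q) (c : ℕ → UnitAddCircle) (i k ε : ℕ) (hε : ε < 2)
    (hp : ε ≠ (i + 1 + k) % 2) (n : ℤ) :
    (20 / 21 : ℝ) ^ k * max (q P (c (i + k) + n • c (i + 1 + k))) ((20 / 21 : ℝ) *
      q P (c (i + 1 + k))) ≤ Q P (E ε 1 n c) i := by
  obtain ⟨-, -, h, -⟩ := hQ P (E ε 1 n c) i
  have h1 := h k
  have h2 := h (k + 1)
  have e0 : i + (k + 1) = i + 1 + k := by omega
  have e1 : E ε 1 n c (i + k) = c (i + k) + n • c (i + 1 + k) := by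
    unfold E
    have e3 : (i + k) % 2 = ε := by omega
    have e4 : i + k + 1 = i + 1 + k := by omega
    rw [if_pos e3, e4]
  have e2 : E ε 1 n c (i + (k + 1)) = c (i + 1 + k) := by
    unfold E
    rw [if_neg (by omega), e0]
  rw [e1] at h1
  rw [e2, pow_succ, mul_assoc] at h2
  rw [mul_max_of_nonneg _ _ (by positivity)]
  exact max_le h1 h2

end P_op2

open P_op2 in
theorem p_op2 (hq : S_q) (hQ : S_Q) (hb1 : S_b1) (hb23 : S_b23) : S_op2 := by
  intro P c i k ε hε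
  obtain ⟨hq0, -, hqz, -⟩ := hq P
  have ha : (0 : ℝ) < (20 / 21 : ℝ) ^ k := by positivity
  constructor
  · intro hQ0 hQk hp
    have hqj : 0 < q P (c (i + k)) := by
      rw [hQk] at hQ0
      exact (mul_pos_iff_of_pos_left ha).1 hQ0
    have hcj : c (i + k) ≠ 0 := fun h => hqj.ne' ((hqz _).2 h)
    have hinv : (Q P c i)⁻¹ = ((20 / 21 : ℝ) ^ k)⁻¹ * (q P (c (i + k)))⁻¹ := by
      rw [hQk, mul_inv]
    constructor
    · intro σ hσ hk
      have h := key P c i ε σ _ _ (fun n => max (q P (c (i + k))) ((21 / 20 : ℝ) ^ σ *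
        q P (c (i + (k - σ)) + n • c (i + k)))) ha (fun n => lt_max_of_lt_left hqj)
        (low1 P hQ c i k ε σ hε hp hσ hk) (hb1 P (c (i + k)) (c (i + (k - σ))) σ hσ hcj)
      rw [hinv]
      refine h.trans (le_of_eq ?_)
      ring
    · intro hk hqs
      have h := key P c i ε 1 _ _ (fun n => max (q P (c (i + k))) ((21 / 20 : ℝ) *
        q P (c (i + (k - 1)) + n • c (i + k)))) ha (fun n => lt_max_of_lt_left hqj)
        (fun n => by
          have h1 := low1 P hQ c i k ε 1 hε hp (Or.inl rfl) hk n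
          rw [pow_one] at h1
          exact h1) ((hb23 P (c (i + k)) (c (i + (k - 1))) hcj).1 hqs)
      rw [hinv]
      refine h.trans (le_of_eq ?_)
      ring
  · intro hQ0 hQk hqs hp
    have hqj : 0 < q P (c (i + 1 + k)) := by
      rw [hQk] at hQ0
      exact (mul_pos_iff_of_pos_left ha).1 hQ0
    have hcj : c (i + 1 + k) ≠ 0 := fun h => hqj.ne' ((hqz _).2 h)
    have hinv : (Q P c (i + 1))⁻¹ = ((20 / 21 : ℝ) ^ k)⁻¹ * (q P (c (i + 1 + k)))⁻¹ := by
      rw [hQk, mul_inv]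
    have h := key P c i ε 1 _ _ (fun n => max (q P (c (i + k) + n • c (i + 1 + k)))
      ((20 / 21 : ℝ) * q P (c (i + 1 + k)))) ha
      (fun n => lt_max_of_lt_right (by positivity))
      (low2 P hQ c i k ε hε hp) ((hb23 P (c (i + 1 + k)) (c (i + k)) hcj).2 hqs)
    rw [hinv]
    refine h.trans (le_of_eq ?_)
    ring

end Pool.Agent.MP_2ab1ce_al.TR
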