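import Mathlib
import Pool.Agent.Lib.MP_2ab1ce_al.TR.Stm

namespace Pool.Agent.MP_2ab1ce_al.TR

theorem p_par : S_par := by
  set K : ℝ := 100000000 with hK
  set s : ℝ := Real.log (1 + 1 / 10000) / Real.log K with hs
  have hK1 : 1 < K := by rw [hK]; norm_num
  have hK0 : 0 < K := by linarith
  have hlK : 0 < Real.log K := Real.log_pos hK1
  have hl1 : 0 < Real.log (1 + 1 / 10000) := Real.log_pos (by norm_num)
  have hs0 : 0 < s := by rw [hs]; positivity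
  have hKs : K ^ s = 1 + 1 / 10000 := by
    rw [Real.rpow_def_of_pos hK0, hs, mul_div_cancel₀ _ hlK.ne', Real.exp_log (by norm_num)]
  set T : ℝ := (400 : ℝ) ^ (1 / s) with hT
  have hT1 : 1 ≤ T := by
    rw [hT]
    apply Real.one_le_rpow (by norm_num) (by positivity)
  have hTs : T ^ s = 400 := by
    rw [hT, ← Real.rpow_mul (by norm_num), one_div, inv_mul_cancel₀ hs0.ne', Real.rpow_one]
  have hKT : 1 ≤ K * T := by nlinarith
  set R : ℕ := ⌈K * T⌉₊ with hR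
  have hR1 : K * T ≤ R := Nat.le_ceil _
  have hR2 : (R : ℝ) < K * T + 1 := Nat.ceil_lt_add_one (by linarith)
  have hR3 : (2 * (R : ℝ)) ≤ 4 * (K * T) := by linarith
  have hpow : (2 * (R : ℝ)) ^ s ≤ 401 := by
    have h1 : (2 * (R : ℝ)) ^ s ≤ (4 * (K * T)) ^ s :=
      Real.rpow_le_rpow (by positivity) hR3 hs0.le
    have h2 : (4 * (K * T)) ^ s = 4 ^ s * (K ^ s * T ^ s) := by
      rw [Real.mul_rpow (by norm_num) (by positivity), Real.mul_rpow hK0.le (by linarith)]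
    have h3 : (4 : ℝ) ^ s ≤ K ^ s := Real.rpow_le_rpow (by norm_num) (by rw [hK]; norm_num) hs0.le
    rw [h2, hTs] at h1
    rw [hKs] at h1 h3
    have h4 : (4 : ℝ) ^ s * ((1 + 1 / 10000) * 400) ≤ (1 + 1 / 10000) * ((1 + 1 / 10000) * 400) :=
      mul_le_mul_of_nonneg_right h3 (by norm_num)
    calc (2 * (R : ℝ)) ^ s ≤ _ := h1
      _ ≤ _ := h4
      _ ≤ 401 := by norm_num
  refine ⟨⟨K, s, R, by rw [hK]; norm_num, hs0, hKs.le, ?_, ?_, ?_⟩⟩
  · nlinarith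
  · have h1 : T ≤ (2 * (R : ℝ) + 1) / K := by
      rw [le_div_iff₀ hK0]
      nlinarith
    calc (400 : ℝ) = T ^ s := hTs.symm
      _ ≤ _ := Real.rpow_le_rpow (by linarith) h1 hs0.le
  · calc 8 / K * (2 * (2 * (R : ℝ)) ^ s) ≤ 8 / K * (2 * 401) := by gcongr
      _ ≤ 1 / 10000 := by rw [hK]; norm_num

end Pool.Agent.MP_2ab1ce_al.TR
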