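import Mathlib
import Pool.Agent.Lib.MP_2ab1ce_al.TR.Stm

namespace Pool.Agent.MP_2ab1ce_al.TR

theorem p_q : S_q := by
  intro P
  have hK : (0 : ℝ) < P.K := by linarith [P.hK]
  have hs := P.hs
  have h0 : ∀ x : UnitAddCircle, 0 ≤ min (P.K * ‖x‖) 1 := fun x => by positivity
  refine ⟨fun x => Real.rpow_nonneg (h0 x) _, fun x => ?_, fun x => ?_, fun x hx => ?_,
    fun x hx => ?_, fun x y a ha ha1 h => ?_⟩
  · exact Real.rpow_le_one (h0 x) (min_le_right _ _) hs.le
  · unfold q
    rw [Real.rpow_eq_zero (h0 x) hs.ne']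
    constructor
    · intro h
      have h1 : P.K * ‖x‖ = 0 := by
        rcases min_choice (P.K * ‖x‖) 1 with h2 | h2
        · rw [h2] at h
          exact h
        · rw [h2] at h
          norm_num at h
      rcases mul_eq_zero.1 h1 with h2 | h2
      · exact absurd h2 hK.ne'
      · exact norm_eq_zero.1 h2
    · rintro rfl
      simp
  · unfold q
    rw [min_eq_right hx, Real.one_rpow]
  · have h1 : P.K * ‖x‖ < 1 := by
      by_contra hcon
      push Not at hcon
      unfold q at hx
      rw [min_eq_right hcon, Real.one_rpow] at hx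
      exact lt_irrefl _ hx
    refine ⟨h1, ?_⟩
    unfold q
    rw [min_eq_left h1.le]
  · unfold q
    rw [← Real.mul_rpow ha.le (h0 y)]
    apply Real.rpow_le_rpow (mul_nonneg ha.le (h0 y)) _ hs.le
    apply le_min h
    calc a * min (P.K * ‖y‖) 1 ≤ 1 * 1 :=
          mul_le_mul ha1 (min_le_right _ _) (h0 y) (by norm_num)
      _ = 1 := by norm_num

end Pool.Agent.MP_2ab1ce_al.TR
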