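import Mathlib
import Pool.Agent.Lib.MP_2ab1ce_al.TR.Stm

namespace Pool.Agent.MP_2ab1ce_al.TR

open Finset MP2ab1ce

namespace P_rel

theorem shearA_inv {p : ℕ} [Fact p.Prime] (m : ZMod p) :
    (shearA (-m) : Equiv.Perm (ZMod p × ZMod p)) = (shearA m)⁻¹ := by
  ext z
  · change z.1 + -m * z.2 = z.1 - m * z.2
    ring
  · rfl

theorem shearB_inv {p : ℕ} [Fact p.Prime] (m : ZMod p) :
    (shearB (-m) : Equiv.Perm (ZMod p × ZMod p)) = (shearB m)⁻¹ := by
  ext z
  · rfl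
  · change z.2 + -m * z.1 = z.2 - m * z.1
    ring

/-- the four shears -/
def ops {p : ℕ} [Fact p.Prime] (t : ZMod p) (x : Fin 4) (n : ℤ) : Equiv.Perm (ZMod p × ZMod p) :=
  ![shearB ((n : ZMod p) * 1), shearB ((n : ZMod p) * t), shearA ((n : ZMod p) * t),
    shearA ((n : ZMod p) * t ^ 2)] x

theorem ops_inv {p : ℕ} [Fact p.Prime] (t : ZMod p) (x : Fin 4) (n : ℤ) :
    ops t x (-n) = (ops t x n)⁻¹ := by
  unfold ops
  fin_cases x <;> simp [← shearA_inv, ← shearB_inv]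

theorem ops_zero {p : ℕ} [Fact p.Prime] (t : ZMod p) (x : Fin 4) (n : ℤ) :
    ops t x n 0 = 0 := by
  unfold ops
  fin_cases x <;> simp [shearA, shearB]

theorem Hf_pos (P : Par) (c : ℕ → UnitAddCircle) (h : Pos P c) : 0 < Hf P c := by
  obtain ⟨δ, hδ, h⟩ := h
  have hpos : ∀ i, 0 < (Q P c i)⁻¹ := fun i => inv_pos.2 (hδ.trans_le (h i))
  have hle : ∀ i, (Q P c i)⁻¹ ≤ δ⁻¹ := fun i => inv_anti₀ hδ (h i)
  have hsum : Summable (fun i : ℕ => (1 / 2 : ℝ) ^ i * (Q P c i)⁻¹) := by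
    refine Summable.of_nonneg_of_le (fun i => by have := (hpos i).le; positivity)
      (fun i => mul_le_mul_of_nonneg_left (hle i) (by positivity))
      (summable_geometric_two.mul_right _)
  unfold Hf
  exact hsum.tsum_pos (fun i => by have := (hpos i).le; positivity) 0
    (by have := hpos 0; positivity)

/-- the last step: small mass off `0` gives small displacement -/
theorem final {p : ℕ} [Fact p.Prime] {H : Type} [NormedAddCommGroup H] [InnerProductSpace ℂ H]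
    (U : ZMod p × ZMod p → (H ≃ₗᵢ[ℂ] H)) (hU : ∀ z z', U (z + z') = U z * U z') (v : H)
    (z : ZMod p × ZMod p) :
    ‖U z v - v‖ ^ 2 ≤ 4 * ∑ ζ ∈ Finset.univ.filter
      (fun z : ZMod p × ZMod p => z ≠ 0), ‖specP U ζ v‖ ^ 2 := by
  rw [← parseval U (U z v - v), Finset.mul_sum, Finset.sum_filter]
  apply Finset.sum_le_sum
  intro ζ _
  rw [specP_sub, specP_U U hU]
  by_cases h0 : ζ = 0
  · rw [if_neg (by simpa using h0)]
    simp [h0, dot]
  · rw [if_pos h0]
    have e3 : (ZMod.stdAddChar (dot ζ z) : ℂ) • specP U ζ v - specP U ζ v =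
      ((ZMod.stdAddChar (dot ζ z) : ℂ) - 1) • specP U ζ v := by
      rw [sub_smul, one_smul]
    rw [e3, norm_smul, mul_pow]
    have e4 : ‖(ZMod.stdAddChar (dot ζ z) : ℂ) - 1‖ ≤ 2 := by
      refine (norm_sub_le _ _).trans ?_
      rw [AddChar.norm_apply, norm_one]
      norm_num
    have e5 : ‖(ZMod.stdAddChar (dot ζ z) : ℂ) - 1‖ ^ 2 ≤ 4 := by
      calc _ ≤ (2:ℝ) ^ 2 := pow_le_pow_left₀ (norm_nonneg _) e4 2
        _ = 4 := by norm_num
    exact mul_le_mul_of_nonneg_right e5 (by positivity)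

end P_rel

open P_rel in
theorem p_rel (hpar : S_par) (hlya : S_lya) (hfp : S_fp) (hnz : S_nz) (hsch : S_sch)
    (hspec : S_spec) (htra : S_tra) (hmov : S_mov) : S_rel := by
  classical
  obtain ⟨P⟩ := hpar
  obtain ⟨L, δ1, hδ1, hL⟩ := hnz P 26000000
  set N : ℝ := 2 * (P.R : ℝ) + 1 with hN
  have hN0 : 0 < N := by rw [hN]; positivity
  set m' : ℝ := ((L : ℝ) + 1) * (3 * 4 ^ L / (4 * δ1)) with hm'
  have hm'0 : 0 ≤ m' := by rw [hm']; positivity
  set C' : ℝ := 4000 * (3 * (P.R : ℝ) ^ 2 + 6 * m' ^ 2) + m' ^ 2 with hC'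
  have hC'0 : 0 ≤ C' := by rw [hC']; positivity
  refine ⟨2 * √C' + 1, by positivity, ?_⟩
  intro p _ t ht H _ _ U hU a1 a3 b1 b3 ha1 ha3 hb1 hb3 v hv δ hδ h1 h2 h3 h4 h5 h6 z
  set D : Finset (ZMod p × ZMod p) := univ.filter (fun z => z ≠ 0) with hD
  set f : ZMod p × ZMod p → ℝ := fun ζ => ‖specP U ζ v‖ with hf
  set Hh : ZMod p × ZMod p → ℝ := fun ζ => Hf P (cz p t ζ) with hHh
  have hPos : ∀ ζ ∈ D, Pos P (cz p t ζ) := by
    intro ζ hζ
    exact (hfp p t ζ).1 P ht (mem_filter.1 hζ).2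
  -- the operations
  set e : Fin 4 × {n : ℤ // n ∈ Icc (-(P.R : ℤ)) (P.R : ℤ)} → Equiv.Perm (ZMod p × ZMod p) :=
    fun i => ops t i.1 i.2.1 with he
  set inv : Fin 4 × {n : ℤ // n ∈ Icc (-(P.R : ℤ)) (P.R : ℤ)} →
      Fin 4 × {n : ℤ // n ∈ Icc (-(P.R : ℤ)) (P.R : ℤ)} :=
    fun i => (i.1, ⟨-i.2.1, by
      have := mem_Icc.1 i.2.2
      rw [mem_Icc]
      constructor <;> linarith [this.1, this.2]⟩) with hinv
  have hcard : (Fintype.card (Fin 4 × {n : ℤ // n ∈ Icc (-(P.R : ℤ)) (P.R : ℤ)}) : ℝ) = 4 * N := by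
    rw [Fintype.card_prod, Fintype.card_fin, Fintype.card_coe, Int.card_Icc]
    have : ((P.R : ℤ) + 1 - -(P.R : ℤ)).toNat = 2 * P.R + 1 := by omega
    rw [this, hN]
    push_cast
    ring
  have key := hsch (ZMod p × ZMod p) (Fin 4 × {n : ℤ // n ∈ Icc (-(P.R : ℤ)) (P.R : ℤ)}) e inv
    (by
      intro i
      rw [hinv]
      simp)
    (by
      intro i
      rw [he, hinv]
      exact ops_inv t i.1 i.2.1)
    D
    (by
      intro i ζ hζ
      rw [hD, mem_filter] at hζ ⊢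
      refine ⟨mem_univ _, ?_⟩
      intro h0
      apply hζ.2
      apply (e i).injective
      rw [h0]
      exact (ops_zero t i.1 i.2.1).symm)
    Hh (fun ζ hζ => Hf_pos P _ (hPos ζ hζ)) (N / 1000) (13000 * N) (by positivity) (by positivity)
    (by
      intro ζ hζ
      rw [hcard, Fintype.sum_prod_type]
      have hconv : ∀ x : Fin 4, ∑ y : {n : ℤ // n ∈ Icc (-(P.R : ℤ)) (P.R : ℤ)}, Hh (e (x, y) ζ) =
          ∑ n ∈ Icc (-(P.R : ℤ)) (P.R : ℤ), Hf P (cz p t (ops t x n ζ)) := by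
        intro x
        rw [← Finset.sum_coe_sort (Icc (-(P.R : ℤ)) (P.R : ℤ))
          (fun n => Hf P (cz p t (ops t x n ζ)))]
      simp only [hconv]
      rw [Fin.sum_univ_four]
      have hl := hlya P _ (hPos ζ hζ)
      unfold avg at hl
      rw [← add_div, ← add_div, ← add_div, div_le_iff₀ hN0] at hl
      have e0 : ∀ n : ℤ, Hf P (cz p t (ops t 0 n ζ)) = Hf P (E 0 1 n (cz p t ζ)) := by
        intro n
        rw [← (hfp p t ζ).2.1 n]
        rfl
      have e1 : ∀ n : ℤ, Hf P (cz p t (ops t 1 n ζ)) = Hf P (E 0 3 n (cz p t ζ)) := by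
        intro n
        rw [← (hfp p t ζ).2.2.1 n]
        rfl
      have e2 : ∀ n : ℤ, Hf P (cz p t (ops t 2 n ζ)) = Hf P (E 1 1 n (cz p t ζ)) := by
        intro n
        rw [← (hfp p t ζ).2.2.2.1 n]
        rfl
      have e3 : ∀ n : ℤ, Hf P (cz p t (ops t 3 n ζ)) = Hf P (E 1 3 n (cz p t ζ)) := by
        intro n
        rw [← (hfp p t ζ).2.2.2.2 n]
        rfl
      simp only [e0, e1, e2, e3]
      refine hl.trans (le_of_eq ?_)
      rw [hHh]
      ring)
    f ((P.R : ℝ) * δ) (m' * δ)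
    (by
      rintro ⟨x, n, hn⟩
      have hn' := mem_Icc.1 hn
      have hnR : |(n : ℝ)| ≤ P.R := by
        rw [abs_le]
        constructor
        · exact_mod_cast hn'.1
        · exact_mod_cast hn'.2
      have hb : (|(n : ℝ)| * δ) ^ 2 ≤ ((P.R : ℝ) * δ) ^ 2 := by
        apply pow_le_pow_left₀ (by positivity)
        exact mul_le_mul_of_nonneg_right hnR hδ
      refine le_trans ?_ hb
      fin_cases x
      · exact (hmov p 1 H U a1 v δ h1 n).1 ha1
      · exact (hmov p t H U a3 v δ h2 n).1 ha3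
      · exact (hmov p t H U b1 v δ h3 n).2 hb1
      · exact (hmov p (t ^ 2) H U b3 v δ h4 n).2 hb3)
    (by
      have hthr : 2 * (13000 * N) / (N / 1000) = 26000000 := by
        field_simp
        norm_num
      rw [hthr]
      have htr := htra p t H U hU a3 b1 ha3 hb1 v δ h2 h3 h5 h6
      have hcov : ∑ ζ ∈ D.filter (fun ζ => Hh ζ < 26000000), f ζ ^ 2 ≤
          ∑ j ∈ range L, ∑ ζ ∈ univ.filter (fun ζ => δ1 ≤ ‖cz p t ζ j‖), f ζ ^ 2 := by
        simp only [Finset.sum_filter (fun ζ => δ1 ≤ ‖cz p t ζ _‖)]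
        rw [Finset.sum_comm]
        refine le_trans ?_ (Finset.sum_le_sum_of_subset_of_nonneg
          (Finset.subset_univ (D.filter (fun ζ => Hh ζ < 26000000)))
          (fun ζ _ _ => Finset.sum_nonneg (fun j _ => by
            split_ifs
            · positivity
            · exact le_rfl)))
        apply Finset.sum_le_sum
        intro ζ hζ
        rw [mem_filter] at hζ
        obtain ⟨j, hj, hj2⟩ := hL _ (hPos ζ hζ.1) hζ.2
        have := Finset.single_le_sum (f := fun j => if δ1 ≤ ‖cz p t ζ j‖ then f ζ ^ 2 else 0)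
          (s := range L) (fun j _ => by
            split_ifs
            · positivity
            · exact le_rfl) (mem_range.2 hj)
        simp only [if_pos hj2] at this
        exact this
      refine hcov.trans ?_
      have hone : ∀ j ∈ range L, ∑ ζ ∈ univ.filter (fun ζ => δ1 ≤ ‖cz p t ζ j‖), f ζ ^ 2 ≤
          (3 * 4 ^ L * δ / (4 * δ1)) ^ 2 := by
        intro j hj
        rw [mem_range] at hj
        have hmono : ∀ l, l ≤ L → 3 * (4 : ℝ) ^ l * δ ≤ 3 * 4 ^ L * δ := by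
          intro l hl
          have : (4 : ℝ) ^ l ≤ 4 ^ L := pow_le_pow_right₀ (by norm_num) hl
          nlinarith
        obtain ⟨l, hl | hl⟩ := Nat.even_or_odd' j
        · rw [hl]
          exact (hspec p t H U hU v (3 * 4 ^ L * δ) δ1 hδ1 l).1
            ((htr l).2.trans (hmono l (by omega)))
        · rw [hl]
          exact (hspec p t H U hU v (3 * 4 ^ L * δ) δ1 hδ1 l).2
            ((htr l).1.trans (hmono l (by omega)))
      refine (Finset.sum_le_sum hone).trans ?_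
      rw [Finset.sum_const, card_range, nsmul_eq_mul]
      have e1 : (m' * δ) ^ 2 = ((L : ℝ) + 1) ^ 2 * (3 * 4 ^ L * δ / (4 * δ1)) ^ 2 := by
        rw [hm']
        ring
      rw [e1]
      apply mul_le_mul_of_nonneg_right _ (by positivity)
      have : (0 : ℝ) ≤ L := Nat.cast_nonneg L
      nlinarith)
  have hmass : ∑ ζ ∈ D, f ζ ^ 2 ≤ C' * δ ^ 2 := by
    refine key.trans (le_of_eq ?_)
    rw [hcard, hC']
    field_simp
    ring
  have hz := final U hU v z
  have h7 : ‖U z v - v‖ ^ 2 ≤ (2 * √C' * δ) ^ 2 := by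
    calc ‖U z v - v‖ ^ 2 ≤ 4 * ∑ ζ ∈ D, f ζ ^ 2 := hz
      _ ≤ 4 * (C' * δ ^ 2) := by linarith
      _ = (2 * √C' * δ) ^ 2 := by
        rw [mul_pow, mul_pow, Real.sq_sqrt hC'0]
        ring
  have h8 := abs_le_of_sq_le_sq' h7 (by positivity)
  linarith [h8.2]

end Pool.Agent.MP_2ab1ce_al.TR
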