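import Mathlib
import Pool.Agent.Lib.MP_2ab1ce_al.TR.Stm

/-!
# Project TR (MP_2ab1ce_al): piece sch, the Schur test
-/

set_option autoImplicit false

namespace Pool.Agent.MP_2ab1ce_al.TR

open Finset MP2ab1ce

namespace P_sch

theorem amgm {a b u v : ℝ} (hu : 0 < u) (hv : 0 < v) :
    2 * (a * b) ≤ a ^ 2 * (v / u) + b ^ 2 * (u / v) := by
  have h1 : a ^ 2 * (v / u) + b ^ 2 * (u / v) - 2 * (a * b) = (a * v - b * u) ^ 2 / (u * v) := by
    field_simp
    ring
  have h2 : 0 ≤ (a * v - b * u) ^ 2 / (u * v) := by positivity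
  linarith

theorem inv_app {X : Type} (e : Equiv.Perm X) (x : X) : e⁻¹ (e x) = x :=
  Equiv.Perm.inv_eq_iff_eq.mpr rfl

end P_sch

/-- PIECE sch. -/
theorem p_sch : S_sch := by
  intro X ι _ _ _ e inv hinv heinv D hD H hH ρ C hρ hC hdr f Δ m hΔ hm
  classical
  have hD' : ∀ i x, x ∈ D ↔ e i x ∈ D := by
    intro i x
    refine ⟨hD i x, fun h => ?_⟩
    have h1 := hD (inv i) _ h
    rw [heinv, P_sch.inv_app] at h1
    exact h1
  have hperm : ∀ i (φ : X → ℝ), ∑ x ∈ D, φ (e i x) = ∑ x ∈ D, φ x := fun i φ =>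
    Finset.sum_equiv (e i) (fun x => hD' i x) (fun x _ => rfl)
  set g : X → ℝ := fun x => if H x < 2 * C / ρ then 0 else f x with hg
  set b : X → ℝ := fun x => if H x < 2 * C / ρ then f x else 0 with hb
  have hfgb : ∀ x, f x = g x + b x := by
    intro x
    rw [hg, hb]
    by_cases h : H x < 2 * C / ρ
    · simp [h]
    · simp [h]
  set N : ℝ := (Fintype.card ι : ℝ) with hN
  set G : ℝ := ∑ x ∈ D, g x ^ 2 with hG
  have hbm : ∑ x ∈ D, b x ^ 2 ≤ m ^ 2 := by
    refine le_trans (le_of_eq ?_) hm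
    rw [Finset.sum_filter]
    apply Finset.sum_congr rfl
    intro x _
    rw [hb]
    by_cases h : H x < 2 * C / ρ
    · simp [h]
    · simp [h]
  -- the sum of the products
  have hS : ∑ i, ∑ x ∈ D, 2 * (g x * g (e i x)) ≤ (2 * N - ρ) * G := by
    have h1 : ∀ i, ∑ x ∈ D, 2 * (g x * g (e i x)) ≤
        ∑ x ∈ D, g x ^ 2 * (H (e i x) / H x) + ∑ x ∈ D, g x ^ 2 * (H (e (inv i) x) / H x) := by
      intro i
      have h2 : ∑ x ∈ D, g x ^ 2 * (H (e (inv i) x) / H x) =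
          ∑ x ∈ D, g (e i x) ^ 2 * (H x / H (e i x)) := by
        rw [← hperm i]
        apply Finset.sum_congr rfl
        intro x _
        rw [heinv, P_sch.inv_app]
      rw [h2, ← Finset.sum_add_distrib]
      apply Finset.sum_le_sum
      intro x hx
      exact P_sch.amgm (hH x hx) (hH _ (hD i x hx))
    have h3 : ∑ i, ∑ x ∈ D, g x ^ 2 * (H (e (inv i) x) / H x) =
        ∑ i, ∑ x ∈ D, g x ^ 2 * (H (e i x) / H x) :=
      Finset.sum_equiv (⟨inv, inv, hinv, hinv⟩ : Equiv.Perm ι) (fun _ => by simp)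
        (fun _ _ => rfl)
    have h4 : ∑ i, ∑ x ∈ D, g x ^ 2 * (H (e i x) / H x) ≤ (N - ρ / 2) * G := by
      rw [Finset.sum_comm, hG, Finset.mul_sum]
      apply Finset.sum_le_sum
      intro x hx
      by_cases h : H x < 2 * C / ρ
      · have h5 : g x = 0 := by rw [hg]; simp [h]
        simp [h5]
      · have h5 : 2 * C / ρ ≤ H x := not_lt.1 h
        have h6 : C ≤ ρ / 2 * H x := by
          rw [div_le_iff₀ hρ] at h5
          linarith
        have h7 : ∑ i, H (e i x) ≤ (N - ρ / 2) * H x := by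
          have := hdr x hx
          nlinarith
        rw [← Finset.mul_sum, ← Finset.sum_div]
        have h8 : (∑ i, H (e i x)) / H x ≤ N - ρ / 2 := by
          rw [div_le_iff₀ (hH x hx)]
          exact h7
        calc g x ^ 2 * ((∑ i, H (e i x)) / H x) ≤ g x ^ 2 * (N - ρ / 2) :=
              mul_le_mul_of_nonneg_left h8 (sq_nonneg _)
          _ = _ := by ring
    calc ∑ i, ∑ x ∈ D, 2 * (g x * g (e i x)) ≤
        ∑ i, (∑ x ∈ D, g x ^ 2 * (H (e i x) / H x) +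
          ∑ x ∈ D, g x ^ 2 * (H (e (inv i) x) / H x)) := Finset.sum_le_sum fun i _ => h1 i
      _ = ∑ i, ∑ x ∈ D, g x ^ 2 * (H (e i x) / H x) +
          ∑ i, ∑ x ∈ D, g x ^ 2 * (H (e i x) / H x) := by
            rw [Finset.sum_add_distrib, h3]
      _ ≤ _ := by linarith
  -- the lower bound
  have hlow : ρ * G ≤ ∑ i, ∑ x ∈ D, (g (e i x) - g x) ^ 2 := by
    have h1 : ∀ i, ∑ x ∈ D, (g (e i x) - g x) ^ 2 =
        2 * G - ∑ x ∈ D, 2 * (g x * g (e i x)) := by
      intro i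
      have h2 : ∀ x ∈ D, (g (e i x) - g x) ^ 2 =
          g (e i x) ^ 2 + g x ^ 2 - 2 * (g x * g (e i x)) := fun x _ => by ring
      rw [Finset.sum_congr rfl h2, Finset.sum_sub_distrib, Finset.sum_add_distrib,
        hperm i (fun x => g x ^ 2)]
      ring
    rw [Finset.sum_congr rfl (fun i _ => h1 i), Finset.sum_sub_distrib, Finset.sum_const,
      Finset.card_univ, nsmul_eq_mul]
    have h3 : ((Fintype.card ι : ℕ) : ℝ) = N := rfl
    rw [h3]
    linarith
  -- the upper bound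
  have hup : ∀ i, ∑ x ∈ D, (g (e i x) - g x) ^ 2 ≤ 3 * Δ ^ 2 + 6 * m ^ 2 := by
    intro i
    have h1 : ∀ x ∈ D, (g (e i x) - g x) ^ 2 ≤
        3 * (f (e i x) - f x) ^ 2 + 3 * b (e i x) ^ 2 + 3 * b x ^ 2 := by
      intro x _
      have h2 : g (e i x) - g x = (f (e i x) - f x) - b (e i x) + b x := by
        rw [hfgb (e i x), hfgb x]; ring
      rw [h2]
      nlinarith [sq_nonneg ((f (e i x) - f x) + b (e i x)), sq_nonneg ((f (e i x) - f x) - b x),
        sq_nonneg (b (e i x) + b x)]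
    have h3 : ∑ x ∈ D, (f (e i x) - f x) ^ 2 ≤ Δ ^ 2 :=
      (Finset.sum_le_sum_of_subset_of_nonneg (Finset.subset_univ D)
        (fun _ _ _ => sq_nonneg _)).trans (hΔ i)
    calc ∑ x ∈ D, (g (e i x) - g x) ^ 2 ≤
        ∑ x ∈ D, (3 * (f (e i x) - f x) ^ 2 + 3 * b (e i x) ^ 2 + 3 * b x ^ 2) :=
          Finset.sum_le_sum h1
      _ = 3 * ∑ x ∈ D, (f (e i x) - f x) ^ 2 + 3 * ∑ x ∈ D, b x ^ 2 + 3 * ∑ x ∈ D, b x ^ 2 := by
          rw [Finset.sum_add_distrib, Finset.sum_add_distrib, ← Finset.mul_sum, ← Finset.mul_sum,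
            ← Finset.mul_sum, hperm i (fun x => b x ^ 2)]
      _ ≤ _ := by linarith
  have hup' : ∑ i, ∑ x ∈ D, (g (e i x) - g x) ^ 2 ≤ N * (3 * Δ ^ 2 + 6 * m ^ 2) := by
    refine (Finset.sum_le_sum fun i _ => hup i).trans (le_of_eq ?_)
    rw [Finset.sum_const, Finset.card_univ, nsmul_eq_mul]
  have hGle : G ≤ N / ρ * (3 * Δ ^ 2 + 6 * m ^ 2) := by
    have h1 := hlow.trans hup'
    rw [div_mul_eq_mul_div, le_div_iff₀ hρ]
    linarith
  have hf : ∑ x ∈ D, f x ^ 2 = G + ∑ x ∈ D, b x ^ 2 := by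
    rw [hG, ← Finset.sum_add_distrib]
    apply Finset.sum_congr rfl
    intro x _
    rw [hg, hb]
    by_cases h : H x < 2 * C / ρ
    · simp [h]
    · simp [h]
  rw [hf]
  linarith

end Pool.Agent.MP_2ab1ce_al.TR
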