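import Mathlib
import Pool.Agent.Lib.MP_2ab1ce_al.TR.Stm

set_option autoImplicit false

namespace Pool.Agent.MP_2ab1ce_al.TR

open Finset MP2ab1ce

namespace P_spec

lemma lower {p : ℕ} [Fact p.Prime] (x : ZMod p) :
    4 * ‖ZMod.toAddCircle x‖ ≤ ‖(ZMod.stdAddChar x : ℂ) - 1‖ := by
  set X := x.valMinAbs with hX
  have hp0 : (0 : ℝ) < p := by exact_mod_cast (Fact.out : p.Prime).pos
  have e0 : x = (X : ZMod p) := by rw [hX, ZMod.coe_valMinAbs]
  rw [e0, ZMod.stdAddChar_coe, ZMod.toAddCircle_intCast]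
  have e1 : Complex.exp (2 * Real.pi * Complex.I * X / p) =
      Complex.exp (Complex.I * ((2 * Real.pi * X / p : ℝ) : ℂ)) := by
    congr 1
    push_cast
    ring
  rw [e1, Complex.norm_exp_I_mul_ofReal_sub_one]
  have hX2 : |(X : ℝ)| * 2 ≤ p := by
    have h1 := x.valMinAbs_mem_Ioc
    rw [← hX] at h1
    have h2 : |X| * 2 ≤ p := by
      rcases abs_cases X with ⟨hh, _⟩ | ⟨hh, _⟩ <;> rw [hh]
      · exact h1.2
      · have := h1.1
        linarith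
    exact_mod_cast h2
  have h5 : |2 * Real.pi * X / p / 2| = Real.pi * |(X : ℝ)| / p := by
    rw [show 2 * Real.pi * (X : ℝ) / p / 2 = (Real.pi / p) * X by ring, abs_mul,
      abs_of_pos (by positivity)]
    ring
  have h6 : 2 / Real.pi * (Real.pi * |(X : ℝ)| / p) ≤ Real.sin (Real.pi * |(X : ℝ)| / p) := by
    apply Real.mul_le_sin
    · positivity
    · rw [div_le_div_iff₀ hp0 (by norm_num)]
      nlinarith [Real.pi_pos]
  have h7 : |Real.sin (2 * Real.pi * X / p / 2)| = |Real.sin (Real.pi * |(X : ℝ)| / p)| := by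
    rw [← h5]
    rcases abs_cases (2 * Real.pi * X / p / 2) with ⟨hh, _⟩ | ⟨hh, _⟩ <;> rw [hh]
    rw [Real.sin_neg, abs_neg]
  have h9 : 2 / Real.pi * (Real.pi * |(X : ℝ)| / p) = 2 * |(X : ℝ)| / p := by
    field_simp
  have h10 : ‖(((X : ℝ) / (p : ℝ) : ℝ) : UnitAddCircle)‖ ≤ |(X : ℝ)| / p := by
    rw [UnitAddCircle.norm_eq]
    have := round_le ((X : ℝ) / (p : ℝ)) 0
    rw [Int.cast_zero, sub_zero, abs_div, abs_of_pos hp0] at this
    exact this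
  rw [Real.norm_eq_abs, abs_mul, h7, abs_of_pos (by norm_num : (0:ℝ) < 2)]
  rw [h9] at h6
  have h11 := le_abs_self (Real.sin (Real.pi * |(X : ℝ)| / p))
  have h12 : 2 * |(X : ℝ)| / p = 2 * (|(X : ℝ)| / p) := by ring
  linarith

lemma main {p : ℕ} [Fact p.Prime] {H : Type} [NormedAddCommGroup H]
    [InnerProductSpace ℂ H] (U : ZMod p × ZMod p → (H ≃ₗᵢ[ℂ] H))
    (hU : ∀ z z', U (z + z') = U z * U z') (v : H) (κ δ1 : ℝ) (h1 : 0 < δ1)
    (z : ZMod p × ZMod p) (c : ZMod p × ZMod p → UnitAddCircle)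
    (hc : ∀ ζ, c ζ = ZMod.toAddCircle (dot ζ z)) (hv : ‖U z v - v‖ ≤ κ) :
    ∑ ζ ∈ univ.filter (fun ζ => δ1 ≤ ‖c ζ‖), ‖specP U ζ v‖ ^ 2 ≤ (κ / (4 * δ1)) ^ 2 := by
  have h2 : ∑ ζ ∈ univ.filter (fun ζ => δ1 ≤ ‖c ζ‖), (4 * δ1) ^ 2 * ‖specP U ζ v‖ ^ 2 ≤
      ‖U z v - v‖ ^ 2 := by
    rw [← parseval U (U z v - v)]
    refine le_trans ?_ (Finset.sum_le_sum_of_subset_of_nonneg (Finset.subset_univ (univ.filter (fun ζ => δ1 ≤ ‖c ζ‖)))
      (fun _ _ _ => by positivity))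
    apply Finset.sum_le_sum
    intro ζ hζ
    rw [Finset.mem_filter] at hζ
    have e2 : specP U ζ (U z v - v) =
        ((ZMod.stdAddChar (dot ζ z) : ℂ) - 1) • specP U ζ v := by
      rw [specP_sub, specP_U U hU, sub_smul, one_smul]
    rw [e2, norm_smul, mul_pow ‖(ZMod.stdAddChar (dot ζ z) : ℂ) - 1‖]
    have h3 := lower (dot ζ z)
    rw [← hc] at h3
    have h4 : (4 * δ1) ^ 2 ≤ ‖(ZMod.stdAddChar (dot ζ z) : ℂ) - 1‖ ^ 2 :=
      pow_le_pow_left₀ (by positivity) (by linarith [hζ.2]) 2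
    exact mul_le_mul_of_nonneg_right h4 (sq_nonneg _)
  rw [← Finset.mul_sum] at h2
  rw [div_pow, le_div_iff₀ (by positivity), mul_comm]
  exact h2.trans (pow_le_pow_left₀ (norm_nonneg _) hv 2)

end P_spec

theorem p_spec : S_spec := by
  intro p _ t H _ _ U hU v κ δ1 h1 l
  refine ⟨fun hv => ?_, fun hv => ?_⟩
  · refine P_spec.main U hU v κ δ1 h1 (0, t ^ l) _ (fun ζ => ?_) hv
    have e1 : 2 * l / 2 = l := by omega
    have e2 : 2 * l % 2 = 0 := by omega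
    rw [cz, e1, if_pos e2, dot, mul_zero, zero_add, mul_comm]
  · refine P_spec.main U hU v κ δ1 h1 (t ^ l, 0) _ (fun ζ => ?_) hv
    have e1 : (2 * l + 1) / 2 = l := by omega
    have e2 : ¬ (2 * l + 1) % 2 = 0 := by omega
    rw [cz, e1, if_neg e2, dot, mul_zero, add_zero, mul_comm]

end Pool.Agent.MP_2ab1ce_al.TR
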