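import Mathlib
import Pool.Agent.Lib.MP_2ab1ce_al.TR.Stm

/-!
# Project TR (MP_2ab1ce_al): a summation lemma about real series
-/

set_option autoImplicit false

namespace Pool.Agent.MP_2ab1ce_al.TR

namespace P_sum

/-- the auxiliary sequence -/
noncomputable def phi (a f : ℕ → ℝ) (i : ℕ) : ℝ :=
  (if f i ≤ (4 - 1 / 100) * a i then 6 / 1000 else 14 / 10000) * a i

theorem phi_ge (a f : ℕ → ℝ) (ha : ∀ i, 0 < a i) (i : ℕ) : 14 / 10000 * a i ≤ phi a f i := by
  have := ha i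
  unfold phi
  split_ifs
  · nlinarith
  · exact le_refl _

theorem phi_le (a f : ℕ → ℝ) (ha : ∀ i, 0 < a i) (i : ℕ) : phi a f i ≤ 6 / 1000 * a i := by
  have := ha i
  unfold phi
  split_ifs
  · exact le_refl _
  · nlinarith

theorem key (a f : ℕ → ℝ) (ha : ∀ i, 0 < a i) (hf6 : ∀ i, f i ≤ 6 * a i)
    (ha2 : ∀ i, a i ≤ 21 / 10 * a (i + 1))
    (halt : ∀ i, a i ≤ 1000 * (1 / 2) ^ i ∨ f i ≤ (4 - 1 / 100) * a i ∨
      (f i ≤ (4 + 1 / 2500) * a i ∧ a i ≤ 1 / 2 * a (i + 1)) ∨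
      (f i ≤ (4 + 1 / 2500) * a i ∧ f (i + 1) ≤ (4 - 1 / 100) * a (i + 1))) (i : ℕ) :
    f i + phi a f i ≤ ((4 - 1 / 1000) * a i + phi a f (i + 1)) + 2100 * (1 / 2 : ℝ) ^ i := by
  have h0 := ha i
  have h1 := ha (i + 1)
  have hp : (0 : ℝ) < (1 / 2 : ℝ) ^ i := by positivity
  have hg := phi_ge a f ha (i + 1)
  by_cases hc : f i ≤ (4 - 1 / 100) * a i
  · have h2 := phi_le a f ha i
    nlinarith
  · have h2 : phi a f i = 14 / 10000 * a i := by
      unfold phi
      rw [if_neg hc]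
    rw [h2]
    rcases halt i with h | h | ⟨h, h'⟩ | ⟨h, h'⟩
    · have h6 := hf6 i
      nlinarith
    · exact absurd h hc
    · nlinarith
    · have h3 : phi a f (i + 1) = 6 / 1000 * a (i + 1) := by
        unfold phi
        rw [if_pos h']
      rw [h3]
      have h4 := ha2 i
      nlinarith

end P_sum

open P_sum in
theorem p_sum : S_sum := by
  intro a f ha hsa hf0 hf6 ha2 halt
  have sf : Summable f := Summable.of_nonneg_of_le hf0 hf6 (hsa.mul_left 6)
  have sφ : Summable (phi a f) :=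
    Summable.of_nonneg_of_le (fun i => le_trans (by have := ha i; positivity) (phi_ge a f ha i))
      (phi_le a f ha) (hsa.mul_left (6 / 1000))
  have sφ1 : Summable (fun i => phi a f (i + 1)) := (summable_nat_add_iff 1).mpr sφ
  have sg : Summable (fun i : ℕ => 2100 * (1 / 2 : ℝ) ^ i) := summable_geometric_two.mul_left _
  have h := Summable.tsum_le_tsum (key a f ha hf6 ha2 halt) (sf.add sφ)
    (((hsa.mul_left (4 - 1 / 1000)).add sφ1).add sg)
  rw [Summable.tsum_add sf sφ, Summable.tsum_add ((hsa.mul_left (4 - 1 / 1000)).add sφ1) sg,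
    Summable.tsum_add (hsa.mul_left (4 - 1 / 1000)) sφ1, tsum_mul_left, tsum_mul_left,
    tsum_geometric_two] at h
  have h1 : ∑' i, phi a f i = phi a f 0 + ∑' i, phi a f (i + 1) := sφ.tsum_eq_zero_add
  have h0 : 0 ≤ phi a f 0 := le_trans (by have := ha 0; positivity) (phi_ge a f ha 0)
  linarith

end Pool.Agent.MP_2ab1ce_al.TR
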