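import Mathlib
import Pool.Agent.Lib.MP_2ab1ce_al.TR.Stm

/-!
# Project TR (MP_2ab1ce_al), piece tra: powers of `t` are short
-/

set_option autoImplicit false

namespace Pool.Agent.MP_2ab1ce_al.TR

open Finset MP2ab1ce

namespace P_tra

theorem step {H : Type} [NormedAddCommGroup H] [InnerProductSpace ℂ H]
    (A B C a : H ≃ₗᵢ[ℂ] H) (v : H) (M δ : ℝ) (hC : C = A * B) (hint : C (a v) = a (B v))
    (ha : ‖a v - v‖ ≤ δ) (hB : ‖B v - v‖ ≤ M) : ‖A v - v‖ ≤ 2 * M + 2 * δ := by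
  have h1 : ‖C v - v‖ ≤ M + 2 * δ := by
    have h2 : C v - v = C (v - a v) + (a (B v - v) + (a v - v)) := by
      rw [map_sub, map_sub, hint]
      abel
    have h3 : ‖v - a v‖ ≤ δ := by rw [norm_sub_rev]; exact ha
    calc ‖C v - v‖ = ‖C (v - a v) + (a (B v - v) + (a v - v))‖ := by rw [← h2]
      _ ≤ ‖C (v - a v)‖ + (‖a (B v - v)‖ + ‖a v - v‖) :=
          (norm_add_le _ _).trans (add_le_add le_rfl (norm_add_le _ _))
      _ = ‖v - a v‖ + (‖B v - v‖ + ‖a v - v‖) := by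
          rw [LinearIsometryEquiv.norm_map, LinearIsometryEquiv.norm_map]
      _ ≤ M + 2 * δ := by linarith
  have h4 : A v - v = A (v - B v) + (C v - v) := by
    have h5 : C v = A (B v) := by rw [hC]; rfl
    rw [map_sub, h5]
    abel
  have h5 : ‖v - B v‖ ≤ M := by rw [norm_sub_rev]; exact hB
  calc ‖A v - v‖ = ‖A (v - B v) + (C v - v)‖ := by rw [← h4]
    _ ≤ ‖A (v - B v)‖ + ‖C v - v‖ := norm_add_le _ _
    _ = ‖v - B v‖ + ‖C v - v‖ := by rw [LinearIsometryEquiv.norm_map]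
    _ ≤ 2 * M + 2 * δ := by linarith

end P_tra

theorem p_tra : S_tra := by
  intro p _ t H _ _ U hU a b ha hb v δ hav hbv h1 h2 l
  have hδ : 0 ≤ δ := (norm_nonneg _).trans hav
  induction l with
  | zero =>
    rw [pow_zero, pow_zero]
    constructor <;> linarith
  | succ l ih =>
    obtain ⟨i1, i2⟩ := ih
    have h4 : (1 : ℝ) ≤ 4 ^ l := one_le_pow₀ (by norm_num)
    have h5 : δ ≤ 4 ^ l * δ := le_mul_of_one_le_left hδ h4
    have h6 : 2 * (3 * 4 ^ l * δ) + 2 * δ ≤ 3 * 4 ^ (l + 1) * δ := by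
      have e : (3 : ℝ) * 4 ^ (l + 1) * δ = 4 * (3 * (4 ^ l * δ)) := by ring
      have e' : (3 : ℝ) * 4 ^ l * δ = 3 * (4 ^ l * δ) := by ring
      rw [e, e']
      linarith
    constructor
    · refine (P_tra.step (U (t ^ (l + 1), 0)) (U (0, t ^ l)) (U (t ^ (l + 1), t ^ l)) a v
        (3 * 4 ^ l * δ) δ ?_ ?_ hav i2).trans h6
      · rw [← hU]
        congr 1
        simp
      · have h := ha (0, t ^ l) v
        simp only [zero_add, ← pow_succ'] at h
        exact h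
    · refine (P_tra.step (U (0, t ^ (l + 1))) (U (t ^ l, 0)) (U (t ^ l, t ^ (l + 1))) b v
        (3 * 4 ^ l * δ) δ ?_ ?_ hbv i1).trans h6
      · rw [← hU]
        congr 1
        simp
      · have h := hb (t ^ l, 0) v
        simp only [zero_add, ← pow_succ'] at h
        exact h

end Pool.Agent.MP_2ab1ce_al.TR
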