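import Mathlib
import Pool.Agent.Lib.MP_2ab1ce_al.TR.Stm

/-!
# Project TR, piece tri: the trichotomy
-/

namespace Pool.Agent.MP_2ab1ce_al.TR.P_tri

open Finset MP2ab1ce Pool.Agent.MP_2ab1ce_al.TR

/-- the sum over the four operations, sorted by parity -/
lemma F_eq (P : Par) (c : ℕ → UnitAddCircle) (i ε : ℕ) (hε : ε < 2) :
    F P c i = G P c i ε 1 + G P c i ε 3 + G P c i (1 - ε) 1 + G P c i (1 - ε) 3 := by
  unfold F
  interval_cases ε
  · simp
  · simp; ring

/-- the case of a maximum at distance at least three -/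
lemma c3 (hop1 : S_op1) (hop2 : S_op2) (P : Par) (c : ℕ → UnitAddCircle) (i k : ℕ)
    (hpos : 0 < Q P c i) (hk : Q P c i = (20 / 21 : ℝ) ^ k * q P (c (i + k))) (h3 : 3 ≤ k) :
    F P c i ≤ (4 - 1 / 100) * (Q P c i)⁻¹ := by
  have hlt : (i + k) % 2 < 2 := Nat.mod_lt _ (by norm_num)
  have hne : (1 - (i + k) % 2) ≠ (i + k) % 2 := by omega
  have hlt' : 1 - (i + k) % 2 < 2 := by omega
  rw [F_eq P c i _ hlt]
  have hinv : 0 < (Q P c i)⁻¹ := inv_pos.mpr hpos
  obtain ⟨-, o2, o3, o4⟩ := hop1 P c i k ((i + k) % 2) hpos hk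
  obtain ⟨p1, -⟩ := hop2 P c i k (1 - (i + k) % 2) hlt'
  obtain ⟨p1, -⟩ := p1 hpos hk hne
  have e1 := p1 1 (Or.inl rfl) (by omega)
  have e3 := p1 3 (Or.inr rfl) (by omega)
  set X := (Q P c i)⁻¹ with hX
  rcases le_or_gt 1 (P.K * ‖c (i + k + 1)‖) with h | h
  · have f1 := o3 1 (Or.inl rfl) rfl
    have f3 := o4 rfl h
    norm_num at e1 e3 f1 f3 ⊢
    nlinarith
  · have f1 := o2 1 (Or.inl rfl) rfl h
    have f3 := o3 3 (Or.inr rfl) rfl
    norm_num at e1 e3 f1 f3 ⊢
    nlinarith

theorem main (hq : S_q) (hQ : S_Q) (hop1 : S_op1) (hop2 : S_op2) : S_tri := by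
  intro P c hPos i
  obtain ⟨δ, hδ, hδQ⟩ := hPos
  have hposQ : ∀ i, 0 < Q P c i := fun i => lt_of_lt_of_le hδ (hδQ i)
  obtain ⟨hq0, hq1, hqz, hqone, hqlt, hqlast⟩ := hq P
  obtain ⟨k, hk⟩ := (hQ P c i).2.2.2.1 (hposQ i)
  have hpos := hposQ i
  have hinv : 0 < (Q P c i)⁻¹ := inv_pos.mpr hpos
  have hlt : (i + k) % 2 < 2 := Nat.mod_lt _ (by norm_num)
  have hne : (1 - (i + k) % 2) ≠ (i + k) % 2 := by omega
  have hlt' : 1 - (i + k) % 2 < 2 := by omega
  obtain ⟨-, o2, o3, o4⟩ := hop1 P c i k ((i + k) % 2) hpos hk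
  obtain ⟨o1, -, -, -⟩ := hop1 P c i k (1 - (i + k) % 2) hpos hk
  have n1 := o1 1 hne
  have n3 := o1 3 hne
  refine ⟨?_, ?_⟩
  · -- (c0)
    rw [F_eq P c i _ hlt]
    have f1 := o3 1 (Or.inl rfl) rfl
    have f3 := o3 3 (Or.inr rfl) rfl
    set X := (Q P c i)⁻¹ with hX
    norm_num at f1 f3 ⊢
    nlinarith
  · intro hsmall
    rcases Nat.lt_or_ge k 3 with hk3 | hk3
    swap
    · exact Or.inl (c3 hop1 hop2 P c i k hpos hk hk3)
    · -- all neighbours of the maximum are small
      have hqk : q P (c (i + k)) = (21 / 20 : ℝ) ^ k * Q P c i := by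
        rw [hk, ← mul_assoc, ← mul_pow]
        norm_num
      have hqk5 : q P (c (i + k)) ≤ (20 / 21 : ℝ) ^ 5 := by
        rw [hqk]
        have h1 : (21 / 20 : ℝ) ^ k ≤ (21 / 20 : ℝ) ^ 3 :=
          pow_le_pow_right₀ (by norm_num) (by omega)
        have h2 : (21 / 20 : ℝ) ^ k * Q P c i ≤ (21 / 20 : ℝ) ^ 3 * (1 / 1000) :=
          mul_le_mul h1 hsmall.le hpos.le (by positivity)
        refine h2.trans ?_
        norm_num
      have hnb : ∀ σ, σ = 1 ∨ σ = 3 → P.K * ‖c (i + k + σ)‖ < 1 := by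
        intro σ hσ
        have h1 : (20 / 21 : ℝ) ^ (k + σ) * q P (c (i + (k + σ))) ≤ Q P c i :=
          (hQ P c i).2.2.1 (k + σ)
        rw [hk, pow_add, mul_assoc] at h1
        have h2 : (20 / 21 : ℝ) ^ σ * q P (c (i + (k + σ))) ≤ q P (c (i + k)) :=
          le_of_mul_le_mul_left h1 (by positivity)
        rw [← add_assoc] at h2
        have h3 : q P (c (i + k + σ)) < 1 := by
          have h4 : (20 / 21 : ℝ) ^ 3 ≤ (20 / 21 : ℝ) ^ σ :=
            pow_le_pow_of_le_one (by norm_num) (by norm_num) (by omega)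
          have h5 : (20 / 21 : ℝ) ^ 3 * q P (c (i + k + σ)) ≤ (20 / 21 : ℝ) ^ 5 :=
            (mul_le_mul_of_nonneg_right h4 (hq0 _)).trans (h2.trans hqk5)
          by_contra hcon
          rw [not_lt] at hcon
          have h6 : (20 / 21 : ℝ) ^ 3 * 1 ≤ (20 / 21 : ℝ) ^ 3 * q P (c (i + k + σ)) :=
            mul_le_mul_of_nonneg_left hcon (by positivity)
          have h7 := h6.trans h5
          norm_num at h7
        exact (hqlt _ h3).1
      have s1 := o2 1 (Or.inl rfl) rfl (hnb 1 (Or.inl rfl))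
      have s3 := o2 3 (Or.inr rfl) rfl (hnb 3 (Or.inr rfl))
      rcases Nat.eq_zero_or_pos k with hk0 | hk1
      swap
      · -- (c2)
        left
        rw [F_eq P c i _ hlt]
        obtain ⟨p1, -⟩ := hop2 P c i k (1 - (i + k) % 2) hlt'
        obtain ⟨-, p2⟩ := p1 hpos hk hne
        have e1 := p2 hk1 hqk5
        set X := (Q P c i)⁻¹ with hX
        norm_num at s1 s3 e1 ⊢
        nlinarith
      · -- (c1)
        have hFle : F P c i ≤ (4 + 1 / 2500) * (Q P c i)⁻¹ := by
          rw [F_eq P c i _ hlt]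
          set X := (Q P c i)⁻¹ with hX
          norm_num at s1 s3 ⊢
          nlinarith
        rcases lt_or_ge (4 * Q P c (i + 1)) (Q P c i) with h4 | h4
        · exact Or.inr (Or.inl ⟨hFle, h4⟩)
        · obtain ⟨k', hk'⟩ := (hQ P c (i + 1)).2.2.2.1 (hposQ (i + 1))
          have hpos' := hposQ (i + 1)
          rcases le_or_gt (q P (c (i + 1 + k'))) (1 / 400) with h5 | h5
          · -- (c4)
            left
            have hltm : (i + 1 + k') % 2 < 2 := Nat.mod_lt _ (by norm_num)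
            have hltm' : 1 - (i + 1 + k') % 2 < 2 := by omega
            have hnem : (1 - (i + 1 + k') % 2) ≠ (i + 1 + k') % 2 := by omega
            obtain ⟨-, p3⟩ := hop2 P c i k' (1 - (i + 1 + k') % 2) hltm'
            have e1 := p3 hpos' hk' h5 hnem
            have hinv' : (Q P c (i + 1))⁻¹ ≤ 4 * (Q P c i)⁻¹ := by
              have h6 : Q P c i / 4 ≤ Q P c (i + 1) := by linarith
              have h7 : (Q P c (i + 1))⁻¹ ≤ (Q P c i / 4)⁻¹ :=
                inv_anti₀ (by positivity) h6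
              calc (Q P c (i + 1))⁻¹ ≤ (Q P c i / 4)⁻¹ := h7
                _ = 4 * (Q P c i)⁻¹ := by rw [inv_div]; ring
            have e2 : G P c i (1 - (i + 1 + k') % 2) 1 ≤ 1 / 50 * (Q P c i)⁻¹ := by
              linarith
            rw [F_eq P c i _ hlt]
            set X := (Q P c i)⁻¹ with hX
            rcases eq_or_ne (1 - (i + 1 + k') % 2) ((i + k) % 2) with hee | hee
            · rw [hee] at e2
              norm_num at s1 s3 ⊢
              nlinarith
            · have hee' : (1 - (i + 1 + k') % 2) = 1 - (i + k) % 2 := by omega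
              rw [hee'] at e2
              norm_num at s1 s3 ⊢
              nlinarith
          · -- (c5)
            right; right
            refine ⟨hFle, ?_⟩
            have h6 : Q P c (i + 1) ≤ 21 / 20 * Q P c i := by
              have := (hQ P c i).2.2.2.2.1
              linarith
            have hk'3 : 3 ≤ k' := by
              by_contra hcon
              have hk2 : k' ≤ 2 := by omega
              have h7 : (20 / 21 : ℝ) ^ 2 ≤ (20 / 21 : ℝ) ^ k' :=
                pow_le_pow_of_le_one (by norm_num) (by norm_num) hk2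
              have h8 : (20 / 21 : ℝ) ^ 2 * (1 / 400) ≤
                  (20 / 21 : ℝ) ^ k' * q P (c (i + 1 + k')) :=
                mul_le_mul h7 h5.le (by norm_num) (by positivity)
              rw [← hk'] at h8
              norm_num at h8
              linarith
            exact c3 hop1 hop2 P c (i + 1) k' hpos' hk' hk'3

end Pool.Agent.MP_2ab1ce_al.TR.P_tri

namespace Pool.Agent.MP_2ab1ce_al.TR

theorem p_tri (hq : S_q) (hQ : S_Q) (hop1 : S_op1) (hop2 : S_op2) : S_tri :=
  P_tri.main hq hQ hop1 hop2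

end Pool.Agent.MP_2ab1ce_al.TR
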